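import Pool.Agent.L0h43.TD.LInd2

/-!
# Lower bounds for almost all sets of shifts
-/

set_option autoImplicit false

namespace Pool.Agent.L0h43.TD

open Finset Filter Topology Pool.Agent.H387R2
open Pool.Agent.L0h43.TA Pool.Agent.L0h43.TB
open Pool.Agent.H386R2.HL

/-- at most three prime factors, all of them `≥ x ^ (1 / 9)` -/
def APx (x : ℝ) (m : ℕ) : Prop :=
  m.primeFactorsList.length ≤ 3 ∧ ∀ p : ℕ, p.Prime → p ∣ m → x ^ (1 / 9 : ℝ) ≤ p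

open Classical in
/-- the number of primes `m ≤ x` for which all the `m + d` are almost primes -/
noncomputable def cnt3 (x : ℝ) (D : Finset ℕ) : ℕ :=
  ((Icc 1 ⌊x⌋₊).filter (fun m => m.Prime ∧ ∀ d ∈ D, APx x (m + d))).card

lemma ev_19 : ∀ᶠ x : ℝ in atTop, x ^ (1 / 9 : ℝ) ≤ (⌊x⌋₊ : ℝ) ^ (3 / 25 : ℝ) := by
  have t := tendsto_rpow_atTop (show (0 : ℝ) < 2 / 225 by norm_num)
  filter_upwards [t.eventually_ge_atTop 2, eventually_ge_atTop 2] with x h1 h2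
  have hx0 : (0 : ℝ) < x := by linarith
  have h3 : x / 2 ≤ (⌊x⌋₊ : ℝ) := by
    have := Nat.lt_floor_add_one x
    linarith
  have h4 : (x / 2) ^ (3 / 25 : ℝ) ≤ (⌊x⌋₊ : ℝ) ^ (3 / 25 : ℝ) := Real.rpow_le_rpow (by positivity) h3 (by norm_num)
  refine le_trans ?_ h4
  rw [Real.div_rpow hx0.le (by norm_num), le_div_iff₀ (by positivity)]
  have h5 : (2 : ℝ) ^ (3 / 25 : ℝ) ≤ 2 := by
    calc (2 : ℝ) ^ (3 / 25 : ℝ) ≤ (2 : ℝ) ^ (1 : ℝ) := Real.rpow_le_rpow_of_exponent_le (by norm_num) (by norm_num)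
      _ = 2 := Real.rpow_one _
  calc x ^ (1 / 9 : ℝ) * (2 : ℝ) ^ (3 / 25 : ℝ) ≤ x ^ (1 / 9 : ℝ) * x ^ (2 / 225 : ℝ) :=
        mul_le_mul_of_nonneg_left (h5.trans h1) (by positivity)
    _ = x ^ (3 / 25 : ℝ) := by
        rw [← Real.rpow_add hx0]
        norm_num

lemma AS_le_cnt3 {x : ℝ} (h : x ^ (1 / 9 : ℝ) ≤ (⌊x⌋₊ : ℝ) ^ (3 / 25 : ℝ)) (W ν : ℕ) (D : Finset ℕ) :
    (AS ⌊x⌋₊ W ν D).card ≤ cnt3 x D := by
  classical
  unfold cnt3
  apply card_le_card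
  intro n hn
  unfold AS at hn
  rw [mem_filter, mem_Ioc] at hn
  rw [mem_filter, mem_Icc]
  refine ⟨⟨by omega, hn.1.2⟩, hn.2.2.1, fun d hd => ?_⟩
  obtain ⟨h1, h2⟩ := hn.2.2.2 d hd
  exact ⟨h1, fun p hp hpd => h.trans (h2 p hp hpd)⟩

theorem W_low : ∃ c0 : ℝ, 0 < c0 ∧ c0 ≤ 1 ∧ ∀ (k : ℕ) (ε : ℝ), 0 < ε → ∃ K : ℝ, 1 ≤ K ∧ ∀ A : ℝ, 0 ≤ A →
    ∀ᶠ x : ℝ in atTop,
    ∀ u H : ℕ, K * Real.log x ≤ H → ((u + H : ℕ) : ℝ) ≤ Real.log x ^ A → ∀ g : Finset ℕ → ℝ,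
      (∀ D, 0 ≤ g D) → (∀ D, g D ≤ 1) →
      (c0 ^ k * ∑ D ∈ (Ioc u (u + H)).powersetCard k, g D * Uni.CT (insert 0 D) - ε * (H : ℝ) ^ k) *
          (x / Real.log x ^ (k + 1)) ≤
        ∑ D ∈ (Ioc u (u + H)).powersetCard k, g D * (cnt3 x D : ℝ) := by
  obtain ⟨c0, hc0, hc1, HC⟩ := lclaim
  refine ⟨c0, hc0, hc1, fun k ε hε => ?_⟩
  obtain ⟨η, hη0, hη1, hη⟩ := choose_eta (k + 1) 1 one_pos le_rfl
  obtain ⟨K, hK, H0⟩ := HC k (ε / 4) (by positivity) 0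
  refine ⟨K, hK, fun A hA => ?_⟩
  obtain ⟨N₀, hN₀⟩ := H0 (A + 1) (by linarith)
  obtain ⟨L₀, hL₀⟩ := avg0 k A hA
  filter_upwards [ev_real η A hη0 hA (max N₀ 3), ev_19,
    Real.tendsto_log_atTop.eventually_ge_atTop L₀, eventually_ge_atTop (4 / ε)] with x h1 h19 hlL₀ hxε
  obtain ⟨a1, a2, a3, a4, a5, a6, a7⟩ := h1
  intro u H hKH hHA g hg0 hg1
  have hcl : ∀ D, ((AS ⌊x⌋₊ 1 0 D).card : ℝ) ≤ (cnt3 x D : ℝ) := fun D => by exact_mod_cast AS_le_cnt3 h19 1 0 D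
  have hN1 : x - 1 ≤ (⌊x⌋₊ : ℝ) := by
    have := Nat.lt_floor_add_one x
    linarith
  obtain ⟨N, hN⟩ : ∃ N, N = ⌊x⌋₊ := ⟨_, rfl⟩
  rw [← hN] at a1 a2 a3 a4 a5 a6 hN1 hcl
  set L := Real.log (N : ℝ) with hL
  set l := Real.log x with hl
  have hL0 : 0 < L := by linarith
  have hl0 : 0 < l := by linarith
  have hx0 : 0 < x := by linarith
  have hKL : K * L ≤ H := (mul_le_mul_of_nonneg_left a3 (by linarith)).trans hKH
  have hlH : l ≤ H := (le_mul_of_one_le_left hl0.le hK).trans hKH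
  have hmain := hN₀ N ((le_max_left _ _).trans a1) 0 (Uni.WW_pos 0) u H hKL (hHA.trans a5) g hg0 hg1
  rw [← hL, WW_zero] at hmain
  have hH0 : (0 : ℝ) < H := lt_of_lt_of_le (by positivity) hKL
  obtain ⟨S, hS⟩ : ∃ S, S = (Ioc u (u + H)).powersetCard k := ⟨_, rfl⟩
  have e1 : ((Ioc u (u + H)).powersetCard k).filter (fun D => OK 1 0 (insert 0 D)) = S := by
    rw [hS]
    apply filter_true_of_mem
    intro D _
    exact OK_one _ _
  rw [e1] at hmain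
  have hsum := hL₀ l hlL₀ u H hlH hHA
  rw [← hS] at hsum ⊢
  have hxk : (N : ℝ) / L ^ (k + 1) ≤ 2 * (x / l ^ (k + 1)) := by
    have h3 : (N : ℝ) / L ^ (k + 1) ≤ (1 + η) ^ (k + 1) * (x / l ^ (k + 1)) := by
      rw [mul_div_assoc', div_le_div_iff₀ (by positivity) (by positivity)]
      have : l ^ (k + 1) ≤ ((1 + η) * L) ^ (k + 1) := pow_le_pow_left₀ hl0.le a4 _
      calc (N : ℝ) * l ^ (k + 1) ≤ x * ((1 + η) * L) ^ (k + 1) := mul_le_mul a6 this (by positivity) hx0.le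
        _ = _ := by rw [mul_pow]; ring
    refine h3.trans (mul_le_mul_of_nonneg_right ?_ (by positivity))
    linarith
  have hxk2 : (x - 1) / l ^ (k + 1) ≤ (N : ℝ) / L ^ (k + 1) := by
    rw [div_le_div_iff₀ (by positivity) (by positivity)]
    exact mul_le_mul hN1 (pow_le_pow_left₀ hL0.le a3 _) (by positivity) (Nat.cast_nonneg _)
  have hEw : ∀ D ∈ S, Ew N 1 (insert 0 D) = N / L ^ (k + 1) * Uni.CT (insert 0 D) := by
    intro D hD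
    rw [hS] at hD
    unfold Ew
    rw [gT_one, card_ins0 hD, ← hL, Nat.cast_one, div_one]
  have e2 : ∑ D ∈ S, g D * Ew N 1 (insert 0 D) = N / L ^ (k + 1) * ∑ D ∈ S, g D * Uni.CT (insert 0 D) := by
    rw [mul_sum]
    apply sum_congr rfl
    intro D hD
    rw [hEw D hD]; ring
  rw [e2] at hmain
  obtain ⟨G, hG⟩ : ∃ G, G = ∑ D ∈ S, g D * Uni.CT (insert 0 D) := ⟨_, rfl⟩
  rw [← hG] at hmain ⊢
  have hG0 : 0 ≤ G := by rw [hG]; exact sum_nonneg fun D _ => mul_nonneg (hg0 D) (Uni.CT_nonneg _)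
  have hG2 : G ≤ 2 * (H : ℝ) ^ k := by
    rw [hG]
    refine le_trans (sum_le_sum fun D _ => ?_) hsum
    exact mul_le_of_le_one_left (Uni.CT_nonneg _) (hg1 D)
  have hright : ∑ D ∈ S, g D * ((AS N 1 0 D).card : ℝ) ≤ ∑ D ∈ S, g D * (cnt3 x D : ℝ) :=
    sum_le_sum fun D _ => mul_le_mul_of_nonneg_left (hcl D) (hg0 D)
  refine le_trans ?_ (hmain.trans hright)
  obtain ⟨P, hP⟩ : ∃ P, P = x / l ^ (k + 1) := ⟨_, rfl⟩
  have e3 : (x - 1) / l ^ (k + 1) = P - P / x := by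
    rw [hP]; field_simp
  rw [e3] at hxk2
  rw [← hP] at hxk ⊢
  have hP0 : 0 ≤ P := by rw [hP]; positivity
  have hck : 0 < c0 ^ k := by positivity
  have hck1 : c0 ^ k ≤ 1 := pow_le_one₀ hc0.le hc1
  have h5 : c0 ^ k * G * P - ε / 2 * ((H : ℝ) ^ k * P) ≤ c0 ^ k * (N / L ^ (k + 1) * G) := by
    have h6 := mul_le_mul_of_nonneg_right hxk2 hG0
    have h7 := mul_le_mul_of_nonneg_left h6 hck.le
    refine le_trans ?_ h7
    have e4 : c0 ^ k * ((P - P / x) * G) = c0 ^ k * G * P - c0 ^ k * (G * (P / x)) := by ring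
    rw [e4]
    apply sub_le_sub_left
    have h8 : c0 ^ k * (G * (P / x)) ≤ 1 * ((2 * (H : ℝ) ^ k) * (P / x)) := by
      apply mul_le_mul hck1 _ (by positivity) zero_le_one
      exact mul_le_mul_of_nonneg_right hG2 (by positivity)
    refine h8.trans ?_
    have h9 : 2 / x ≤ ε / 2 := by
      rw [div_le_iff₀ hε] at hxε
      rw [div_le_div_iff₀ hx0 (by norm_num)]
      linarith
    calc 1 * ((2 * (H : ℝ) ^ k) * (P / x)) = (2 / x) * ((H : ℝ) ^ k * P) := by ring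
      _ ≤ ε / 2 * ((H : ℝ) ^ k * P) := mul_le_mul_of_nonneg_right h9 (by positivity)
  have h6 : ε / 4 * ((H : ℝ) ^ k * (N / L ^ (k + 1))) ≤ ε / 2 * ((H : ℝ) ^ k * P) := by
    calc ε / 4 * ((H : ℝ) ^ k * (N / L ^ (k + 1))) ≤ ε / 4 * ((H : ℝ) ^ k * (2 * P)) := by
          apply mul_le_mul_of_nonneg_left _ (by positivity)
          exact mul_le_mul_of_nonneg_left hxk (by positivity)
      _ = _ := by ring
  have e5 : (c0 ^ k * G - ε * (H : ℝ) ^ k) * P = c0 ^ k * G * P - ε * ((H : ℝ) ^ k * P) := by ring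
  rw [e5]
  linarith

open Classical in
theorem AE_low : ∃ c0 : ℝ, 0 < c0 ∧ c0 ≤ 1 ∧ (∀ (k : ℕ) (ε : ℝ), 0 < ε → ∃ K : ℝ, 1 ≤ K ∧ ∀ A : ℝ, 0 ≤ A →
    ∀ᶠ x : ℝ in atTop,
    ∀ u H : ℕ, K * Real.log x ≤ H → ((u + H : ℕ) : ℝ) ≤ Real.log x ^ A → (∀ g : Finset ℕ → ℝ,
      (∀ D, 0 ≤ g D) → (∀ D, g D ≤ 1) →
      (c0 ^ k * ∑ D ∈ (Ioc u (u + H)).powersetCard k, g D * Uni.CT (insert 0 D) - ε * (H : ℝ) ^ k) *
          (x / Real.log x ^ (k + 1)) ≤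
        ∑ D ∈ (Ioc u (u + H)).powersetCard k, g D * (cnt3 x D : ℝ)) ∧
      ((((Ioc u (u + H)).powersetCard k).filter (fun D => Uni.CT (insert 0 D) ≠ 0 ∧
        (cnt3 x D : ℝ) < (1 - ε) * c0 ^ k * Uni.CT (insert 0 D) * (x / Real.log x ^ (k + 1)))).card : ℝ) ≤
        ε * (H.choose k : ℝ)) := by
  obtain ⟨c0, hc0, hc1, HW⟩ := W_low
  refine ⟨c0, hc0, hc1, fun k ε hε => ?_⟩
  obtain ⟨c, hc, hlow⟩ := CT_pos_low (k + 1)
  obtain ⟨e, he⟩ : ∃ e : ℝ, e = ε ^ 2 * c0 ^ k * c / (2 ^ k * k.factorial) := ⟨_, rfl⟩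
  have hf0 : (0 : ℝ) < k.factorial := by exact_mod_cast k.factorial_pos
  have he0 : 0 < e := by rw [he]; positivity
  obtain ⟨K1, hK1, H1⟩ := HW k ε hε
  obtain ⟨K, hK, H0⟩ := HW k e he0
  refine ⟨max K1 K, hK1.trans (le_max_left _ _), fun A hA => ?_⟩
  filter_upwards [H1 A hA, H0 A hA, Real.tendsto_log_atTop.eventually_ge_atTop (max 1 (2 * k : ℝ)),
    eventually_gt_atTop 0] with x hx1 hx hlog hx0
  intro u H hKH hHA
  have hl1 : 1 ≤ Real.log x := (le_max_left _ _).trans hlog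
  have hl2 : (2 * k : ℝ) ≤ Real.log x := (le_max_right _ _).trans hlog
  have hl0 : 0 < Real.log x := by linarith
  have hKH1 : K1 * Real.log x ≤ H := (mul_le_mul_of_nonneg_right (le_max_left _ _) hl0.le).trans hKH
  have hKH2 : K * Real.log x ≤ H := (mul_le_mul_of_nonneg_right (le_max_right _ _) hl0.le).trans hKH
  refine ⟨hx1 u H hKH1 hHA, ?_⟩
  have hlH : Real.log x ≤ H := (le_mul_of_one_le_left hl0.le hK).trans hKH2
  have hkH : 2 * k ≤ H := by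
    have : ((2 * k : ℕ) : ℝ) ≤ H := by push_cast; linarith
    exact_mod_cast this
  have hchoose := pow_le_choose k H hkH
  obtain ⟨P, hP⟩ : ∃ P, P = x / Real.log x ^ (k + 1) := ⟨_, rfl⟩
  have hP0 : 0 < P := by rw [hP]; positivity
  have hmain := hx u H hKH2 hHA (fun D => if Uni.CT (insert 0 D) ≠ 0 ∧
        (cnt3 x D : ℝ) < (1 - ε) * c0 ^ k * Uni.CT (insert 0 D) * P then 1 else 0)
    (fun D => by split_ifs <;> norm_num) (fun D => by split_ifs <;> norm_num)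
  simp only [ite_mul, one_mul, zero_mul] at hmain
  rw [← sum_filter, ← sum_filter] at hmain
  rw [← hP] at hmain ⊢
  obtain ⟨B, hB⟩ : ∃ B, B = ((Ioc u (u + H)).powersetCard k).filter (fun D => Uni.CT (insert 0 D) ≠ 0 ∧
        (cnt3 x D : ℝ) < (1 - ε) * c0 ^ k * Uni.CT (insert 0 D) * P) := ⟨_, rfl⟩
  rw [← hB] at hmain ⊢
  have h1 : ∑ D ∈ B, (cnt3 x D : ℝ) ≤ (1 - ε) * c0 ^ k * (∑ D ∈ B, Uni.CT (insert 0 D)) * P := by
    rw [mul_sum, sum_mul]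
    apply sum_le_sum
    intro D hD
    rw [hB, mem_filter] at hD
    exact hD.2.2.le
  have h2 : c0 ^ k * (∑ D ∈ B, Uni.CT (insert 0 D)) - e * (H : ℝ) ^ k ≤
      (1 - ε) * c0 ^ k * (∑ D ∈ B, Uni.CT (insert 0 D)) := le_of_mul_le_mul_right (hmain.trans h1) hP0
  have h3 : (B.card : ℝ) * c ≤ ∑ D ∈ B, Uni.CT (insert 0 D) := by
    rw [← nsmul_eq_mul, ← sum_const]
    apply sum_le_sum
    intro D hD
    rw [hB, mem_filter] at hD
    exact hlow _ (card_ins0 hD.1) hD.2.1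
  have h4 : ε * (c0 ^ k * ((B.card : ℝ) * c)) ≤ e * (H : ℝ) ^ k := by
    have h5 := mul_le_mul_of_nonneg_left (mul_le_mul_of_nonneg_left h3 (show 0 ≤ c0 ^ k by positivity)) hε.le
    linarith
  have h5 : e * (H : ℝ) ^ k ≤ ε ^ 2 * c0 ^ k * c * (H.choose k : ℝ) := by
    refine (mul_le_mul_of_nonneg_left hchoose he0.le).trans (le_of_eq ?_)
    rw [he]
    field_simp
  have h6 : ε * c0 ^ k * c * (B.card : ℝ) ≤ ε * c0 ^ k * c * (ε * (H.choose k : ℝ)) := by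
    calc ε * c0 ^ k * c * (B.card : ℝ) = ε * (c0 ^ k * ((B.card : ℝ) * c)) := by ring
      _ ≤ _ := h4.trans h5
      _ = _ := by ring
  exact le_of_mul_le_mul_left h6 (by positivity)

end Pool.Agent.L0h43.TD
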