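import Pool.Agent.L0h43.TD.MTM
import Pool.Agent.L0h43.TB.Ind3

/-!
# The induction: lower bounds
-/

set_option autoImplicit false

namespace Pool.Agent.L0h43.TD

open Finset Filter Topology Pool.Agent.H387R2
open Pool.Agent.L0h43.TA Pool.Agent.L0h43.TB
open Pool.Agent.H386R2.HL

open Classical in
/-- the primes `n` with `√N < n ≤ N` in the class `ν` modulo `W` such that the `n + d` are almost primes -/
noncomputable def AS (N W ν : ℕ) (D : Finset ℕ) : Finset ℕ :=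
  (Ioc (Nat.sqrt N) N).filter (fun n => n % W = ν ∧ n.Prime ∧ ∀ d ∈ D, AP N (n + d))

lemma AS_sub {N : ℕ} (hN : 1 ≤ N) (W ν : ℕ) (D : Finset ℕ) : AS N W ν D ⊆ QS N W ν (insert 0 D) := by
  classical
  have hNR : (1 : ℝ) ≤ N := by exact_mod_cast hN
  have hN0 : (0 : ℝ) < N := by linarith
  intro n hn
  unfold AS at hn
  rw [mem_filter, mem_Ioc] at hn
  unfold QS
  rw [mem_filter, mem_Ioc]
  refine ⟨hn.1, hn.2.1, ?_⟩
  intro t ht p hp hpd
  rcases mem_insert.1 ht with rfl | ht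
  · rw [add_zero, Nat.prime_dvd_prime_iff_eq hp hn.2.2.1] at hpd
    rw [hpd]
    have h1 : N < n * n := Nat.sqrt_lt.1 hn.1.1
    have h2 : (N : ℝ) ≤ (n : ℝ) ^ 2 := by
      rw [sq]; exact_mod_cast h1.le
    calc (N : ℝ) ^ (1 / 16 : ℝ) ≤ (N : ℝ) ^ (1 / 2 : ℝ) := Real.rpow_le_rpow_of_exponent_le hNR (by norm_num)
      _ ≤ ((n : ℝ) ^ 2) ^ (1 / 2 : ℝ) := Real.rpow_le_rpow hN0.le h2 (by norm_num)
      _ = n := by
          rw [← Real.sqrt_eq_rpow, Real.sqrt_sq (Nat.cast_nonneg _)]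
  · refine le_trans ?_ ((hn.2.2.2 t ht).2 p hp hpd)
    exact Real.rpow_le_rpow_of_exponent_le hNR (by norm_num)

open Classical in
lemma AS_ins (N W ν h : ℕ) (D : Finset ℕ) :
    (AS N W ν D).filter (fun n => AP N (n + h)) = AS N W ν (insert h D) := by
  unfold AS
  ext n
  simp only [mem_filter, mem_insert, forall_eq_or_imp]
  tauto

lemma AS_split (N : ℕ) {W' W ν' : ℕ} (D : Finset ℕ) (hd : W' ∣ W) (hW : 0 < W) :
    (AS N W' ν' D).card = ∑ ν ∈ (range W).filter (fun ν => ν % W' = ν'), (AS N W ν D).card := by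
  classical
  unfold AS
  rw [card_eq_sum_card_fiberwise (f := fun n => n % W) (t := (range W).filter (fun ν => ν % W' = ν'))]
  · apply sum_congr rfl
    intro ν hν
    rw [filter_filter]
    congr 1
    apply filter_congr
    intro n _
    have h1 := (mem_filter.1 hν).2
    constructor
    · rintro ⟨⟨_, h3⟩, h4⟩
      exact ⟨h4, h3⟩
    · rintro ⟨h4, h3⟩
      refine ⟨⟨?_, h3⟩, h4⟩
      rw [← Nat.mod_mod_of_dvd n hd, h4, h1]
  · intro n hn
    rw [mem_coe, mem_filter] at hn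
    rw [mem_coe, mem_filter, mem_range]
    refine ⟨Nat.mod_lt _ hW, ?_⟩
    show n % W % W' = ν'
    rw [Nat.mod_mod_of_dvd n hd]
    exact hn.2.1

/-- the sums over `k`-element sets: lower bounds -/
def LClaim (c0 : ℝ) (k : ℕ) : Prop := ∀ ε : ℝ, 0 < ε → ∀ w' : ℕ, ∃ K : ℝ, 1 ≤ K ∧ ∀ A : ℝ, 0 ≤ A → ∃ N₀ : ℕ,
  ∀ N : ℕ, N₀ ≤ N → ∀ ν' : ℕ, ν' < Uni.WW w' → ∀ u H : ℕ, K * Real.log N ≤ H →
  ((u + H : ℕ) : ℝ) ≤ Real.log N ^ A → ∀ g : Finset ℕ → ℝ, (∀ D, 0 ≤ g D) → (∀ D, g D ≤ 1) →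
  c0 ^ k * ∑ D ∈ ((Ioc u (u + H)).powersetCard k).filter (fun D => OK (Uni.WW w') ν' (insert 0 D)),
      g D * Ew N (Uni.WW w') (insert 0 D) - ε * ((H : ℝ) ^ k * (N / Real.log N ^ (k + 1))) ≤
    ∑ D ∈ ((Ioc u (u + H)).powersetCard k).filter (fun D => OK (Uni.WW w') ν' (insert 0 D)),
      g D * ((AS N (Uni.WW w') ν' D).card : ℝ)

theorem lclaim_zero (c0 : ℝ) : LClaim c0 0 := by
  intro ε hε w'
  refine ⟨1, le_rfl, fun A _ => ?_⟩
  obtain ⟨C, hC, hbv⟩ := Pool.Agent.H442R2.KF.bv (1 / 4) (by norm_num) 2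
  have hWpos := Uni.WW_pos w'
  have tN : Tendsto (fun N : ℕ => (N : ℝ)) atTop atTop := tendsto_natCast_atTop_atTop
  have tL : Tendsto (fun N : ℕ => Real.log (N : ℝ)) atTop atTop := Real.tendsto_log_atTop.comp tN
  have tq : Tendsto (fun N : ℕ => (N : ℝ) ^ (1 / 4 : ℝ)) atTop atTop := (tendsto_rpow_atTop (by norm_num)).comp tN
  have hsm : ∀ᶠ N : ℕ in atTop, Real.log N ^ (1 : ℕ) ≤ ε / 4 * (N : ℝ) ^ (1 / 2 : ℝ) := by
    have h := (isLittleO_log_rpow_rpow_atTop ((1 : ℕ) : ℝ) (s := 1 / 2) (by positivity)).def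
      (show 0 < ε / 4 by positivity)
    filter_upwards [tN.eventually h, tL.eventually_ge_atTop 0] with N h1 h2
    rw [Real.norm_of_nonneg (by positivity), Real.norm_of_nonneg (by positivity)] at h1
    rwa [Real.rpow_natCast] at h1
  obtain ⟨N₀, hN₀⟩ := eventually_atTop.1 ((pi_lo (ε / 4) (by positivity)).and ((tL.eventually_ge_atTop
    (max 1 (4 * C / ε))).and ((tq.eventually_ge_atTop (Uni.WW w' : ℝ)).and ((eventually_ge_atTop 3).and hsm))))
  refine ⟨N₀, fun N hN ν' hν' u H hKH hHA g hg0 hg1 => ?_⟩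
  obtain ⟨h1, h2, h3, h4, h5⟩ := hN₀ N hN
  have hL1 : 1 ≤ Real.log N := (le_max_left _ _).trans h2
  have hLC : 4 * C / ε ≤ Real.log N := (le_max_right _ _).trans h2
  set L := Real.log (N : ℝ) with hL
  have hL0 : 0 < L := by linarith
  have hN0 : (0 : ℝ) < N := by
    have : (3 : ℝ) ≤ N := by exact_mod_cast h4
    linarith
  have hEε : 0 ≤ ε * ((H : ℝ) ^ 0 * (N / L ^ (0 + 1))) := by positivity
  by_cases hOK : OK (Uni.WW w') ν' (insert 0 ∅)
  · have e : ((Ioc u (u + H)).powersetCard 0).filter (fun D => OK (Uni.WW w') ν' (insert 0 D)) = {∅} := by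
      rw [powersetCard_zero]
      ext D
      rw [mem_filter, mem_singleton]
      constructor
      · rintro ⟨h, -⟩; exact h
      · rintro rfl; exact ⟨rfl, hOK⟩
    rw [e, sum_singleton, sum_singleton, pow_zero, one_mul, pow_zero, one_mul]
    have hcop : Nat.Coprime (Uni.WW w') ν' := by
      have := hOK 0 (mem_insert_self _ _)
      rwa [add_zero] at this
    obtain ⟨W, hW⟩ : ∃ W, W = Uni.WW w' := ⟨_, rfl⟩
    rw [← hW] at hcop hν' h3 hWpos ⊢
    have e0 : (insert 0 ∅ : Finset ℕ) = {0} := rfl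
    rw [e0]
    have hφ0 : (0 : ℝ) < Nat.totient W := by exact_mod_cast Nat.totient_pos.2 hWpos
    have hφ1 : (1 : ℝ) ≤ Nat.totient W := by exact_mod_cast Nat.totient_pos.2 hWpos
    have hEw : Ew N W {0} = N / L / Nat.totient W := by
      unfold Ew
      rw [CT_zero, gT_zero, card_singleton, pow_one]
      ring
    have hpc : N / L / Nat.totient W - ε * (N / L) ≤ ((AS N W ν' ∅).card : ℝ) := by
      have h5' : Pool.Agent.H442R2.KF.piAP N W ν' ≤ (AS N W ν' ∅).card + Nat.sqrt N := by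
        classical
        have h6 : (Icc 1 N).filter (fun p => p.Prime ∧ p ≡ ν' [MOD W]) ⊆ AS N W ν' ∅ ∪ Icc 1 (Nat.sqrt N) := by
          intro n hn
          rw [mem_filter, mem_Icc] at hn
          rw [mem_union, mem_Icc]
          by_cases h7 : n ≤ Nat.sqrt N
          · right; exact ⟨hn.1.1, h7⟩
          · left
            unfold AS
            rw [mem_filter, mem_Ioc]
            refine ⟨⟨by omega, hn.1.2⟩, ?_, hn.2.1, fun d hd => absurd hd (notMem_empty d)⟩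
            have h8 : n % W = ν' % W := hn.2.2
            rw [h8, Nat.mod_eq_of_lt hν']
        have h7 := (card_le_card h6).trans (card_union_le _ _)
        rw [Nat.card_Icc, Nat.add_sub_cancel] at h7
        exact h7
      have h6 : |Pool.Agent.H442R2.KF.Er N W ν'| ≤ C * (N / L ^ 2) := by
        have h7 := hbv N h4 (fun d => if d = W then ν' else 1) (by
          intro d _
          by_cases hd : d = W
          · rw [if_pos hd, hd]; exact hcop.symm
          · rw [if_neg hd]; exact Nat.coprime_one_left _)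
        have h8 : W ∈ Icc 1 ⌊(N : ℝ) ^ (1 / 4 : ℝ)⌋₊ := by
          rw [mem_Icc]
          exact ⟨hWpos, Nat.le_floor h3⟩
        have h9 := single_le_sum (f := fun d => |Pool.Agent.H442R2.KF.Er N d (if d = W then ν' else 1)|)
          (fun d _ => abs_nonneg _) h8
        simp only [if_true] at h9
        exact h9.trans h7
      have h7 : (1 - ε / 4) * (N / L) ≤ (Pool.Agent.H442R2.KF.piN N : ℝ) := by
        have : Pool.Agent.H442R2.KF.piN N = (pr N).card := rfl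
        rw [this]; exact h1
      have h8 := (abs_le.1 h6).1
      unfold Pool.Agent.H442R2.KF.Er at h8
      have h9 : (Pool.Agent.H442R2.KF.piAP N W ν' : ℝ) ≤ ((AS N W ν' ∅).card : ℝ) + (Nat.sqrt N : ℝ) := by
        exact_mod_cast h5'
      have h10 : N / L / Nat.totient W - ε / 4 * (N / L) ≤ (Pool.Agent.H442R2.KF.piN N : ℝ) / Nat.totient W := by
        have h11 := div_le_div_of_nonneg_right h7 hφ0.le
        have h12 : (1 - ε / 4) * (N / L) / (Nat.totient W : ℝ) = N / L / Nat.totient W -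
            ε / 4 * (N / L) / Nat.totient W := by ring
        rw [h12] at h11
        have h13 : ε / 4 * (N / L) / (Nat.totient W : ℝ) ≤ ε / 4 * (N / L) := div_le_self (by positivity) hφ1
        linarith
      have h14 : C * (N / L ^ 2) ≤ ε / 4 * (N / L) := by
        rw [div_le_iff₀ hε] at hLC
        have e1 : C * (N / L ^ 2) = C / L * (N / L) := by field_simp
        rw [e1]
        apply mul_le_mul_of_nonneg_right _ (by positivity)
        rw [div_le_iff₀ hL0]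
        linarith
      have h15 : (Nat.sqrt N : ℝ) ≤ ε / 4 * (N / L) := by
        have h16 : (Nat.sqrt N : ℝ) ≤ (N : ℝ) ^ (1 / 2 : ℝ) := by
          rw [← Real.sqrt_eq_rpow]
          exact Real.nat_sqrt_le_real_sqrt
        refine h16.trans ?_
        rw [mul_div_assoc', le_div_iff₀ hL0]
        rw [pow_one] at h5
        calc (N : ℝ) ^ (1 / 2 : ℝ) * L ≤ (N : ℝ) ^ (1 / 2 : ℝ) * (ε / 4 * (N : ℝ) ^ (1 / 2 : ℝ)) :=
              mul_le_mul_of_nonneg_left h5 (by positivity)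
          _ = ε / 4 * ((N : ℝ) ^ (1 / 2 : ℝ) * (N : ℝ) ^ (1 / 2 : ℝ)) := by ring
          _ = ε / 4 * N := by rw [← Real.rpow_add hN0]; norm_num
      linarith
    have hEw0 : 0 ≤ Ew N W {0} := by rw [hEw]; positivity
    have h16 := mul_le_mul_of_nonneg_left hpc (hg0 ∅)
    have h17 : g ∅ * (ε * (N / L)) ≤ ε * (N / L) := mul_le_of_le_one_left (by positivity) (hg1 ∅)
    have e5 : g ∅ * (N / L / Nat.totient W - ε * (N / L)) = g ∅ * (N / L / Nat.totient W) - g ∅ * (ε * (N / L)) := by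
      ring
    rw [e5] at h16
    rw [hEw, zero_add, pow_one]
    linarith
  · have e : ((Ioc u (u + H)).powersetCard 0).filter (fun D => OK (Uni.WW w') ν' (insert 0 D)) = ∅ := by
      rw [powersetCard_zero]
      apply filter_eq_empty_iff.2
      intro D hD
      rw [mem_singleton] at hD
      rw [hD]
      exact hOK
    rw [e, sum_empty, sum_empty, mul_zero, zero_sub]
    linarith

/-- one class -/
lemma step_low {k N w ν u H : ℕ} {η e c0 : ℝ} (hη0 : 0 < η) (he : 0 ≤ e) (hc0 : 0 < c0) (hc1 : c0 ≤ 1)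
    (hN1 : 3 ≤ N) (hH : 0 < H) (hWH : Uni.WW w ≤ H) (g : Finset ℕ → ℝ)
    (hg0 : ∀ D, 0 ≤ g D) (hg1 : ∀ D, g D ≤ 1)
    (hMT : ∀ D ∈ ((Ioc u (u + H)).powersetCard k).filter (fun D => OK (Uni.WW w) ν (insert 0 D)),
      c0 * ((Uni.WW w : ℝ) / Nat.totient (Uni.WW w)) * (∑ h ∈ Jv (Uni.WW w) ν u H \ insert 0 D, g (insert h D)) /
        Real.log N * ((AS N (Uni.WW w) ν D).card : ℝ) - η * (H / Real.log N) * Ew N (Uni.WW w) (insert 0 D) ≤
      ∑ h ∈ Jv (Uni.WW w) ν u H \ insert 0 D, g (insert h D) * ((AS N (Uni.WW w) ν (insert h D)).card : ℝ))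
    (hst : ∀ D ∈ ((Ioc u (u + H)).powersetCard k).filter (fun D => OK (Uni.WW w) ν (insert 0 D)),
      ∑ h ∈ Jv (Uni.WW w) ν u H \ insert 0 D, g (insert h D) * Ew N (Uni.WW w) (insert h (insert 0 D)) ≤
        Ew N (Uni.WW w) (insert 0 D) / Real.log N * ((Uni.WW w : ℝ) / Nat.totient (Uni.WW w) *
          (∑ h ∈ Jv (Uni.WW w) ν u H \ insert 0 D, g (insert h D)) + η * H))
    (hC : ∀ g' : Finset ℕ → ℝ, (∀ D, 0 ≤ g' D) → (∀ D, g' D ≤ 1) →
      c0 ^ k * ∑ D ∈ ((Ioc u (u + H)).powersetCard k).filter (fun D => OK (Uni.WW w) ν (insert 0 D)),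
        g' D * Ew N (Uni.WW w) (insert 0 D) - e * ((H : ℝ) ^ k * (N / Real.log N ^ (k + 1))) ≤
      ∑ D ∈ ((Ioc u (u + H)).powersetCard k).filter (fun D => OK (Uni.WW w) ν (insert 0 D)),
        g' D * ((AS N (Uni.WW w) ν D).card : ℝ)) :
    c0 ^ (k + 1) *
        ∑ D ∈ ((Ioc u (u + H)).powersetCard (k + 1)).filter (fun D => OK (Uni.WW w) ν (insert 0 D)),
          g D * Ew N (Uni.WW w) (insert 0 D) -
      2 * e * ((H : ℝ) ^ (k + 1) * (N / Real.log N ^ (k + 2))) -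
      2 * η * (H / Real.log N) *
        ∑ D ∈ ((Ioc u (u + H)).powersetCard k).filter (fun D => OK (Uni.WW w) ν (insert 0 D)),
          Ew N (Uni.WW w) (insert 0 D) ≤
    ∑ D ∈ (Ioc u (u + H)).powersetCard (k + 1), g D * ((AS N (Uni.WW w) ν D).card : ℝ) := by
  classical
  obtain ⟨W, hW⟩ : ∃ W, W = Uni.WW w := ⟨_, rfl⟩
  have hWpos : 0 < W := by rw [hW]; exact Uni.WW_pos w
  have hφ0 : (0 : ℝ) < Nat.totient W := by exact_mod_cast Nat.totient_pos.2 hWpos
  have hW0 : (0 : ℝ) < W := by exact_mod_cast hWpos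
  have hN1' : 1 ≤ N := by omega
  have hN3 : (3 : ℝ) ≤ N := by exact_mod_cast hN1
  rw [← hW] at hMT hst hC hWH ⊢
  set L := Real.log (N : ℝ) with hL
  have hL0 : 0 < L := Real.log_pos (by linarith)
  have hH0 : (0 : ℝ) < H := by exact_mod_cast hH
  have hWH' : (W : ℝ) ≤ H := by exact_mod_cast hWH
  obtain ⟨S, hS⟩ : ∃ S, S = ((Ioc u (u + H)).powersetCard k).filter (fun D => OK W ν (insert 0 D)) :=
    ⟨_, rfl⟩
  rw [← hS] at hMT hst hC ⊢
  obtain ⟨G, hG⟩ : ∃ G : Finset ℕ → ℝ, ∀ D, G D = ∑ h ∈ Jv W ν u H \ insert 0 D, g (insert h D) :=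
    ⟨fun D => ∑ h ∈ Jv W ν u H \ insert 0 D, g (insert h D), fun D => rfl⟩
  have hG0 : ∀ D, 0 ≤ G D := fun D => by rw [hG]; exact sum_nonneg fun h _ => hg0 _
  have hGle : ∀ D, (W : ℝ) / Nat.totient W * G D ≤ 2 * H := by
    intro D
    have h1 := Jv_card_le (ν := ν) (u := u) (H := H) hWpos (insert 0 D)
    have h2 : G D ≤ ((Jv W ν u H \ insert 0 D).card : ℝ) := by
      rw [hG]
      calc ∑ h ∈ Jv W ν u H \ insert 0 D, g (insert h D) ≤ ∑ _h ∈ Jv W ν u H \ insert 0 D, (1 : ℝ) :=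
            sum_le_sum fun h _ => hg1 _
        _ = _ := by rw [sum_const, nsmul_eq_mul, mul_one]
    have h3 := mul_le_mul_of_nonneg_left h2 (show 0 ≤ (W : ℝ) / Nat.totient W by positivity)
    linarith
  -- step 1
  have s1 : ∑ D ∈ S, ∑ h ∈ Jv W ν u H \ insert 0 D, g (insert h D) * ((AS N W ν (insert h D)).card : ℝ) ≤
      ((k + 1 : ℕ) : ℝ) * ∑ D ∈ (Ioc u (u + H)).powersetCard (k + 1), g D * ((AS N W ν D).card : ℝ) := by
    rw [sum_ins _ k (fun D => g D * ((AS N W ν D).card : ℝ))]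
    have h1 : ∑ D ∈ S, ∑ h ∈ Jv W ν u H \ insert 0 D, g (insert h D) * ((AS N W ν (insert h D)).card : ℝ) ≤
        ∑ D ∈ S, ∑ h ∈ Ioc u (u + H) \ D, g (insert h D) * ((AS N W ν (insert h D)).card : ℝ) := by
      apply sum_le_sum
      intro D _
      rw [← Ioc_sdiff0 D]
      apply sum_le_sum_of_subset_of_nonneg
      · apply sdiff_subset_sdiff _ subset_rfl
        unfold Jv
        exact filter_subset _ _
      · intro h _ _
        exact mul_nonneg (hg0 _) (Nat.cast_nonneg _)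
    refine h1.trans ?_
    apply sum_le_sum_of_subset_of_nonneg
    · rw [hS]; exact filter_subset _ _
    · intro D _ _
      exact sum_nonneg fun h _ => mul_nonneg (hg0 _) (Nat.cast_nonneg _)
  obtain ⟨Z, hZ⟩ : ∃ Z, Z = (H : ℝ) ^ k * (N / L ^ (k + 1)) := ⟨_, rfl⟩
  have hZ0 : 0 ≤ Z := by rw [hZ]; positivity
  have hZ2 : (H : ℝ) ^ (k + 1) * (N / L ^ (k + 2)) = H / L * Z := by
    rw [hZ, pow_succ, pow_succ L (k + 1)]
    field_simp
  obtain ⟨V, hV⟩ : ∃ V, V = ∑ D ∈ S, Ew N W (insert 0 D) := ⟨_, rfl⟩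
  have hV0 : 0 ≤ V := by rw [hV]; exact sum_nonneg fun D _ => Ew_nonneg hN1'
  -- step 2
  have s2 : c0 * (2 * H / L) * ∑ D ∈ S, ((W : ℝ) / Nat.totient W * G D / (2 * H)) * ((AS N W ν D).card : ℝ) -
      η * (H / L) * V ≤
      ∑ D ∈ S, ∑ h ∈ Jv W ν u H \ insert 0 D, g (insert h D) * ((AS N W ν (insert h D)).card : ℝ) := by
    refine le_trans (le_of_eq ?_) (sum_le_sum hMT)
    rw [hV, mul_sum, mul_sum, ← sum_sub_distrib]
    apply sum_congr rfl
    intro D _
    rw [← hG]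
    field_simp
  have s3 := hC (fun D => (W : ℝ) / Nat.totient W * G D / (2 * H)) (fun D => by
    have := hG0 D
    positivity) (fun D => by
    rw [div_le_one (by positivity)]
    exact hGle D)
  rw [← hZ] at s3
  -- step 3
  have s5 : ∑ D ∈ S, ∑ h ∈ Jv W ν u H \ insert 0 D, g (insert h D) * Ew N W (insert h (insert 0 D)) ≤
      (2 * H / L) * (∑ D ∈ S, (W : ℝ) / Nat.totient W * G D / (2 * H) * Ew N W (insert 0 D)) + η * (H / L) * V := by
    refine (sum_le_sum hst).trans (le_of_eq ?_)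
    rw [hV, mul_sum, mul_sum, ← sum_add_distrib]
    apply sum_congr rfl
    intro D _
    rw [← hG]
    field_simp
  -- step 4
  have s6 : ∑ D ∈ S, ∑ h ∈ Jv W ν u H \ insert 0 D, g (insert h D) * Ew N W (insert h (insert 0 D)) =
      ((k + 1 : ℕ) : ℝ) * ∑ D ∈ ((Ioc u (u + H)).powersetCard (k + 1)).filter (fun D => OK W ν (insert 0 D)),
          g D * Ew N W (insert 0 D) := by
    rw [sum_filter, sum_ins _ k (fun D => if OK W ν (insert 0 D) then g D * Ew N W (insert 0 D) else 0)]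
    have e1 : ∀ D ∈ (Ioc u (u + H)).powersetCard k,
        ∑ h ∈ Ioc u (u + H) \ D, (if OK W ν (insert 0 (insert h D)) then
          g (insert h D) * Ew N W (insert 0 (insert h D)) else 0) =
        if OK W ν (insert 0 D) then ∑ h ∈ Jv W ν u H \ insert 0 D,
          g (insert h D) * Ew N W (insert h (insert 0 D)) else 0 := by
      intro D _
      split_ifs with hOK
      · rw [← sum_filter, ← Ioc_sdiff0 D]
        apply sum_congr
        · ext h
          simp only [mem_filter, Finset.mem_sdiff]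
          unfold Jv
          rw [mem_filter]
          constructor
          · rintro ⟨⟨h1, h2⟩, h3⟩
            exact ⟨⟨h1, h3 h (mem_insert_of_mem (mem_insert_self _ _))⟩, h2⟩
          · rintro ⟨⟨h1, h3⟩, h2⟩
            refine ⟨⟨h1, h2⟩, ?_⟩
            intro t ht
            rw [Finset.insert_comm] at ht
            rcases mem_insert.1 ht with rfl | ht
            · exact h3
            · exact hOK t ht
        · intro h _
          rw [Finset.insert_comm]
      · apply sum_eq_zero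
        intro h _
        rw [if_neg]
        intro h2
        apply hOK
        intro t ht
        apply h2 t
        rw [Finset.insert_comm]
        exact mem_insert_of_mem ht
    rw [sum_congr rfl e1, ← sum_filter, hS]
  rw [s6] at s5
  obtain ⟨Y, hY⟩ : ∃ Y, Y = ∑ D ∈ ((Ioc u (u + H)).powersetCard (k + 1)).filter
      (fun D => OK W ν (insert 0 D)), g D * Ew N W (insert 0 D) := ⟨_, rfl⟩
  rw [← hY] at s5 ⊢
  obtain ⟨X, hX⟩ : ∃ X, X = ∑ D ∈ (Ioc u (u + H)).powersetCard (k + 1),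
      g D * ((AS N W ν D).card : ℝ) := ⟨_, rfl⟩
  rw [← hX] at s1 ⊢
  rw [← hV, hZ2]
  obtain ⟨Q1, hQ1⟩ : ∃ Q1, Q1 = ∑ D ∈ S, ((W : ℝ) / Nat.totient W * G D / (2 * H)) * ((AS N W ν D).card : ℝ) :=
    ⟨_, rfl⟩
  obtain ⟨Q2, hQ2⟩ : ∃ Q2, Q2 = ∑ D ∈ S, (W : ℝ) / Nat.totient W * G D / (2 * H) * Ew N W (insert 0 D) := ⟨_, rfl⟩
  rw [← hQ1, ← hQ2] at s3
  rw [← hQ1] at s2
  rw [← hQ2] at s5
  obtain ⟨κ, hκ⟩ : ∃ κ : ℝ, κ = ((k + 1 : ℕ) : ℝ) := ⟨_, rfl⟩
  have hκ1 : 1 ≤ κ := by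
    rw [hκ]
    push_cast
    have : (0 : ℝ) ≤ k := Nat.cast_nonneg _
    linarith
  rw [← hκ] at s1 s5
  have hck : 0 < c0 ^ (k + 1) := by positivity
  have hck1 : c0 ^ (k + 1) ≤ 1 := pow_le_one₀ hc0.le hc1
  have t1 : c0 * (2 * H / L) * (c0 ^ k * Q2 - e * Z) ≤ c0 * (2 * H / L) * Q1 :=
    mul_le_mul_of_nonneg_left s3 (by positivity)
  have t2 := mul_le_mul_of_nonneg_left s5 hck.le
  have t3 : c0 ^ (k + 1) * (η * (H / L) * V) ≤ η * (H / L) * V := mul_le_of_le_one_left (by positivity) hck1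
  have t4 : c0 * (2 * (H / L * (e * Z))) ≤ 2 * (H / L * (e * Z)) := mul_le_of_le_one_left (by positivity) hc1
  have e1 : c0 * (2 * H / L) * (c0 ^ k * Q2 - e * Z) =
      c0 ^ (k + 1) * (2 * H / L * Q2) - c0 * (2 * (H / L * (e * Z))) := by
    rw [pow_succ]; ring
  have e2 : c0 ^ (k + 1) * (2 * H / L * Q2 + η * (H / L) * V) =
      c0 ^ (k + 1) * (2 * H / L * Q2) + c0 ^ (k + 1) * (η * (H / L) * V) := by ring
  rw [e1] at t1
  rw [e2] at t2
  have s9 : κ * (c0 ^ (k + 1) * Y) - (2 * e * (H / L * Z) + 2 * η * (H / L) * V) ≤ κ * X := by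
    have e3 : κ * (c0 ^ (k + 1) * Y) = c0 ^ (k + 1) * (κ * Y) := by ring
    have e4 : 2 * e * (H / L * Z) = 2 * (H / L * (e * Z)) := by ring
    rw [e3, e4]
    linarith
  have hR0 : 0 ≤ 2 * e * (H / L * Z) + 2 * η * (H / L) * V := by positivity
  have s10 : κ * (c0 ^ (k + 1) * Y - (2 * e * (H / L * Z) + 2 * η * (H / L) * V)) ≤ κ * X := by
    refine le_trans ?_ s9
    have := mul_le_mul_of_nonneg_right hκ1 hR0
    linarith
  have s11 := le_of_mul_le_mul_left s10 (by linarith)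
  linarith

end Pool.Agent.L0h43.TD
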