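import Pool.Agent.L0h43.TD.LInd

/-!
# The induction: lower bounds, the step
-/

set_option autoImplicit false

namespace Pool.Agent.L0h43.TD

open Finset Filter Topology Pool.Agent.H387R2
open Pool.Agent.L0h43.TA Pool.Agent.L0h43.TB
open Pool.Agent.H386R2.HL

lemma CT_of_gT_zero {w : ℕ} {T : Finset ℕ} (h0 : Uni.gT (Uni.WW w) T = 0) : Uni.CT T = 0 := by
  have h := Uni.sy_en T w
  rw [h0, Nat.cast_zero, zero_div, mul_zero] at h
  unfold sy at h
  rw [prod_eq_zero_iff] at h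
  obtain ⟨p, hp, hp0⟩ := h
  rw [Uni.loc_en] at hp0
  exact CT_zero_of (p := ⟨p, Nat.prime_of_mem_primesBelow hp⟩) hp0

/-- the expected numbers add up -/
lemma Ew_sum_ge {N w' w a : ℕ} {T : Finset ℕ} (hN : 1 ≤ N) (hw : w' ≤ w) (ha : a < Uni.WW w')
    (hOK : OK (Uni.WW w') a T) :
    Ew N (Uni.WW w') T ≤
      ∑ _ν ∈ (range (Uni.WW w)).filter (fun ν => ν % Uni.WW w' = a ∧ OK (Uni.WW w) ν T), Ew N (Uni.WW w) T := by
  obtain ⟨V, hV, hcop, hV0⟩ := WW_split hw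
  have hgm := gT_mul hcop (Uni.WW_pos w') hV0 T
  rcases Nat.eq_zero_or_pos (Uni.gT V T) with h0 | h0
  · have h1 : Uni.gT (Uni.WW w) T = 0 := by rw [hV, hgm, h0, mul_zero]
    have h2 := CT_of_gT_zero h1
    have h3 : Ew N (Uni.WW w') T = 0 := by
      unfold Ew
      rw [h2, zero_div, mul_zero]
    rw [h3]
    exact sum_nonneg fun _ _ => Ew_nonneg hN
  · rw [sum_const, nsmul_eq_mul, hV, fiber_card hcop (Uni.WW_pos w') hV0 ha hOK]
    unfold Ew
    rw [hgm]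
    have h3 : (Uni.gT V T : ℝ) ≠ 0 := by exact_mod_cast h0.ne'
    apply le_of_eq
    push_cast
    field_simp

theorem lclaim_succ {c0 : ℝ} (hc0 : 0 < c0) (hc1 : c0 ≤ 1)
    (HMTL : ∀ (j : ℕ) (ε : ℝ), 0 < ε → ε ≤ 1 →
    ∃ K : ℝ, 1 ≤ K ∧ ∃ w0 : ℕ, ∀ w : ℕ, w0 ≤ w → ∀ A : ℝ, 0 ≤ A → ∃ N₀ : ℕ, ∀ N : ℕ, N₀ ≤ N →
      ∀ T : Finset ℕ, T.card = j →
      (∀ t ∈ T, (t : ℝ) ≤ Real.log N ^ A) → ∀ ν : ℕ, ν < Uni.WW w → OK (Uni.WW w) ν T →
      ∀ u H : ℕ, K * Real.log N ≤ H → ((u + H : ℕ) : ℝ) ≤ Real.log N ^ A → ∀ g : ℕ → ℝ,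
      (∀ h, 0 ≤ g h) → (∀ h, g h ≤ 1) → ∀ (D : Finset ℕ), insert 0 D = T →
        c0 * ((Uni.WW w : ℝ) / Nat.totient (Uni.WW w)) * (∑ h ∈ Jv (Uni.WW w) ν u H \ T, g h) / Real.log N *
          ((AS N (Uni.WW w) ν D).card : ℝ) - ε * (H / Real.log N) * Ew N (Uni.WW w) T ≤
        ∑ h ∈ Jv (Uni.WW w) ν u H \ T, g h * ((AS N (Uni.WW w) ν (insert h D)).card : ℝ))
    (k : ℕ) (ih : LClaim c0 k) : LClaim c0 (k + 1) := by
  intro ε hε w'
  obtain ⟨η, hη⟩ : ∃ η : ℝ, η = min (1 / 2) (ε / 8) := ⟨_, rfl⟩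
  have hη0 : 0 < η := by rw [hη]; exact lt_min (by norm_num) (by positivity)
  have hη2 : η ≤ 1 / 2 := by rw [hη]; exact min_le_left _ _
  have hηε : η ≤ ε / 8 := by rw [hη]; exact min_le_right _ _
  obtain ⟨K1, hK1, w0, HMT⟩ := HMTL (k + 1) η hη0 (by linarith)
  obtain ⟨w1, hw11, HST⟩ := star_avg (k + 1) η hη0
  obtain ⟨w, hw⟩ : ∃ w, w = max (max w0 w') w1 := ⟨_, rfl⟩
  have hww0 : w0 ≤ w := by rw [hw]; exact (le_max_left _ _).trans (le_max_left _ _)
  have hww' : w' ≤ w := by rw [hw]; exact (le_max_right _ _).trans (le_max_left _ _)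
  have hww1 : w1 ≤ w := by rw [hw]; exact le_max_right _ _
  obtain ⟨W, hW⟩ : ∃ W, W = Uni.WW w := ⟨_, rfl⟩
  have hWpos : 0 < W := by rw [hW]; exact Uni.WW_pos w
  have hW0 : (0 : ℝ) < W := by exact_mod_cast hWpos
  obtain ⟨e, he⟩ : ∃ e : ℝ, e = ε / (4 * W) := ⟨_, rfl⟩
  have he0 : 0 < e := by rw [he]; positivity
  obtain ⟨K2, hK2, HC⟩ := ih e he0 w
  refine ⟨max K1 K2, hK1.trans (le_max_left _ _), fun A hA => ?_⟩
  obtain ⟨N1, hN1⟩ := HMT w hww0 A hA
  obtain ⟨N2, hN2⟩ := HC A hA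
  obtain ⟨H3, hH3⟩ := HST w hww1 A hA
  obtain ⟨L1, hL1⟩ := avg0 k A hA
  have tL : Tendsto (fun N : ℕ => Real.log (N : ℝ)) atTop atTop :=
    Real.tendsto_log_atTop.comp tendsto_natCast_atTop_atTop
  obtain ⟨N₀, hN₀⟩ := eventually_atTop.1 ((tL.eventually_ge_atTop (max (max 1 W) (max L1 (H3 : ℝ)))).and
    (eventually_ge_atTop (max (max N1 N2) 3)))
  refine ⟨N₀, fun N hN ν' hν' u H hKH hHA g hg0 hg1 => ?_⟩
  obtain ⟨l1, l2⟩ := hN₀ N hN
  have hLge1 : 1 ≤ Real.log N := ((le_max_left _ _).trans (le_max_left _ _)).trans l1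
  have hLW : (W : ℝ) ≤ Real.log N := ((le_max_right _ _).trans (le_max_left _ _)).trans l1
  have hLL1 : L1 ≤ Real.log N := ((le_max_left _ _).trans (le_max_right _ _)).trans l1
  have hLH3 : (H3 : ℝ) ≤ Real.log N := ((le_max_right _ _).trans (le_max_right _ _)).trans l1
  have hNN1 : N1 ≤ N := ((le_max_left _ _).trans (le_max_left _ _)).trans l2
  have hNN2 : N2 ≤ N := ((le_max_right _ _).trans (le_max_left _ _)).trans l2
  have hN3 : 3 ≤ N := (le_max_right _ _).trans l2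
  have hN1' : 1 ≤ N := by omega
  set L := Real.log (N : ℝ) with hL
  have hL0 : 0 < L := by linarith
  have hKH1 : K1 * L ≤ H := (mul_le_mul_of_nonneg_right (le_max_left _ _) hL0.le).trans hKH
  have hKH2 : K2 * L ≤ H := (mul_le_mul_of_nonneg_right (le_max_right _ _) hL0.le).trans hKH
  have hLH : L ≤ H := (le_mul_of_one_le_left hL0.le hK1).trans hKH1
  have hH0 : (0 : ℝ) < H := by linarith
  have hWH : Uni.WW w ≤ H := by
    rw [← hW]
    exact_mod_cast hLW.trans hLH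
  have hH3H : H3 ≤ H := by
    exact_mod_cast hLH3.trans hLH
  have hLAHA : L ^ A ≤ (H : ℝ) ^ A := Real.rpow_le_rpow hL0.le hLH hA
  obtain ⟨V, hV, hcop, hV0⟩ := WW_split hww'
  obtain ⟨S, hS⟩ : ∃ S, S = (range (Uni.WW w)).filter (fun ν => ν % Uni.WW w' = ν') := ⟨_, rfl⟩
  have hScard : (S.card : ℝ) ≤ W := by
    have h1 : S.card ≤ (range (Uni.WW w)).card := by rw [hS]; exact card_le_card (filter_subset _ _)
    rw [card_range, ← hW] at h1
    exact_mod_cast h1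
  have hDA : ∀ j, ∀ D ∈ (Ioc u (u + H)).powersetCard j, ∀ t ∈ insert 0 D, (t : ℝ) ≤ L ^ A := by
    intro j D hD t ht
    rcases mem_insert.1 ht with rfl | ht
    · rw [Nat.cast_zero]; positivity
    · have h5 : (t : ℝ) ≤ ((u + H : ℕ) : ℝ) := by
        exact_mod_cast (mem_Ioc.1 ((mem_powersetCard.1 hD).1 ht)).2
      exact h5.trans hHA
  obtain ⟨g2, hg2⟩ : ∃ g2 : Finset ℕ → ℝ, ∀ D, g2 D = if OK (Uni.WW w') ν' (insert 0 D) then g D else 0 :=
    ⟨fun D => if OK (Uni.WW w') ν' (insert 0 D) then g D else 0, fun D => rfl⟩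
  have hg20 : ∀ D, 0 ≤ g2 D := by
    intro D; rw [hg2]; split_ifs
    · exact hg0 D
    · exact le_rfl
  have hg21 : ∀ D, g2 D ≤ 1 := by
    intro D; rw [hg2]; split_ifs
    · exact hg1 D
    · exact zero_le_one
  -- one class
  have c1 : ∀ ν ∈ S, c0 ^ (k + 1) *
        ∑ D ∈ ((Ioc u (u + H)).powersetCard (k + 1)).filter (fun D => OK (Uni.WW w) ν (insert 0 D)),
          g2 D * Ew N (Uni.WW w) (insert 0 D) -
      2 * e * ((H : ℝ) ^ (k + 1) * (N / L ^ (k + 2))) -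
      2 * η * (H / L) *
        ∑ D ∈ ((Ioc u (u + H)).powersetCard k).filter (fun D => OK (Uni.WW w) ν (insert 0 D)),
          Ew N (Uni.WW w) (insert 0 D) ≤
      ∑ D ∈ (Ioc u (u + H)).powersetCard (k + 1), g2 D * ((AS N (Uni.WW w) ν D).card : ℝ) := by
    intro ν hν
    rw [hS, mem_filter, mem_range] at hν
    apply step_low hη0 he0.le hc0 hc1 hN3 (by exact_mod_cast hH0) hWH g2 hg20 hg21
    · intro D hD
      rw [mem_filter] at hD
      exact hN1 N hNN1 (insert 0 D) (card_ins0 hD.1) (hDA k D hD.1) ν hν.1 hD.2 u H hKH1 hHA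
        (fun h => g2 (insert h D)) (fun h => hg20 _) (fun h => hg21 _) D rfl
    · intro D hD
      rw [mem_filter] at hD
      have h1 := hH3 H hH3H (insert 0 D) (card_ins0 hD.1) ν hν.1 hD.2 u
        (fun t ht => (hDA k D hD.1 t ht).trans hLAHA) (hHA.trans hLAHA) (fun h => g2 (insert h D))
        (fun h => hg20 _) (fun h => hg21 _)
      have h2 := mul_le_mul_of_nonneg_left h1 (show 0 ≤ (N : ℝ) / L ^ (k + 2) by positivity)
      refine le_trans (le_of_eq ?_) (h2.trans (le_of_eq ?_))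
      · rw [mul_sum]
        apply sum_congr rfl
        intro h hh
        rw [Finset.mem_sdiff] at hh
        unfold Ew
        rw [card_insert_of_notMem hh.2, card_ins0 hD.1, ← hL]
        ring
      · unfold Ew
        rw [card_ins0 hD.1, ← hL, pow_succ L (k + 1)]
        field_simp
    · intro g' hg'0 hg'1
      exact hN2 N hNN2 ν hν.1 u H hKH2 hHA g' hg'0 hg'1
  -- right-hand side
  have c2 : ∑ ν ∈ S, ∑ D ∈ (Ioc u (u + H)).powersetCard (k + 1), g2 D * ((AS N (Uni.WW w) ν D).card : ℝ) =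
      ∑ D ∈ ((Ioc u (u + H)).powersetCard (k + 1)).filter (fun D => OK (Uni.WW w') ν' (insert 0 D)),
      g D * ((AS N (Uni.WW w') ν' D).card : ℝ) := by
    rw [sum_comm, sum_filter]
    apply sum_congr rfl
    intro D _
    rw [← mul_sum, hg2, AS_split N D (Dvd.intro _ hV.symm) (Uni.WW_pos w), ← hS, Nat.cast_sum]
    split_ifs
    · rfl
    · rw [zero_mul]
  have c1s := sum_le_sum c1
  rw [c2, sum_sub_distrib, sum_sub_distrib, sum_const, nsmul_eq_mul, ← mul_sum, ← mul_sum] at c1s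
  -- the expected numbers
  have c3 : ∑ D ∈ ((Ioc u (u + H)).powersetCard (k + 1)).filter (fun D => OK (Uni.WW w') ν' (insert 0 D)),
        g D * Ew N (Uni.WW w') (insert 0 D) ≤
      ∑ ν ∈ S, ∑ D ∈ ((Ioc u (u + H)).powersetCard (k + 1)).filter (fun D => OK (Uni.WW w) ν (insert 0 D)),
        g2 D * Ew N (Uni.WW w) (insert 0 D) := by
    have h1 : ∀ ν ∈ S, ∑ D ∈ ((Ioc u (u + H)).powersetCard (k + 1)).filter (fun D => OK (Uni.WW w) ν (insert 0 D)),
        g2 D * Ew N (Uni.WW w) (insert 0 D) =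
        ∑ D ∈ (Ioc u (u + H)).powersetCard (k + 1), if OK (Uni.WW w) ν (insert 0 D) then
          g2 D * Ew N (Uni.WW w) (insert 0 D) else 0 := by
      intro ν _
      rw [sum_filter]
    rw [sum_congr rfl h1, sum_comm, sum_filter]
    apply sum_le_sum
    intro D hD
    rw [← sum_filter, ← mul_sum, hg2]
    split_ifs with hOK
    · apply mul_le_mul_of_nonneg_left _ (hg0 D)
      have h2 := Ew_sum_ge (N := N) hN1' hww' hν' hOK
      have e1 : S.filter (fun ν => OK (Uni.WW w) ν (insert 0 D)) =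
          (range (Uni.WW w)).filter (fun ν => ν % Uni.WW w' = ν' ∧ OK (Uni.WW w) ν (insert 0 D)) := by
        rw [hS, filter_filter]
      rw [e1]
      exact h2
    · rw [zero_mul]
  have c3' : ∑ ν ∈ S, ∑ D ∈ ((Ioc u (u + H)).powersetCard k).filter (fun D => OK (Uni.WW w) ν (insert 0 D)),
        Ew N (Uni.WW w) (insert 0 D) ≤
      ∑ D ∈ ((Ioc u (u + H)).powersetCard k).filter (fun D => OK (Uni.WW w') ν' (insert 0 D)),
        Ew N (Uni.WW w') (insert 0 D) := by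
    have h1 : ∀ ν ∈ S, ∑ D ∈ ((Ioc u (u + H)).powersetCard k).filter (fun D => OK (Uni.WW w) ν (insert 0 D)),
        Ew N (Uni.WW w) (insert 0 D) =
        ∑ D ∈ (Ioc u (u + H)).powersetCard k, if OK (Uni.WW w) ν (insert 0 D) then
          Ew N (Uni.WW w) (insert 0 D) else 0 := by
      intro ν _
      rw [sum_filter]
    rw [sum_congr rfl h1, sum_comm, sum_filter]
    apply sum_le_sum
    intro D hD
    rw [← sum_filter]
    split_ifs with hOK
    · have h2 := Ew_sum (N := N) hN1' hww' hν' hOK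
      have e1 : S.filter (fun ν => OK (Uni.WW w) ν (insert 0 D)) =
          (range (Uni.WW w)).filter (fun ν => ν % Uni.WW w' = ν' ∧ OK (Uni.WW w) ν (insert 0 D)) := by
        rw [hS, filter_filter]
      rw [e1]
      exact h2
    · have e1 : S.filter (fun ν => OK (Uni.WW w) ν (insert 0 D)) = ∅ := by
        apply filter_eq_empty_iff.2
        intro ν hν hOK2
        apply hOK
        rw [hS, mem_filter] at hν
        rw [hV] at hOK2
        have := OK_mod hOK2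
        rwa [hν.2] at this
      rw [e1, sum_empty]
  have c4 : ∑ D ∈ ((Ioc u (u + H)).powersetCard k).filter (fun D => OK (Uni.WW w') ν' (insert 0 D)),
      Ew N (Uni.WW w') (insert 0 D) ≤ N / L ^ (k + 1) * ∑ D ∈ (Ioc u (u + H)).powersetCard k, Uni.CT (insert 0 D) := by
    rw [mul_sum]
    refine (sum_le_sum (g := fun D => N / L ^ (k + 1) * Uni.CT (insert 0 D)) ?_).trans ?_
    · intro D hD
      rw [mem_filter] at hD
      have := Ew_le hN1' hν' hD.2
      rwa [card_ins0 hD.1] at this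
    · apply sum_le_sum_of_subset_of_nonneg (filter_subset _ _)
      intro D _ _
      have := Uni.CT_nonneg (insert 0 D)
      positivity
  have a1 := hL1 L hLL1 u H hLH hHA
  obtain ⟨Z, hZ⟩ : ∃ Z, Z = (H : ℝ) ^ (k + 1) * (N / L ^ (k + 2)) := ⟨_, rfl⟩
  have hZ0 : 0 ≤ Z := by rw [hZ]; positivity
  have b2 : (H : ℝ) / L * ∑ D ∈ ((Ioc u (u + H)).powersetCard k).filter (fun D => OK (Uni.WW w') ν' (insert 0 D)),
      Ew N (Uni.WW w') (insert 0 D) ≤ 2 * Z := by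
    have h1 := c4.trans (mul_le_mul_of_nonneg_left a1 (by positivity))
    refine (mul_le_mul_of_nonneg_left h1 (by positivity)).trans (le_of_eq ?_)
    rw [hZ, pow_succ (H : ℝ) k, pow_succ L (k + 1)]
    field_simp
  rw [← hZ] at c1s ⊢
  have e1 : c0 ^ (k + 1) * ∑ D ∈ ((Ioc u (u + H)).powersetCard (k + 1)).filter
      (fun D => OK (Uni.WW w') ν' (insert 0 D)), g D * Ew N (Uni.WW w') (insert 0 D) ≤
      c0 ^ (k + 1) * ∑ ν ∈ S, ∑ D ∈ ((Ioc u (u + H)).powersetCard (k + 1)).filter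
        (fun D => OK (Uni.WW w) ν (insert 0 D)), g2 D * Ew N (Uni.WW w) (insert 0 D) :=
    mul_le_mul_of_nonneg_left c3 (by positivity)
  have e2 : 2 * η * (H / L) * ∑ ν ∈ S,
      ∑ D ∈ ((Ioc u (u + H)).powersetCard k).filter (fun D => OK (Uni.WW w) ν (insert 0 D)),
          Ew N (Uni.WW w) (insert 0 D) ≤ ε / 2 * Z := by
    have h1 : (H : ℝ) / L * ∑ ν ∈ S,
      ∑ D ∈ ((Ioc u (u + H)).powersetCard k).filter (fun D => OK (Uni.WW w) ν (insert 0 D)),
          Ew N (Uni.WW w) (insert 0 D) ≤ 2 * Z := (mul_le_mul_of_nonneg_left c3' (by positivity)).trans b2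
    rw [mul_assoc (2 * η)]
    calc 2 * η * ((H : ℝ) / L * ∑ ν ∈ S,
      ∑ D ∈ ((Ioc u (u + H)).powersetCard k).filter (fun D => OK (Uni.WW w) ν (insert 0 D)),
          Ew N (Uni.WW w) (insert 0 D)) ≤ 2 * η * (2 * Z) := mul_le_mul_of_nonneg_left h1 (by positivity)
      _ = (4 * η) * Z := by ring
      _ ≤ ε / 2 * Z := mul_le_mul_of_nonneg_right (by linarith) hZ0
  have e3 : (S.card : ℝ) * (2 * e * Z) ≤ ε / 2 * Z := by
    calc (S.card : ℝ) * (2 * e * Z) ≤ W * (2 * e * Z) := mul_le_mul_of_nonneg_right hScard (by positivity)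
      _ = ε / 2 * Z := by
        rw [he]
        field_simp
        ring
  linarith

/-- **the sums over `k`-element sets of shifts: lower bounds** -/
theorem lclaim : ∃ c0 : ℝ, 0 < c0 ∧ c0 ≤ 1 ∧ ∀ k : ℕ, LClaim c0 k := by
  classical
  obtain ⟨c0, hc0, hc1, H⟩ := MTL
  refine ⟨c0, hc0, hc1, fun k => ?_⟩
  induction k with
  | zero => exact lclaim_zero c0
  | succ k ih =>
    apply lclaim_succ hc0 hc1 _ k ih
    intro j ε hε hε1
    obtain ⟨K, hK, w0, H1⟩ := H j ε hε hε1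
    refine ⟨K, hK, w0, fun w hw A hA => ?_⟩
    obtain ⟨N₀, hN₀⟩ := H1 w hw A hA
    refine ⟨max N₀ 1, fun N hN T hT hTA ν hν hOK u H' hKH hHA g hg0 hg1 D hD => ?_⟩
    have h1 := hN₀ N ((le_max_left _ _).trans hN) T hT hTA ν hν hOK u H' hKH hHA g hg0 hg1
      (AS N (Uni.WW w) ν D) (by
        rw [← hD]
        exact AS_sub ((le_max_right _ _).trans hN) _ _ _)
    refine h1.trans (le_of_eq ?_)
    apply sum_congr rfl
    intro h _
    rw [← AS_ins]

end Pool.Agent.L0h43.TD
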