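import Pool.Agent.L0h43.TB.Cls
import Pool.Agent.L0h43.TB.One

/-!
# One more shift in the expected numbers: upper bounds
-/

set_option autoImplicit false

namespace Pool.Agent.L0h43.TD

open Finset Filter Topology Pool.Agent.H387R2
open Pool.Agent.L0h43.TA Pool.Agent.L0h43.TB
open Pool.Agent.H386R2.HL

lemma star_up {w J r : ℕ} (T : Finset ℕ) (h : ℕ) (hw : 1 ≤ w) (hr : T.card ≤ r) (hh : h ∉ T)
    (hg : 0 < Uni.gT (Uni.WW w) (insert h T)) (hgT : 0 < Uni.gT (Uni.WW w) T)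
    (hJ : 2 * w * (T.card + 1) ^ 2 + w + 2 + (insert h T).sup id < 2 ^ 2 ^ J) :
    Uni.CT (insert h T) / Uni.gT (Uni.WW w) (insert h T) ≤
      (Uni.WW w : ℝ) / Nat.totient (Uni.WW w) * (Uni.CT T / Uni.gT (Uni.WW w) T) * ((1 + 1 / w) *
      (1 + ∑ t ∈ T, (mm w J (2 * r) (ds h t) - 1))) := by
  have h3 := Vw_up1 (w := w) (J := J) T h r hr
  have hsg : 0 ≤ ∑ t ∈ T, (mm w J (2 * r) (ds h t) - 1) :=
    sum_nonneg fun t _ => by linarith [mm_ge_one w J (2 * r) (ds h t)]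
  obtain ⟨sg, hsg2⟩ : ∃ sg, sg = ∑ t ∈ T, (mm w J (2 * r) (ds h t) - 1) := ⟨_, rfl⟩
  rw [← hsg2] at h3 hsg ⊢
  obtain ⟨j, hj⟩ : ∃ j, j = T.card := ⟨_, rfl⟩
  have hcard : (insert h T).card = j + 1 := by rw [card_insert_of_notMem hh, hj]
  rw [← hj] at hJ
  have hw0 : (0 : ℝ) < w := by exact_mod_cast hw
  obtain ⟨W, hW⟩ : ∃ W, W = Uni.WW w := ⟨_, rfl⟩
  rw [← hW] at hg hgT ⊢
  have hWpos : 0 < W := by rw [hW]; exact Uni.WW_pos w
  have hW0 : (0 : ℝ) < W := by exact_mod_cast hWpos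
  have hφ0 : (0 : ℝ) < Nat.totient W := by exact_mod_cast Nat.totient_pos.2 hWpos
  have hwJ : w < 2 ^ 2 ^ J := by
    have : 0 ≤ 2 * w * (j + 1) ^ 2 := Nat.zero_le _
    omega
  obtain ⟨y, hy⟩ : ∃ y, y = 2 ^ 2 ^ J - 1 := ⟨_, rfl⟩
  have hyM : (insert h T).sup id ≤ y := by
    have : 0 ≤ 2 * w * (j + 1) ^ 2 := Nat.zero_le _
    omega
  have hyw : 2 * w * (j + 1) ^ 2 ≤ y := by omega
  have hy2 : 2 ≤ y := by omega
  have hyj : j + 1 ≤ y := by nlinarith
  have hy0 : (0 : ℝ) < y := by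
    have : 0 < y := by omega
    exact_mod_cast this
  obtain ⟨s1, hs1⟩ : ∃ s1, s1 = sy (Uni.en T) y := ⟨_, rfl⟩
  obtain ⟨s2, hs2⟩ : ∃ s2, s2 = sy (Uni.en (insert h T)) y := ⟨_, rfl⟩
  have hs1n : 0 ≤ s1 := by rw [hs1]; exact sy_nonneg _ _
  have hup : Uni.CT (insert h T) ≤ s2 := by
    have h1 := Uni.CT_le (insert h T) y (K := 1) le_rfl (M := (insert h T).sup id)
      (fun t ht => le_sup (f := id) ht) (by
      intro n _ hn
      unfold tt
      apply le_of_eq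
      apply prod_eq_one
      intro p hp
      exfalso
      rw [mem_filter, Nat.mem_primeFactors] at hp
      have := Nat.le_of_dvd (by omega) hp.1.2.1
      omega)
    rw [one_pow, one_mul, ← Uni.sy_en, ← hs2] at h1
    exact h1
  have hlo : (1 - (j : ℝ) ^ 2 / y) * s1 ≤ Uni.CT T := by
    have h1 := Pool.Agent.Helper22K9.Trp.CT_ge' T y (by omega) (by rw [← hj]; omega)
    rw [← Uni.sy_en, ← hs1, ← hj] at h1
    exact h1
  have e1 := VT_split hwJ T
  have e2 := VT_split hwJ (insert h T)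
  have e3 := VT_eq J T
  have e4 := VT_eq J (insert h T)
  have e5 := V1_split hwJ
  rw [← hy, ← hs1, ← hj] at e3
  rw [← hy, ← hs2, hcard] at e4
  rw [← hW] at e1 e2 e5
  have hV := V1_pos J
  have hVw := V1w_pos w J
  have hg0 : (0 : ℝ) < Uni.gT W (insert h T) := by exact_mod_cast hg
  have hgT0 : (0 : ℝ) < Uni.gT W T := by exact_mod_cast hgT
  have f1 : s1 / Uni.gT W T = Vw w J T / (W * V1 J ^ j) := by
    rw [e3] at e1
    rw [div_eq_div_iff hgT0.ne' (by positivity)]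
    have : s1 * (W * V1 J ^ j) = W * (V1 J ^ j * s1) := by ring
    rw [this, e1]
    field_simp
  have f2 : s2 / Uni.gT W (insert h T) = Vw w J (insert h T) / (W * V1 J ^ (j + 1)) := by
    rw [e4] at e2
    rw [div_eq_div_iff hg0.ne' (by positivity)]
    have : s2 * (W * V1 J ^ (j + 1)) = W * (V1 J ^ (j + 1) * s2) := by
      ring
    rw [this, e2]
    field_simp
  have f3 : s2 / Uni.gT W (insert h T) ≤ ((W : ℝ) / Nat.totient W * (s1 / Uni.gT W T)) * (1 + sg) := by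
    rw [f1, f2]
    have f4 : ((W : ℝ) / Nat.totient W * (Vw w J T / (W * V1 J ^ j))) * (1 + sg) =
        (Vw w J T * V1w w J * (1 + sg)) / (W * V1 J ^ (j + 1)) := by
      have f5 : (W : ℝ) / Nat.totient W * V1 J = V1w w J := by
        rw [e5]; field_simp
      rw [← f5, pow_succ]
      field_simp
    rw [f4]
    exact div_le_div_of_nonneg_right h3 (by positivity)
  have g2 : s1 ≤ (1 + 1 / (w : ℝ)) * Uni.CT T := by
    have hx : (j : ℝ) ^ 2 / y ≤ 1 / (2 * w) := by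
      rw [div_le_div_iff₀ hy0 (by positivity)]
      have h5 : ((2 * w * (j + 1) ^ 2 : ℕ) : ℝ) ≤ y := by exact_mod_cast hyw
      push_cast at h5
      have h6 : (j : ℝ) ^ 2 ≤ ((j : ℝ) + 1) ^ 2 := by
        apply pow_le_pow_left₀ (Nat.cast_nonneg _)
        linarith
      nlinarith
    have hw1 : 1 / (w : ℝ) ≤ 1 := by
      rw [div_le_one hw0]
      exact_mod_cast hw
    have h5 : (1 - 1 / (2 * (w : ℝ))) * s1 ≤ Uni.CT T := by
      refine le_trans (mul_le_mul_of_nonneg_right (by linarith) hs1n) hlo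
    have h6 := mul_le_mul_of_nonneg_left h5 (show 0 ≤ 1 + 1 / (w : ℝ) by positivity)
    refine le_trans ?_ h6
    have h7 : 1 ≤ (1 + 1 / (w : ℝ)) * (1 - 1 / (2 * (w : ℝ))) := by
      have e : 1 / (2 * (w : ℝ)) = (1 / w) / 2 := by field_simp
      rw [e]
      have h8 : 0 < 1 / (w : ℝ) := by positivity
      nlinarith
    have h9 := mul_le_mul_of_nonneg_right h7 hs1n
    linarith
  have g3 : s1 / Uni.gT W T ≤ (1 + 1 / (w : ℝ)) * (Uni.CT T / Uni.gT W T) := by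
    rw [mul_div_assoc']
    exact div_le_div_of_nonneg_right g2 hgT0.le
  calc Uni.CT (insert h T) / Uni.gT W (insert h T) ≤ s2 / Uni.gT W (insert h T) :=
        div_le_div_of_nonneg_right hup hg0.le
    _ ≤ ((W : ℝ) / Nat.totient W * (s1 / Uni.gT W T)) * (1 + sg) := f3
    _ ≤ ((W : ℝ) / Nat.totient W * ((1 + 1 / (w : ℝ)) * (Uni.CT T / Uni.gT W T))) * (1 + sg) := by
        apply mul_le_mul_of_nonneg_right _ (by linarith)
        exact mul_le_mul_of_nonneg_left g3 (by positivity)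
    _ = _ := by ring

theorem star_avg (j : ℕ) (η : ℝ) (hη : 0 < η) : ∃ w0 : ℕ, 1 ≤ w0 ∧ ∀ w : ℕ, w0 ≤ w →
    ∀ A : ℝ, 0 ≤ A → ∃ H0 : ℕ, ∀ H : ℕ, H0 ≤ H → ∀ T : Finset ℕ, T.card = j → ∀ ν : ℕ, ν < Uni.WW w →
      OK (Uni.WW w) ν T → ∀ u : ℕ, (∀ t ∈ T, (t : ℝ) ≤ (H : ℝ) ^ A) → ((u + H : ℕ) : ℝ) ≤ (H : ℝ) ^ A →
      ∀ g : ℕ → ℝ, (∀ h, 0 ≤ g h) → (∀ h, g h ≤ 1) →
      ∑ h ∈ Jv (Uni.WW w) ν u H \ T, g h * (Uni.CT (insert h T) / Uni.gT (Uni.WW w) (insert h T)) ≤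
        Uni.CT T / Uni.gT (Uni.WW w) T * ((Uni.WW w : ℝ) / Nat.totient (Uni.WW w) *
          (∑ h ∈ Jv (Uni.WW w) ν u H \ T, g h) + η * H) := by
  obtain ⟨δ, hδ⟩ : ∃ δ : ℝ, δ = η / (4 * (j + 1)) := ⟨_, rfl⟩
  have hj0 : (0 : ℝ) ≤ j := Nat.cast_nonneg _
  have hδ0 : 0 < δ := by rw [hδ]; positivity
  obtain ⟨w1, hw11, hw1⟩ := m_avg (2 * j) δ hδ0
  refine ⟨max w1 ⌈4 / η⌉₊, hw11.trans (le_max_left _ _), fun w hw A hA => ?_⟩
  have hww1 : w1 ≤ w := (le_max_left _ _).trans hw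
  have hw1' : 1 ≤ w := hw11.trans hww1
  have hw0 : (0 : ℝ) < w := by exact_mod_cast hw1'
  have hwη : 4 / η ≤ w := (Nat.le_ceil _).trans (by exact_mod_cast (le_max_right _ _).trans hw)
  obtain ⟨W, hW⟩ : ∃ W, W = Uni.WW w := ⟨_, rfl⟩
  have hWpos : 0 < W := by rw [hW]; exact Uni.WW_pos w
  have hWw : ∀ p : ℕ, p.Prime → (p ∣ W ↔ p ≤ w) := fun p hp => by rw [hW]; exact dvd_WW hp
  have hW0 : (0 : ℝ) < W := by exact_mod_cast hWpos
  have hφ0 : (0 : ℝ) < Nat.totient W := by exact_mod_cast Nat.totient_pos.2 hWpos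
  obtain ⟨H0, hH0⟩ := hw1 w hww1 W hWpos hWw A hA
  refine ⟨max H0 (max W 1), fun H hH T hTj ν hν hOK u hTA hHA g hg0 hg1 => ?_⟩
  have hHH0 : H0 ≤ H := (le_max_left _ _).trans hH
  have hHW : W ≤ H := ((le_max_left _ _).trans (le_max_right _ _)).trans hH
  have hH1 : 1 ≤ H := ((le_max_right _ _).trans (le_max_right _ _)).trans hH
  have hHWR : (W : ℝ) ≤ H := by exact_mod_cast hHW
  have hHR : (1 : ℝ) ≤ H := by exact_mod_cast hH1
  have hgT := gT_pos hν hOK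
  -- choose `J`
  obtain ⟨J, hJ⟩ : ∃ J : ℕ, 2 * w * (j + 1) ^ 2 + w + 2 + (u + H + T.sup id) < 2 ^ 2 ^ J := by
    refine ⟨2 * w * (j + 1) ^ 2 + w + 2 + (u + H + T.sup id), ?_⟩
    exact Nat.lt_two_pow_self.trans_le (Nat.pow_le_pow_right (by norm_num) Nat.lt_two_pow_self.le)
  rw [← hW] at hν hOK hgT ⊢
  obtain ⟨R, hR⟩ : ∃ R, R = Jv W ν u H \ T := ⟨_, rfl⟩
  rw [← hR]
  obtain ⟨G, hG⟩ : ∃ G, G = ∑ h ∈ R, g h := ⟨_, rfl⟩
  have hG0 : 0 ≤ G := by rw [hG]; exact sum_nonneg fun h _ => hg0 h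
  rw [← hG]
  obtain ⟨Z, hZ⟩ : ∃ Z, Z = Uni.CT T / Uni.gT W T := ⟨_, rfl⟩
  have hZ0 : 0 ≤ Z := by
    rw [hZ]
    have := Uni.CT_nonneg T
    positivity
  rw [← hZ]
  have hRm : ∀ h ∈ R, h ∈ Ioc u (u + H) ∧ Nat.Coprime W (ν + h) ∧ h ∉ T := by
    intro h hh
    rw [hR, Finset.mem_sdiff] at hh
    unfold Jv at hh
    rw [mem_filter] at hh
    exact ⟨hh.1.1, hh.1.2, hh.2⟩
  have s1 : ∀ h ∈ R, g h * (Uni.CT (insert h T) / Uni.gT W (insert h T)) ≤
      (W : ℝ) / Nat.totient W * Z * (1 + 1 / w) * (g h + ∑ t ∈ T, (mm w J (2 * j) (ds h t) - 1)) := by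
    intro h hh
    obtain ⟨h1, h2, h3⟩ := hRm h hh
    have hg2 : 0 < Uni.gT (Uni.WW w) (insert h T) := by
      apply gT_pos (ν := ν) (by rw [← hW]; exact hν)
      intro t ht
      rw [← hW]
      rcases mem_insert.1 ht with rfl | ht
      · exact h2
      · exact hOK t ht
    have h4 := star_up (r := j) T h hw1' (by rw [hTj]) h3 hg2 (by rw [← hW]; exact hgT) (J := J) (by
      rw [hTj]
      refine lt_of_le_of_lt ?_ hJ
      apply Nat.add_le_add_left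
      rw [sup_insert]
      apply sup_le
      · rw [mem_Ioc] at h1
        simp only [id]
        omega
      · exact Nat.le_add_left _ _)
    rw [← hW, ← hZ] at h4
    have hsg : 0 ≤ ∑ t ∈ T, (mm w J (2 * j) (ds h t) - 1) :=
      sum_nonneg fun t _ => by linarith [mm_ge_one w J (2 * j) (ds h t)]
    have hc : 0 ≤ (W : ℝ) / Nat.totient W * Z * (1 + 1 / w) := by positivity
    refine (mul_le_mul_of_nonneg_left h4 (hg0 h)).trans ?_
    have e : g h * ((W : ℝ) / Nat.totient W * Z * ((1 + 1 / w) *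
        (1 + ∑ t ∈ T, (mm w J (2 * j) (ds h t) - 1)))) =
        (W : ℝ) / Nat.totient W * Z * (1 + 1 / w) * (g h + g h * ∑ t ∈ T, (mm w J (2 * j) (ds h t) - 1)) := by
      ring
    rw [e]
    apply mul_le_mul_of_nonneg_left _ hc
    have := mul_le_mul_of_nonneg_right (hg1 h) hsg
    linarith
  refine (sum_le_sum s1).trans ?_
  rw [← mul_sum, sum_add_distrib, ← hG]
  have s2 : ∑ h ∈ R, ∑ t ∈ T, (mm w J (2 * j) (ds h t) - 1) ≤ j * (δ * ((Nat.totient W : ℝ) / W * H)) := by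
    rw [sum_comm]
    have h1 : ∀ t ∈ T, ∑ h ∈ R, (mm w J (2 * j) (ds h t) - 1) ≤ δ * ((Nat.totient W : ℝ) / W * H) := by
      intro t ht
      refine le_trans ?_ (hH0 H hHH0 J ν u t ?_)
      · apply sum_le_sum_of_subset_of_nonneg
        · intro h hh
          rw [mem_filter]
          rw [hR, Finset.mem_sdiff] at hh
          refine ⟨hh.1, ?_⟩
          rintro rfl
          exact hh.2 ht
        · intro h _ _
          linarith [mm_ge_one w J (2 * j) (ds h t)]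
      · intro h hh
        have h1 : (h : ℝ) ≤ (H : ℝ) ^ A := by
          have h2 : (h : ℝ) ≤ ((u + H : ℕ) : ℝ) := by exact_mod_cast (mem_Ioc.1 hh).2
          exact h2.trans hHA
        have h4 : ds h t ≤ max h t := by
          unfold ds
          omega
        have h5 : ((ds h t : ℕ) : ℝ) ≤ ((max h t : ℕ) : ℝ) := by exact_mod_cast h4
        refine h5.trans ?_
        rw [Nat.cast_max]
        exact max_le h1 (hTA t ht)
    refine (sum_le_sum h1).trans ?_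
    rw [sum_const, nsmul_eq_mul, hTj]
  have hG2 : (W : ℝ) / Nat.totient W * G ≤ 2 * H := by
    have h1 := Jv_card_le (ν := ν) (u := u) (H := H) hWpos T
    have h2 : G ≤ ((Jv W ν u H \ T).card : ℝ) := by
      rw [hG, ← hR]
      calc ∑ h ∈ R, g h ≤ ∑ _h ∈ R, (1 : ℝ) := sum_le_sum fun h _ => hg1 _
        _ = _ := by rw [sum_const, nsmul_eq_mul, mul_one]
    have h3 := mul_le_mul_of_nonneg_left h2 (show 0 ≤ (W : ℝ) / Nat.totient W by positivity)
    linarith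
  have hw11 : 1 / (w : ℝ) ≤ 1 := by
    rw [div_le_one hw0]
    exact_mod_cast hw1'
  have h1w : 1 / (w : ℝ) ≤ η / 4 := by
    rw [div_le_iff₀ hη] at hwη
    rw [div_le_div_iff₀ hw0 (by norm_num)]
    linarith
  calc (W : ℝ) / Nat.totient W * Z * (1 + 1 / w) * (G + ∑ h ∈ R, ∑ t ∈ T, (mm w J (2 * j) (ds h t) - 1)) ≤
      (W : ℝ) / Nat.totient W * Z * (1 + 1 / w) * (G + j * (δ * ((Nat.totient W : ℝ) / W * H))) := by
        apply mul_le_mul_of_nonneg_left (by linarith) (by positivity)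
    _ = Z * ((W : ℝ) / Nat.totient W * G + (1 / w) * ((W : ℝ) / Nat.totient W * G) +
        (1 + 1 / w) * (j * δ * H)) := by
        field_simp
    _ ≤ Z * ((W : ℝ) / Nat.totient W * G + η * H) := by
        apply mul_le_mul_of_nonneg_left _ hZ0
        have a1 : (1 / (w : ℝ)) * ((W : ℝ) / Nat.totient W * G) ≤ η / 4 * (2 * H) :=
          mul_le_mul h1w hG2 (by positivity) (by positivity)
        have a2 : (j : ℝ) * δ ≤ η / 4 := by
          rw [hδ, mul_div_assoc', div_le_div_iff₀ (by positivity) (by norm_num)]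
          nlinarith
        have a3 : (1 + 1 / (w : ℝ)) * (j * δ * H) ≤ 2 * (η / 4 * H) := by
          apply mul_le_mul (by linarith) _ (by positivity) (by norm_num)
          exact mul_le_mul_of_nonneg_right a2 (by positivity)
        linarith

end Pool.Agent.L0h43.TD
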