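import Pool.Agent.L0h43.TB.Gvar
import Pool.Agent.R490.P3i

/-!
# First and second moments of a lower bound sieve weight over a general sequence
-/

set_option autoImplicit false

namespace Pool.Agent.L0h43.TD

open Finset Pool.Agent.H387R2
open Pool.Agent.L0h43.TA Pool.Agent.L0h43.TB
open Pool.Agent.R490.P3c (lam Pi1 wt)

open Classical in
/-- the weight -/
noncomputable def fa (J : ℕ) (P : Finset ℕ) (a : Finset ℕ → ℝ) (m : ℕ) : ℝ := if Ro J m then lam P a m else 0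

/-- the density of the weight -/
noncomputable def S0 (P : Finset ℕ) (a : Finset ℕ → ℝ) : ℝ := ∑ U ∈ P.powerset, a U * wt U

/-- the sum of the coefficients -/
noncomputable def AD (P : Finset ℕ) (a : Finset ℕ → ℝ) : ℝ := ∑ U ∈ P.powerset, |a U|

lemma AD_nonneg (P : Finset ℕ) (a : Finset ℕ → ℝ) : 0 ≤ AD P a := sum_nonneg fun _ _ => abs_nonneg _

lemma dvd_iff' {U : Finset ℕ} (hU : Prs U) (m : ℕ) : (∏ p ∈ U, p) ∣ m ↔ ∀ p ∈ U, p ∣ m := by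
  constructor
  · intro h p hp
    exact (dvd_prod_of_mem (fun p => p) hp).trans h
  · intro h
    exact Finset.prod_primes_dvd m (fun p hp => (hU p hp).prime) h

lemma Prs_sub {P U : Finset ℕ} (hP : Prs P) (hU : U ∈ P.powerset) : Prs U := fun p hp => hP p (mem_powerset.1 hU hp)

lemma Big_sub {J : ℕ} {P U : Finset ℕ} (hP : Big J P) (hU : U ∈ P.powerset) : Big J U :=
  fun p hp => hP p (mem_powerset.1 hU hp)

lemma wt_pd (U : Finset ℕ) : wt U = 1 / pd U := by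
  unfold Pool.Agent.R490.P3c.wt pd
  rw [one_div]

open Classical in
lemma fa_eq {J : ℕ} {P : Finset ℕ} (hP : Prs P) (a : Finset ℕ → ℝ) (m : ℕ) : fa J P a m =
    ∑ U ∈ P.powerset, a U * (if (∀ p ∈ U, p ∣ m) ∧ Ro J m then 1 else 0) := by
  unfold fa lam
  by_cases h : Ro J m
  · rw [if_pos h]
    apply sum_congr rfl
    intro U hU
    congr 1
    have := dvd_iff' (Prs_sub hP hU) m
    by_cases h2 : ∀ p ∈ U, p ∣ m
    · rw [if_pos (this.2 h2), if_pos ⟨h2, h⟩]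
    · rw [if_neg (fun h3 => h2 (this.1 h3)), if_neg (fun h3 => h2 h3.1)]
  · rw [if_neg h]
    symm
    apply sum_eq_zero
    intro U _
    rw [if_neg (fun h3 => h h3.2), mul_zero]

lemma fsum_one (J : ℕ) {P : Finset ℕ} (hP : Prs P) (a : Finset ℕ → ℝ) (𝒩 : Finset ℕ) (h : ℕ) :
    ∑ n ∈ 𝒩, fa J P a (n + h) = ∑ U ∈ P.powerset, a U * (cg J 𝒩 h h U ∅ : ℝ) := by
  classical
  have h1 : ∀ n ∈ 𝒩, fa J P a (n + h) =
      ∑ U ∈ P.powerset, a U * (if (∀ p ∈ U, p ∣ n + h) ∧ Ro J (n + h) then 1 else 0) := by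
    intro n _
    rw [fa_eq hP]
  rw [sum_congr rfl h1, sum_comm]
  apply sum_congr rfl
  intro x _
  rw [← mul_sum]
  congr 1
  unfold cg
  rw [sum_boole]
  congr 2
  apply filter_congr
  intro n _
  simp only [notMem_empty, false_imp_iff, implies_true, true_and]
  tauto

lemma fsum_two (J : ℕ) {P : Finset ℕ} (hP : Prs P) (a : Finset ℕ → ℝ) (𝒩 : Finset ℕ) (h1 h2 : ℕ) :
    ∑ n ∈ 𝒩, fa J P a (n + h1) * fa J P a (n + h2) =
    ∑ U ∈ P.powerset, ∑ V ∈ P.powerset, a U * a V * (cg J 𝒩 h1 h2 U V : ℝ) := by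
  classical
  have h3 : ∀ n ∈ 𝒩, fa J P a (n + h1) * fa J P a (n + h2) =
      ∑ x ∈ P.powerset, ∑ y ∈ P.powerset, a x * a y *
        (if ((∀ p ∈ x, p ∣ n + h1) ∧ Ro J (n + h1)) ∧
          ((∀ p ∈ y, p ∣ n + h2) ∧ Ro J (n + h2)) then 1 else 0) := by
    intro n _
    rw [fa_eq hP, fa_eq hP, sum_mul_sum]
    apply sum_congr rfl
    intro x _
    apply sum_congr rfl
    intro y _
    by_cases a1 : (∀ p ∈ x, p ∣ n + h1) ∧ Ro J (n + h1)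
    · by_cases a2 : (∀ p ∈ y, p ∣ n + h2) ∧ Ro J (n + h2)
      · rw [if_pos a1, if_pos a2, if_pos ⟨a1, a2⟩]; ring
      · have a3 : ¬ (((∀ p ∈ x, p ∣ n + h1) ∧ Ro J (n + h1)) ∧
          ((∀ p ∈ y, p ∣ n + h2) ∧ Ro J (n + h2))) := fun h => a2 h.2
        rw [if_neg a2, if_neg a3]; ring
    · have a3 : ¬ (((∀ p ∈ x, p ∣ n + h1) ∧ Ro J (n + h1)) ∧
          ((∀ p ∈ y, p ∣ n + h2) ∧ Ro J (n + h2))) := fun h => a1 h.1
      rw [if_neg a1, if_neg a3]; ring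
  rw [sum_congr rfl h3, sum_comm]
  apply sum_congr rfl
  intro x _
  rw [sum_comm]
  apply sum_congr rfl
  intro y _
  rw [← mul_sum]
  congr 1
  unfold cg
  rw [sum_boole]

/-- lower bound for the first moment -/
theorem ffirst {b J : ℕ} {𝒩 R : Finset ℕ} {X E : ℝ} {ρ : ℕ → ℕ → ℝ} (hC : CG b J 𝒩 X ρ E R)
    {P : Finset ℕ} (hP : Prs P) (hJ : Big J P) {a : Finset ℕ → ℝ} {A : ℝ} (hA : ∀ U, |a U| ≤ A)
    (hN : 0 ≤ X) {h : ℕ} (hh : h ∈ R) (hV : 0 ≤ ρ h h) :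
    X * ρ h h * (S0 P a - (1 / 2) ^ b * (A * Pi1 P)) - E * AD P a ≤ ∑ n ∈ 𝒩, fa J P a (n + h) := by
  rw [fsum_one J hP]
  have hPe : Prs (∅ : Finset ℕ) := fun p hp => absurd hp (notMem_empty p)
  have hBg : Big J (∅ : Finset ℕ) := fun p hp => absurd hp (notMem_empty p)
  have h1 : ∀ U ∈ P.powerset, X * ρ h h * (a U * wt U) -
      (1 / 2) ^ b * (X * ρ h h) * (A * wt U) - E * |a U| ≤ a U * (cg J 𝒩 h h U ∅ : ℝ) := by
    intro U hU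
    have hu := Prs_sub hP hU
    have hup := pd_pos hu
    have h2 := hC h hh h hh U ∅ hu hPe (Big_sub hJ hU) hBg (disjoint_empty_right _)
    have e : pd (∅ : Finset ℕ) = 1 := by simp [pd]
    rw [e, mul_one] at h2
    have h3 : |a U * ((cg J 𝒩 h h U ∅ : ℝ) - X / pd U * ρ h h)| ≤
        |a U| * ((1 / 2) ^ b * (X / pd U * ρ h h) + E) := by
      rw [abs_mul]
      exact mul_le_mul_of_nonneg_left h2 (abs_nonneg _)
    have h4 := (abs_le.1 h3).1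
    have e2 : a U * ((cg J 𝒩 h h U ∅ : ℝ) - X / pd U * ρ h h) =
        a U * (cg J 𝒩 h h U ∅ : ℝ) - X * ρ h h * (a U * wt U) := by rw [wt_pd]; ring
    have e3 : |a U| * ((1 / 2) ^ b * (X / pd U * ρ h h) + E) =
        (1 / 2) ^ b * (X * ρ h h) * (|a U| * wt U) + E * |a U| := by rw [wt_pd]; ring
    rw [e2, e3] at h4
    have h5 : (1 / 2 : ℝ) ^ b * (X * ρ h h) * (|a U| * wt U) ≤ (1 / 2 : ℝ) ^ b * (X * ρ h h) * (A * wt U) := by
      apply mul_le_mul_of_nonneg_left _ (by positivity)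
      apply mul_le_mul_of_nonneg_right (hA U)
      rw [wt_pd]
      positivity
    linarith
  refine le_trans (le_of_eq ?_) (sum_le_sum h1)
  rw [sum_sub_distrib, sum_sub_distrib, ← mul_sum, ← mul_sum, ← mul_sum, ← mul_sum]
  unfold S0 AD Pi1
  ring

/-- upper bound for the correlations -/
theorem fpair {b J : ℕ} {𝒩 R : Finset ℕ} {X₀ E : ℝ} {ρ : ℕ → ℕ → ℝ} (hC : CG b J 𝒩 X₀ ρ E R)
    {P : Finset ℕ} (hP : Prs P) (hJ : Big J P) {a : Finset ℕ → ℝ} {A : ℝ} (hA : ∀ U, |a U| ≤ A)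
    {y : ℕ} (hy : 1 ≤ y) (hPy : ∀ p ∈ P, p.Prime ∧ y < p)
    (hN : 0 ≤ X₀) (hE : 0 ≤ E) {h1 h2 : ℕ}
    (hh1 : h1 ∈ R) (hh2 : h2 ∈ R) (hne : h1 ≠ h2) (hb1 : h1 < 2 ^ 2 ^ J) (hb2 : h2 < 2 ^ 2 ^ J)
    (hV : 0 ≤ ρ h1 h2) :
    ∑ n ∈ 𝒩, fa J P a (n + h1) * fa J P a (n + h2) ≤
      X₀ * ρ h1 h2 * (S0 P a ^ 2 + A ^ 2 * (Pi1 P ^ 2 * ((∑ p ∈ P, 1 / (p : ℝ)) / y)) + (1 / 2) ^ b * (A * Pi1 P) ^ 2) +
        E * AD P a ^ 2 := by
  classical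
  rw [fsum_two J hP]
  set V : ℝ := X₀ * ρ h1 h2 with hVdef
  have hV0 : 0 ≤ V := mul_nonneg hN hV
  have hA0 : 0 ≤ A := (abs_nonneg _).trans (hA ∅)
  have hw0 : ∀ U ∈ P.powerset, 0 ≤ wt U := by
    intro U hU
    have := pd_pos (Prs_sub hP hU)
    rw [wt_pd]
    positivity
  have key : ∀ x ∈ P.powerset, ∀ y ∈ P.powerset,
      a x * a y * (cg J 𝒩 h1 h2 x y : ℝ) ≤
      V * ((a x * wt x) * (a y * wt y)) + V * A ^ 2 * (if Disjoint x y then 0 else wt x * wt y) +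
        (1 / 2) ^ b * V * ((A * wt x) * (A * wt y)) + E * (|a x| * |a y|) := by
    intro x hx y hy
    have hu := Prs_sub hP hx
    have hw := Prs_sub hP hy
    have hup := pd_pos hu
    have hwp := pd_pos hw
    have w1 := hw0 x hx
    have w2 := hw0 y hy
    have haa : |a x| * |a y| ≤ A * A := mul_le_mul (hA x) (hA y) (abs_nonneg _) hA0
    have haa0 : 0 ≤ |a x| * |a y| := by positivity
    by_cases hd : Disjoint x y
    · rw [if_pos hd, mul_zero, add_zero]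
      have h3 := hC h1 hh1 h2 hh2 x y hu hw (Big_sub hJ hx) (Big_sub hJ hy) hd
      have h4 : |(a x * a y) * ((cg J 𝒩 h1 h2 x y : ℝ) - X₀ / (pd x * pd y) * ρ h1 h2)| ≤
          (|a x| * |a y|) * ((1 / 2) ^ b * (X₀ / (pd x * pd y) * ρ h1 h2) + E) := by
        rw [abs_mul, abs_mul]
        exact mul_le_mul_of_nonneg_left h3 haa0
      have h5 := (abs_le.1 h4).2
      have e2 : (a x * a y) * ((cg J 𝒩 h1 h2 x y : ℝ) - X₀ / (pd x * pd y) * ρ h1 h2) =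
          a x * a y * (cg J 𝒩 h1 h2 x y : ℝ) - V * ((a x * wt x) * (a y * wt y)) := by
        rw [wt_pd, wt_pd, hVdef]
        field_simp
      have e3 : (|a x| * |a y|) * ((1 / 2) ^ b * (X₀ / (pd x * pd y) * ρ h1 h2) + E) =
          (|a x| * |a y|) * ((1 / 2) ^ b * V * (wt x * wt y)) + E * (|a x| * |a y|) := by
        rw [wt_pd, wt_pd, hVdef]
        field_simp
      rw [e2, e3] at h5
      have h6 : (|a x| * |a y|) * ((1 / 2) ^ b * V * (wt x * wt y)) ≤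
          A * A * ((1 / 2) ^ b * V * (wt x * wt y)) := mul_le_mul_of_nonneg_right haa (by positivity)
      have e4 : A * A * ((1 / 2) ^ b * V * (wt x * wt y)) = (1 / 2) ^ b * V * ((A * wt x) * (A * wt y)) := by ring
      linarith
    · rw [cg_zero (Big_sub hJ hx) hd hne hb1 hb2, Nat.cast_zero, mul_zero, if_neg hd]
      have h6 : -((A * A) * (wt x * wt y)) ≤ (a x * wt x) * (a y * wt y) := by
        have h7 : |(a x * wt x) * (a y * wt y)| ≤ (A * A) * (wt x * wt y) := by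
          have e : (a x * wt x) * (a y * wt y) = (a x * a y) * (wt x * wt y) := by ring
          rw [e, abs_mul, abs_mul, abs_of_nonneg (mul_nonneg w1 w2)]
          exact mul_le_mul_of_nonneg_right haa (mul_nonneg w1 w2)
        exact (abs_le.1 h7).1
      have h9 := mul_le_mul_of_nonneg_left h6 hV0
      have h10 : 0 ≤ (1 / 2 : ℝ) ^ b * V * ((A * wt x) * (A * wt y)) := by positivity
      have h11 : 0 ≤ E * (|a x| * |a y|) := mul_nonneg hE haa0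
      have e5 : V * -((A * A) * (wt x * wt y)) = -(V * A ^ 2 * (wt x * wt y)) := by ring
      linarith
  refine (sum_le_sum fun x hx => sum_le_sum fun y hy => key x hx y hy).trans ?_
  have s1 : ∑ x ∈ P.powerset, ∑ y ∈ P.powerset, V * ((a x * wt x) * (a y * wt y)) = V * S0 P a ^ 2 := by
    rw [← sum_rr_aux V (fun x => a x * wt x) P.powerset]
    rfl
  have s2 : ∑ x ∈ P.powerset, ∑ y ∈ P.powerset, V * A ^ 2 * (if Disjoint x y then 0 else wt x * wt y) ≤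
      V * A ^ 2 * (Pi1 P ^ 2 * ((∑ p ∈ P, 1 / (p : ℝ)) / y)) := by
    simp only [← mul_sum]
    apply mul_le_mul_of_nonneg_left _ (by positivity)
    exact Pool.Agent.R490.P3c.common P y hy hPy
  have s3 : ∑ x ∈ P.powerset, ∑ y ∈ P.powerset, (1 / 2) ^ b * V * ((A * wt x) * (A * wt y)) =
      (1 / 2) ^ b * V * (A * Pi1 P) ^ 2 := by
    rw [← sum_rr_aux ((1 / 2) ^ b * V) (fun x => A * wt x) P.powerset, ← mul_sum]
    rfl
  have s4 : ∑ x ∈ P.powerset, ∑ y ∈ P.powerset, E * (|a x| * |a y|) = E * AD P a ^ 2 := by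
    rw [← sum_rr_aux (E) (fun x => |a x|) P.powerset]
    rfl
  simp_rw [sum_add_distrib]
  rw [s1, s3, s4]
  have e6 : V * (S0 P a ^ 2 + A ^ 2 * (Pi1 P ^ 2 * ((∑ p ∈ P, 1 / (p : ℝ)) / y)) + (1 / 2) ^ b * (A * Pi1 P) ^ 2) =
      V * S0 P a ^ 2 + V * A ^ 2 * (Pi1 P ^ 2 * ((∑ p ∈ P, 1 / (p : ℝ)) / y)) + (1 / 2) ^ b * V * (A * Pi1 P) ^ 2 := by
    ring
  rw [e6]
  linarith

lemma fdiag {b J k : ℕ} {𝒩 R : Finset ℕ} {X E : ℝ} {ρ : ℕ → ℕ → ℝ} (hC : CG b J 𝒩 X ρ E R)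
    {P : Finset ℕ} {a : Finset ℕ → ℝ} {A : ℝ} (hA : ∀ U, |a U| ≤ A)
    {y : ℕ} (hPy : ∀ p ∈ P, p.Prime ∧ y < p) (hX : 0 ≤ X) {h : ℕ} (hh : h ∈ R)
    (hV : 0 ≤ ρ h h) (hk : ∀ n ∈ 𝒩, 1 ≤ n + h ∧ n + h ≤ y ^ k) :
    ∑ n ∈ 𝒩, fa J P a (n + h) * fa J P a (n + h) ≤ (A * 2 ^ k) ^ 2 * (2 * (X * ρ h h) + E) := by
  classical
  have hPe : Prs (∅ : Finset ℕ) := fun p hp => absurd hp (notMem_empty p)
  have hBg : Big J (∅ : Finset ℕ) := fun p hp => absurd hp (notMem_empty p)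
  have h1 : ∀ n ∈ 𝒩, fa J P a (n + h) * fa J P a (n + h) ≤
      (A * 2 ^ k) ^ 2 * (if ((∀ p ∈ (∅ : Finset ℕ), p ∣ n + h) ∧ Ro J (n + h)) ∧
        ((∀ p ∈ (∅ : Finset ℕ), p ∣ n + h) ∧ Ro J (n + h)) then 1 else 0) := by
    intro n hn
    unfold fa
    by_cases hR : Ro J (n + h)
    · rw [if_pos hR, if_pos, mul_one]
      · have h2 := Pool.Agent.R490.P3d.lam_le P a A y k (n + h) hPy hA (hk n hn).1 (hk n hn).2
        rw [← sq, ← sq_abs]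
        exact pow_le_pow_left₀ (abs_nonneg _) h2 2
      · exact ⟨⟨fun p hp => absurd hp (notMem_empty p), hR⟩, ⟨fun p hp => absurd hp (notMem_empty p), hR⟩⟩
    · rw [if_neg hR, zero_mul]
      split_ifs <;> positivity
  refine (sum_le_sum h1).trans ?_
  rw [← mul_sum]
  apply mul_le_mul_of_nonneg_left _ (by positivity)
  rw [sum_boole]
  have h2 := hC h hh h hh ∅ ∅ hPe hPe hBg hBg (disjoint_empty_right _)
  have e : pd (∅ : Finset ℕ) = 1 := by simp [pd]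
  rw [e, mul_one, div_one] at h2
  have h3 := (abs_le.1 h2).2
  unfold cg at h3
  have h4 : (1 / 2 : ℝ) ^ b ≤ 1 := pow_le_one₀ (by norm_num) (by norm_num)
  have h5 : 0 ≤ X * ρ h h := mul_nonneg hX hV
  have h6 := mul_le_mul_of_nonneg_right h4 h5
  linarith

/-- the window sum, with weights -/
noncomputable def Yf (J : ℕ) (P : Finset ℕ) (a : Finset ℕ → ℝ) (R : Finset ℕ) (g : ℕ → ℝ) (n : ℕ) : ℝ :=
  ∑ h ∈ R, g h * fa J P a (n + h)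

theorem fvar {b J k : ℕ} {𝒩 R : Finset ℕ} {X E : ℝ} {ρ : ℕ → ℕ → ℝ} (hC : CG b J 𝒩 X ρ E R)
    {P : Finset ℕ} (hP : Prs P) (hJ : Big J P) {a : Finset ℕ → ℝ} {A : ℝ} (hA : ∀ U, |a U| ≤ A)
    {y : ℕ} (hy : 1 ≤ y) (hPy : ∀ p ∈ P, p.Prime ∧ y < p)
    (hX : 0 ≤ X) (hE : 0 ≤ E)
    (hRz : ∀ h ∈ R, h < 2 ^ 2 ^ J) (hk : ∀ n ∈ 𝒩, ∀ h ∈ R, 1 ≤ n + h ∧ n + h ≤ y ^ k)
    (hρ : ∀ h1 h2, 0 ≤ ρ h1 h2) {g : ℕ → ℝ} (hg0 : ∀ h ∈ R, 0 ≤ g h) (hg1 : ∀ h ∈ R, g h ≤ 1)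
    {ρ0 V ε2 G HV S Hc gg e1 m : ℝ} (hρ0 : 0 ≤ ρ0) (hV : 0 ≤ V) (hε2 : 0 ≤ ε2) (hS : 0 ≤ S)
    (hG : G = ∑ h ∈ R, g h) (hGH : G ≤ HV) (hcard : (R.card : ℝ) ≤ Hc)
    (hgg : gg = S0 P a) (hgg0 : 0 ≤ gg) (hm : m = G * V * gg)
    (he1 : A ^ 2 * (Pi1 P ^ 2 * ((∑ p ∈ P, 1 / (p : ℝ)) / y)) + (1 / 2) ^ b * (A * Pi1 P) ^ 2 ≤ e1) (he0 : 0 ≤ e1)
    (hN : (𝒩.card : ℝ) ≤ X * ρ0 * (1 + (1 / 2) ^ b) + E)
    (hlow : ∀ h ∈ R, (1 - ε2) * (ρ0 * V) ≤ ρ h h) (hup1 : ∑ h ∈ R, ρ h h ≤ 2 * ρ0 * V * HV)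
    (hup2 : ∑ x ∈ R.offDiag, g x.1 * g x.2 * ρ x.1 x.2 ≤ ρ0 * V ^ 2 * (G ^ 2 + S)) :
    ∑ n ∈ 𝒩, (Yf J P a R g n - m) ^ 2 ≤
      X * ρ0 * V ^ 2 * (HV ^ 2 * ((2 * ε2 + (1 / 2) ^ b) * gg ^ 2 + e1 + 4 * gg * ((1 / 2) ^ b * (A * Pi1 P))) +
        S * (gg ^ 2 + e1)) + Hc ^ 2 * (E * AD P a ^ 2) +
        (A * 2 ^ k) ^ 2 * (4 * (X * ρ0 * V * HV) + Hc * E) + 2 * m * (Hc * (E * AD P a)) + m ^ 2 * E := by
  classical
  have hG0 : 0 ≤ G := by rw [hG]; exact sum_nonneg hg0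
  have hAA := AD_nonneg P a
  have hA0 : 0 ≤ A := (abs_nonneg _).trans (hA ∅)
  have hPi0 : 0 ≤ Pi1 P := Pool.Agent.R490.P3c.Pi1_nonneg P (fun p hp => hP p hp)
  have hUU : 0 ≤ A * Pi1 P := mul_nonneg hA0 hPi0
  have e0 : ∑ n ∈ 𝒩, (Yf J P a R g n - m) ^ 2 = ∑ n ∈ 𝒩, Yf J P a R g n ^ 2 -
      2 * m * ∑ n ∈ 𝒩, Yf J P a R g n + 𝒩.card * m ^ 2 := by
    have : ∀ n ∈ 𝒩, (Yf J P a R g n - m) ^ 2 = Yf J P a R g n ^ 2 - 2 * m * Yf J P a R g n + m ^ 2 := by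
      intro n _; ring
    rw [sum_congr rfl this, sum_add_distrib, sum_sub_distrib, ← mul_sum, sum_const, nsmul_eq_mul]
  have f1 : X * gg * ((1 - ε2) * (ρ0 * V)) * G - X * ((1 / 2) ^ b * (A * Pi1 P)) * (2 * ρ0 * V * HV) -
      Hc * (E * AD P a) ≤ ∑ n ∈ 𝒩, Yf J P a R g n := by
    have h1 : ∑ n ∈ 𝒩, Yf J P a R g n = ∑ h ∈ R, g h * ∑ n ∈ 𝒩, fa J P a (n + h) := by
      unfold Yf
      rw [sum_comm]
      apply sum_congr rfl
      intro h _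
      rw [mul_sum]
    rw [h1, hG]
    refine (wsum_low (g := g) (a := fun h => ρ h h) hg0 hg1 (fun h _ => hρ h h) hX hgg0 (by positivity)
      (by positivity) hlow hup1 hcard).trans ?_
    apply sum_le_sum
    intro h hh
    apply mul_le_mul_of_nonneg_left _ (hg0 h hh)
    have h2 := ffirst hC hP hJ hA hX hh (hρ h h)
    rw [hgg]
    exact h2
  have e2 : ∑ n ∈ 𝒩, Yf J P a R g n ^ 2 =
      ∑ x ∈ R ×ˢ R, g x.1 * g x.2 * ∑ n ∈ 𝒩, fa J P a (n + x.1) * fa J P a (n + x.2) := by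
    simp_rw [mul_sum]
    rw [sum_comm]
    apply sum_congr rfl
    intro n _
    unfold Yf
    rw [sq, sum_mul_sum, sum_product]
    apply sum_congr rfl
    intro h _
    apply sum_congr rfl
    intro h' _
    ring
  have f2 : ∑ x ∈ R.offDiag, g x.1 * g x.2 * ∑ n ∈ 𝒩, fa J P a (n + x.1) * fa J P a (n + x.2) ≤
      X * (ρ0 * V ^ 2 * (G ^ 2 + S)) * (gg ^ 2 + e1) + Hc ^ 2 * (E * AD P a ^ 2) := by
    have h1 : ∀ x ∈ R.offDiag, g x.1 * g x.2 * ∑ n ∈ 𝒩, fa J P a (n + x.1) * fa J P a (n + x.2) ≤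
        (g x.1 * g x.2 * ρ x.1 x.2) * (X * (gg ^ 2 + e1)) + E * AD P a ^ 2 := by
      intro x hx
      rw [mem_offDiag] at hx
      have h2 := fpair hC hP hJ hA hy hPy hX hE hx.1 hx.2.1 hx.2.2 (hRz _ hx.1) (hRz _ hx.2.1) (hρ x.1 x.2)
      rw [← hgg] at h2
      have h4 : X * ρ x.1 x.2 * (gg ^ 2 + A ^ 2 * (Pi1 P ^ 2 * ((∑ p ∈ P, 1 / (p : ℝ)) / y)) +
          (1 / 2) ^ b * (A * Pi1 P) ^ 2) ≤ X * ρ x.1 x.2 * (gg ^ 2 + e1) := by
        apply mul_le_mul_of_nonneg_left _ (mul_nonneg hX (hρ _ _))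
        linarith
      have hgg1 : 0 ≤ g x.1 * g x.2 := mul_nonneg (hg0 _ hx.1) (hg0 _ hx.2.1)
      have hgg2 : g x.1 * g x.2 ≤ 1 := mul_le_one₀ (hg1 _ hx.1) (hg0 _ hx.2.1) (hg1 _ hx.2.1)
      have h5 := mul_le_mul_of_nonneg_left (h2.trans (add_le_add h4 le_rfl)) hgg1
      refine h5.trans ?_
      have h6 : 0 ≤ E * AD P a ^ 2 := by positivity
      have h7 := mul_le_mul_of_nonneg_right hgg2 h6
      rw [one_mul] at h7
      have e3 : g x.1 * g x.2 * (X * ρ x.1 x.2 * (gg ^ 2 + e1) + E * AD P a ^ 2) =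
          (g x.1 * g x.2 * ρ x.1 x.2) * (X * (gg ^ 2 + e1)) + g x.1 * g x.2 * (E * AD P a ^ 2) := by ring
      rw [e3]
      linarith
    refine (sum_le_sum h1).trans ?_
    rw [sum_add_distrib, ← sum_mul, sum_const, nsmul_eq_mul]
    have h5 : ((R.offDiag.card : ℕ) : ℝ) ≤ Hc ^ 2 := by
      have h6 : R.offDiag.card ≤ R.card * R.card := by
        rw [offDiag_card]; omega
      have h7 : ((R.offDiag.card : ℕ) : ℝ) ≤ (R.card : ℝ) * R.card := by exact_mod_cast h6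
      refine h7.trans ?_
      rw [sq]
      exact mul_le_mul hcard hcard (Nat.cast_nonneg _) ((Nat.cast_nonneg _).trans hcard)
    have h7 : 0 ≤ E * AD P a ^ 2 := by positivity
    have h8 := mul_le_mul_of_nonneg_right h5 h7
    have h9 := mul_le_mul_of_nonneg_right hup2 (show 0 ≤ X * (gg ^ 2 + e1) by positivity)
    have e3 : X * (ρ0 * V ^ 2 * (G ^ 2 + S)) * (gg ^ 2 + e1) = ρ0 * V ^ 2 * (G ^ 2 + S) * (X * (gg ^ 2 + e1)) := by
      ring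
    rw [e3]
    linarith
  have f3 : ∑ x ∈ R.diag, g x.1 * g x.2 * ∑ n ∈ 𝒩, fa J P a (n + x.1) * fa J P a (n + x.2) ≤
      (A * 2 ^ k) ^ 2 * (4 * (X * ρ0 * V * HV) + Hc * E) := by
    rw [sum_diag]
    have h1 : ∀ h ∈ R, g h * g h * ∑ n ∈ 𝒩, fa J P a (n + h) * fa J P a (n + h) ≤
        (A * 2 ^ k) ^ 2 * (2 * (X * ρ h h) + E) := by
      intro h hh
      have h2 := fdiag (k := k) hC hA hPy hX hh (hρ h h) (fun n hn => hk n hn h hh)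
      have h3 : 0 ≤ ∑ n ∈ 𝒩, fa J P a (n + h) * fa J P a (n + h) :=
        sum_nonneg fun n _ => mul_self_nonneg _
      have h4 : g h * g h ≤ 1 := mul_le_one₀ (hg1 _ hh) (hg0 _ hh) (hg1 _ hh)
      calc g h * g h * ∑ n ∈ 𝒩, fa J P a (n + h) * fa J P a (n + h) ≤
          1 * ∑ n ∈ 𝒩, fa J P a (n + h) * fa J P a (n + h) := mul_le_mul_of_nonneg_right h4 h3
        _ ≤ _ := by rw [one_mul]; exact h2
    refine (sum_le_sum h1).trans ?_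
    rw [← mul_sum]
    apply mul_le_mul_of_nonneg_left _ (by positivity)
    rw [sum_add_distrib, ← mul_sum, ← mul_sum, sum_const, nsmul_eq_mul]
    have h5 := mul_le_mul_of_nonneg_left hup1 hX
    have h6 := mul_le_mul_of_nonneg_right hcard hE
    have e : 4 * (X * ρ0 * V * HV) = 2 * (X * (2 * ρ0 * V * HV)) := by ring
    rw [e]
    linarith
  have f4 : ∑ n ∈ 𝒩, Yf J P a R g n ^ 2 ≤ X * (ρ0 * V ^ 2 * (G ^ 2 + S)) * (gg ^ 2 + e1) +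
      Hc ^ 2 * (E * AD P a ^ 2) + (A * 2 ^ k) ^ 2 * (4 * (X * ρ0 * V * HV) + Hc * E) := by
    rw [e2, ← diag_union_offDiag, sum_union (disjoint_diag_offDiag _)]
    linarith
  rw [e0]
  have hEm := mul_nonneg (sq_nonneg m) hE
  have hGg : m = G * V * gg := hm
  have key := var_alg (X := X) (ρ0 := ρ0) (V := V) (gg := gg) (e1 := e1) (G := G) (S := S) (ε2 := ε2)
    (b2 := (1 / 2) ^ b) (U := A * Pi1 P) (HV := HV) (M2 := ∑ n ∈ 𝒩, Yf J P a R g n ^ 2)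
    (E4 := Hc ^ 2 * (E * AD P a ^ 2)) (D := (A * 2 ^ k) ^ 2 * (4 * (X * ρ0 * V * HV) + Hc * E))
    (E2 := E * AD P a) (Hc := Hc) (E := ∑ n ∈ 𝒩, Yf J P a R g n) (NN := (𝒩.card : ℝ) - E + Hc) (m := m)
    hX hρ0 hV hgg0 he0 hG0 hGH hε2 (by positivity) hUU hGg f4 f1 (by linarith) hS
  have e5 : ((𝒩.card : ℝ) - E + Hc) * m ^ 2 = 𝒩.card * m ^ 2 - m ^ 2 * E + m ^ 2 * Hc := by ring
  rw [e5] at key
  linarith

end Pool.Agent.L0h43.TD
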