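import Pool.Agent.L0h43.TD.LFin

/-!
# Almost primes near rough tuples
-/

set_option autoImplicit false

namespace Pool.Agent.L0h43.TD

open Finset Filter Topology Pool.Agent.H387R2
open Pool.Agent.L0h43.TA Pool.Agent.L0h43.TB
open Pool.Agent.H386R2.HL

lemma fiber_sum (S : Finset ℕ) {W : ℕ} (hW : 0 < W) (P : ℕ → Prop) [DecidablePred P] :
    (S.filter P).card = ∑ ν ∈ range W, ((S.filter (fun n => n % W = ν)).filter P).card := by
  rw [card_eq_sum_card_fiberwise (f := fun n => n % W) (t := range W)]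
  · apply sum_congr rfl
    intro ν _
    rw [filter_filter, filter_filter]
    congr 1
    apply filter_congr
    intro n _
    exact and_comm
  · intro n _
    rw [mem_coe, mem_range]
    exact Nat.mod_lt _ hW

open Classical in
theorem nbrN : ∃ c0 : ℝ, 0 < c0 ∧ c0 ≤ 1 ∧ ∀ (j : ℕ) (ε : ℝ), 0 < ε → ε ≤ 1 →
    ∃ K : ℝ, 1 ≤ K ∧ ∃ w0 : ℕ, ∀ w : ℕ, w0 ≤ w → ∀ A : ℝ, 0 ≤ A → ∃ N₀ : ℕ, ∀ N : ℕ, N₀ ≤ N →
      ∀ T : Finset ℕ, T.card = j → (∀ t ∈ T, (t : ℝ) ≤ Real.log N ^ A) →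
      ∀ u H : ℕ, K * Real.log N ≤ H → ((u + H : ℕ) : ℝ) ≤ Real.log N ^ A → ∀ g : ℕ → ℝ,
      (∀ h, 0 ≤ g h) → (∀ h, g h ≤ 1) → ∀ S ⊆ QS N 1 0 T,
        c0 * ((Uni.WW w : ℝ) / Nat.totient (Uni.WW w)) / Real.log N *
          (∑ h ∈ Ioc u (u + H) \ T, g h * ((S.filter (fun n => Nat.Coprime (Uni.WW w) (n + h))).card : ℝ)) -
          ε * (H / Real.log N) * (N / Real.log N ^ j * Uni.CT T) ≤
        ∑ h ∈ Ioc u (u + H) \ T, g h * ((S.filter (fun n => AP N (n + h))).card : ℝ) := by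
  obtain ⟨c0, hc0, hc1, H0⟩ := MTL
  refine ⟨c0, hc0, hc1, fun j ε hε hε1 => ?_⟩
  obtain ⟨K, hK, w0, H1⟩ := H0 j ε hε hε1
  refine ⟨K, hK, w0, fun w hw A hA => ?_⟩
  obtain ⟨N1, hN1⟩ := H1 w hw A hA
  have tp : Tendsto (fun N : ℕ => (N : ℝ) ^ (1 / 16 : ℝ)) atTop atTop :=
    (tendsto_rpow_atTop (by norm_num)).comp tendsto_natCast_atTop_atTop
  obtain ⟨N₀, hN₀⟩ := eventually_atTop.1 ((tp.eventually_gt_atTop (w : ℝ)).and (eventually_ge_atTop (max N1 3)))
  refine ⟨N₀, fun N hN T hTj hTA u H hKH hHA g hg0 hg1 S hS => ?_⟩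
  obtain ⟨l1, l2⟩ := hN₀ N hN
  have hNN1 : N1 ≤ N := (le_max_left _ _).trans l2
  have hN3 : 3 ≤ N := (le_max_right _ _).trans l2
  have hN1' : 1 ≤ N := by omega
  have hN3R : (3 : ℝ) ≤ N := by exact_mod_cast hN3
  set L := Real.log (N : ℝ) with hL
  have hL0 : 0 < L := Real.log_pos (by linarith)
  obtain ⟨W, hW⟩ : ∃ W, W = Uni.WW w := ⟨_, rfl⟩
  have hWpos : 0 < W := by rw [hW]; exact Uni.WW_pos w
  have hφ0 : (0 : ℝ) < Nat.totient W := by exact_mod_cast Nat.totient_pos.2 hWpos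
  have hW0 : (0 : ℝ) < W := by exact_mod_cast hWpos
  obtain ⟨I, hI⟩ : ∃ I, I = Ioc u (u + H) \ T := ⟨_, rfl⟩
  obtain ⟨Sν, hSν⟩ : ∃ Sν : ℕ → Finset ℕ, ∀ ν, Sν ν = S.filter (fun n => n % W = ν) := ⟨_, fun _ => rfl⟩
  have hSQ : ∀ ν, Sν ν ⊆ QS N W ν T := by
    intro ν n hn
    rw [hSν, mem_filter] at hn
    have h1 := hS hn.1
    unfold QS at h1 ⊢
    rw [mem_filter] at h1 ⊢
    exact ⟨h1.1, hn.2, h1.2.2⟩
  have hSe : ∀ ν, ¬ OK W ν T → Sν ν = ∅ := by
    intro ν hOK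
    rw [eq_empty_iff_forall_notMem]
    intro n hn
    apply hOK
    have h1 := hSQ ν hn
    unfold QS at h1
    rw [mem_filter] at h1
    intro t ht
    rw [cop_shift h1.2.1]
    apply Nat.coprime_of_dvd
    intro p hp hpW hpn
    have h2 := h1.2.2 t ht p hp hpn
    rw [hW, dvd_WW hp] at hpW
    have h3 : (p : ℝ) ≤ w := by exact_mod_cast hpW
    linarith
  have hJI : ∀ ν, Jv W ν u H \ T ⊆ I := by
    intro ν
    rw [hI]
    apply sdiff_subset_sdiff _ subset_rfl
    unfold Jv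
    exact filter_subset _ _
  have key : ∀ ν ∈ range W, c0 * ((W : ℝ) / Nat.totient W) / L * ((∑ h ∈ Jv W ν u H \ T, g h) * (Sν ν).card) -
      (if OK W ν T then ε * (H / L) * Ew N W T else 0) ≤
      ∑ h ∈ I, g h * (((Sν ν).filter (fun n => AP N (n + h))).card : ℝ) := by
    intro ν hν
    rw [mem_range] at hν
    by_cases hOK : OK W ν T
    · rw [if_pos hOK]
      have h1 := hN1 N hNN1 T hTj hTA ν (by rw [← hW]; exact hν) (by rw [← hW]; exact hOK) u H hKH hHA g hg0 hg1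
        (Sν ν) (by rw [← hW]; exact hSQ ν)
      rw [← hW] at h1
      refine le_trans (le_of_eq ?_) (h1.trans ?_)
      · ring
      · apply sum_le_sum_of_subset_of_nonneg (hJI ν)
        intro h _ _
        exact mul_nonneg (hg0 h) (Nat.cast_nonneg _)
    · rw [if_neg hOK, hSe ν hOK, card_empty, Nat.cast_zero, mul_zero, mul_zero, sub_zero]
      exact sum_nonneg fun h _ => mul_nonneg (hg0 h) (Nat.cast_nonneg _)
  have hsum := sum_le_sum key
  rw [sum_sub_distrib, ← mul_sum] at hsum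
  -- the right-hand side
  have e1 : ∑ ν ∈ range W, ∑ h ∈ I, g h * (((Sν ν).filter (fun n => AP N (n + h))).card : ℝ) =
      ∑ h ∈ I, g h * ((S.filter (fun n => AP N (n + h))).card : ℝ) := by
    rw [sum_comm]
    apply sum_congr rfl
    intro h _
    rw [← mul_sum, fiber_sum S hWpos (fun n => AP N (n + h)), Nat.cast_sum]
    simp only [hSν]
  -- the left-hand side
  have e2 : ∑ ν ∈ range W, (∑ h ∈ Jv W ν u H \ T, g h) * ((Sν ν).card : ℝ) =
      ∑ h ∈ I, g h * ((S.filter (fun n => Nat.Coprime W (n + h))).card : ℝ) := by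
    have h1 : ∀ ν ∈ range W, (∑ h ∈ Jv W ν u H \ T, g h) * ((Sν ν).card : ℝ) =
        ∑ h ∈ I, g h * (((Sν ν).filter (fun n => Nat.Coprime W (n + h))).card : ℝ) := by
      intro ν _
      rw [sum_mul]
      have h2 : Jv W ν u H \ T = I.filter (fun h => Nat.Coprime W (ν + h)) := by
        rw [hI]
        unfold Jv
        ext h
        simp only [Finset.mem_sdiff, mem_filter]
        tauto
      rw [h2, sum_filter]
      apply sum_congr rfl
      intro h _
      by_cases hc : Nat.Coprime W (ν + h)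
      · rw [if_pos hc]
        congr 2
        rw [filter_true_of_mem]
        intro n hn
        rw [hSν, mem_filter] at hn
        exact (cop_shift hn.2).1 hc
      · rw [if_neg hc]
        rw [filter_false_of_mem, card_empty, Nat.cast_zero, mul_zero]
        intro n hn h3
        rw [hSν, mem_filter] at hn
        exact hc ((cop_shift hn.2).2 h3)
    rw [sum_congr rfl h1, sum_comm]
    apply sum_congr rfl
    intro h _
    rw [← mul_sum, fiber_sum S hWpos (fun n => Nat.Coprime W (n + h)), Nat.cast_sum]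
    simp only [hSν]
  rw [e1, e2] at hsum
  -- the expected numbers
  have e3 : ∑ ν ∈ range W, (if OK W ν T then ε * (H / L) * Ew N W T else 0) ≤
      ε * (H / L) * (N / L ^ j * Uni.CT T) := by
    rw [← sum_filter, ← mul_sum]
    apply mul_le_mul_of_nonneg_left _ (by positivity)
    have h3 := Ew_sum (N := N) (w' := 0) (w := w) (a := 0) (T := T) hN1' (Nat.zero_le _)
      (by rw [WW_zero]; exact one_pos) (by rw [WW_zero]; exact OK_one _ _)
    rw [WW_zero, ← hW] at h3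
    have h4 : Ew N 1 T = N / L ^ j * Uni.CT T := by
      unfold Ew
      rw [gT_one, hTj, ← hL]
      norm_num
    rw [h4] at h3
    refine le_trans (le_of_eq ?_) h3
    apply sum_congr _ (fun _ _ => rfl)
    ext ν
    simp only [mem_filter, Nat.mod_one, true_and]
  rw [← hW, ← hI]
  linarith

/-- `n + t` is prime or has no small prime factor -/
def RT (x : ℝ) (T : Finset ℕ) (n : ℕ) : Prop :=
  ∀ t ∈ T, (n + t).Prime ∨ ∀ p : ℕ, p.Prime → p ∣ n + t → x ^ (1 / 16 : ℝ) ≤ p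

open Classical in
noncomputable def RS (x : ℝ) (T : Finset ℕ) : Finset ℕ := (Icc 1 ⌊x⌋₊).filter (fun n => RT x T n)

open Classical in
theorem nbrR : ∃ c0 : ℝ, 0 < c0 ∧ c0 ≤ 1 ∧ ∀ (j : ℕ) (ε : ℝ), 0 < ε → ε ≤ 1 →
    ∃ K : ℝ, 1 ≤ K ∧ ∃ w0 : ℕ, ∀ w : ℕ, w0 ≤ w → ∀ A : ℝ, 0 ≤ A → ∀ᶠ x : ℝ in atTop,
      ∀ T : Finset ℕ, T.card = j → Uni.CT T ≠ 0 → (∀ t ∈ T, (t : ℝ) ≤ Real.log x ^ A) →
      ∀ u H : ℕ, K * Real.log x ≤ H → ((u + H : ℕ) : ℝ) ≤ Real.log x ^ A → ∀ g : ℕ → ℝ,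
      (∀ h, 0 ≤ g h) → (∀ h, g h ≤ 1) → ∀ S ⊆ RS x T,
        c0 * ((Uni.WW w : ℝ) / Nat.totient (Uni.WW w)) / Real.log x *
          (∑ h ∈ Ioc u (u + H) \ T, g h * ((S.filter (fun n => Nat.Coprime (Uni.WW w) (n + h))).card : ℝ)) -
          ε * (H / Real.log x) * (Uni.CT T * (x / Real.log x ^ j)) ≤
        ∑ h ∈ Ioc u (u + H) \ T, g h * ((S.filter (fun n => APx x (n + h))).card : ℝ) := by
  obtain ⟨c0, hc0, hc1, HN⟩ := nbrN
  refine ⟨c0, hc0, hc1, fun j ε hε hε1 => ?_⟩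
  obtain ⟨c, hc, hlow⟩ := CT_pos_low j
  obtain ⟨η, hη0, hη1, hη⟩ := choose_eta (j + 1) 1 one_pos le_rfl
  obtain ⟨K, hK, w0, H0⟩ := HN j (ε / 4) (by positivity) (by linarith)
  refine ⟨K, hK, w0, fun w hw A hA => ?_⟩
  obtain ⟨N₀, hN₀⟩ := H0 w hw (A + 1) (by linarith)
  obtain ⟨W, hW⟩ : ∃ W, W = Uni.WW w := ⟨_, rfl⟩
  have hWpos : 0 < W := by rw [hW]; exact Uni.WW_pos w
  have hφ1 : (1 : ℝ) ≤ Nat.totient W := by exact_mod_cast Nat.totient_pos.2 hWpos
  have hφ0 : (0 : ℝ) < Nat.totient W := by linarith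
  have hW0 : (0 : ℝ) < W := by exact_mod_cast hWpos
  filter_upwards [ev_real η A hη0 hA (max N₀ 3), ev_19, ev_small (ε * c / (2 * W)) (by positivity) ((j : ℕ) : ℝ)]
    with x h1 h19 hsm
  obtain ⟨a1, a2, a3, a4, a5, a6, a7⟩ := h1
  intro T hTj hCT hTA u H hKH hHA g hg0 hg1 S hS
  have hAP : ∀ m, AP ⌊x⌋₊ m → APx x m := by
    intro m hm
    exact ⟨hm.1, fun p hp hpd => h19.trans (hm.2 p hp hpd)⟩
  rw [Real.rpow_natCast] at hsm
  obtain ⟨N, hN⟩ : ∃ N, N = ⌊x⌋₊ := ⟨_, rfl⟩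
  rw [← hN] at a1 a2 a3 a4 a5 a6 hAP
  set L := Real.log (N : ℝ) with hL
  set l := Real.log x with hl
  have hL0 : 0 < L := by linarith
  have hl0 : 0 < l := by linarith
  have hx0 : 0 < x := by linarith
  have hN0 : (0 : ℝ) < N := by
    have : (3 : ℝ) ≤ N := by exact_mod_cast (le_max_right _ _).trans a1
    linarith
  have hKL : K * L ≤ H := (mul_le_mul_of_nonneg_left a3 (by linarith)).trans hKH
  have hH0 : (0 : ℝ) < H := lt_of_lt_of_le (by positivity) hKL
  obtain ⟨S', hS'⟩ : ∃ S', S' = S.filter (fun n => Nat.sqrt N < n) := ⟨_, rfl⟩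
  have hS'S : S' ⊆ S := by rw [hS']; exact filter_subset _ _
  have hS'Q : S' ⊆ QS N 1 0 T := by
    intro n hn
    rw [hS', mem_filter] at hn
    have h2 := hS hn.1
    unfold RS at h2
    rw [mem_filter, mem_Icc, ← hN] at h2
    unfold QS
    rw [mem_filter, mem_Ioc]
    refine ⟨⟨hn.2, h2.1.2⟩, Nat.mod_one _, fun t ht p hp hpd => ?_⟩
    rcases h2.2 t ht with h3 | h3
    · rw [Nat.prime_dvd_prime_iff_eq hp h3] at hpd
      rw [hpd]
      have h4 : N < n * n := Nat.sqrt_lt.1 hn.2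
      have h5 : (N : ℝ) ≤ (n : ℝ) ^ 2 := by
        rw [sq]; exact_mod_cast h4.le
      have h6 : (n : ℝ) ≤ ((n + t : ℕ) : ℝ) := by push_cast; linarith [Nat.cast_nonneg (α := ℝ) t]
      refine le_trans ?_ h6
      calc (N : ℝ) ^ (1 / 16 : ℝ) ≤ (N : ℝ) ^ (1 / 2 : ℝ) :=
            Real.rpow_le_rpow_of_exponent_le (by
              have : (3 : ℝ) ≤ N := by exact_mod_cast (le_max_right _ _).trans a1
              linarith) (by norm_num)
        _ ≤ ((n : ℝ) ^ 2) ^ (1 / 2 : ℝ) := Real.rpow_le_rpow hN0.le h5 (by norm_num)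
        _ = n := by
            rw [← Real.sqrt_eq_rpow, Real.sqrt_sq (Nat.cast_nonneg _)]
    · exact le_trans (Real.rpow_le_rpow hN0.le a6 (by norm_num)) (h3 p hp hpd)
  have hmain := hN₀ N ((le_max_left _ _).trans a1) T hTj (fun t ht => (hTA t ht).trans a5) u H hKL (hHA.trans a5)
    g hg0 hg1 S' hS'Q
  rw [← hL, ← hW] at hmain
  rw [← hW]
  obtain ⟨I, hI⟩ : ∃ I, I = Ioc u (u + H) \ T := ⟨_, rfl⟩
  rw [← hI] at hmain ⊢
  have hIH : (I.card : ℝ) ≤ H := by
    have h2 : I.card ≤ H := by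
      have h3 := card_le_card (show I ⊆ Ioc u (u + H) by rw [hI]; exact sdiff_subset)
      rw [Nat.card_Ioc] at h3
      omega
    exact_mod_cast h2
  -- right-hand side
  have r1 : ∑ h ∈ I, g h * ((S'.filter (fun n => AP N (n + h))).card : ℝ) ≤
      ∑ h ∈ I, g h * ((S.filter (fun n => APx x (n + h))).card : ℝ) := by
    apply sum_le_sum
    intro h _
    apply mul_le_mul_of_nonneg_left _ (hg0 h)
    have : S'.filter (fun n => AP N (n + h)) ⊆ S.filter (fun n => APx x (n + h)) := by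
      intro n hn
      rw [mem_filter] at hn ⊢
      exact ⟨hS'S hn.1, hAP _ hn.2⟩
    exact_mod_cast card_le_card this
  -- left-hand side
  have r2 : ∑ h ∈ I, g h * ((S.filter (fun n => Nat.Coprime W (n + h))).card : ℝ) ≤
      ∑ h ∈ I, g h * ((S'.filter (fun n => Nat.Coprime W (n + h))).card : ℝ) + H * x ^ (1 / 2 : ℝ) := by
    have h2 : ∀ h ∈ I, g h * ((S.filter (fun n => Nat.Coprime W (n + h))).card : ℝ) ≤
        g h * ((S'.filter (fun n => Nat.Coprime W (n + h))).card : ℝ) + x ^ (1 / 2 : ℝ) := by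
      intro h _
      have h3 : (S.filter (fun n => Nat.Coprime W (n + h))).card ≤
          (S'.filter (fun n => Nat.Coprime W (n + h))).card + Nat.sqrt N := by
        have h4 : S.filter (fun n => Nat.Coprime W (n + h)) ⊆
            S'.filter (fun n => Nat.Coprime W (n + h)) ∪ Icc 1 (Nat.sqrt N) := by
          intro n hn
          rw [mem_filter] at hn
          rw [mem_union, mem_filter, mem_Icc, hS', mem_filter]
          by_cases h5 : Nat.sqrt N < n
          · left; exact ⟨⟨hn.1, h5⟩, hn.2⟩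
          · right
            have h6 := hS hn.1
            unfold RS at h6
            rw [mem_filter, mem_Icc] at h6
            exact ⟨h6.1.1, by omega⟩
        have h5 := (card_le_card h4).trans (card_union_le _ _)
        rwa [Nat.card_Icc, Nat.add_sub_cancel] at h5
      have h4 : ((S.filter (fun n => Nat.Coprime W (n + h))).card : ℝ) ≤
          ((S'.filter (fun n => Nat.Coprime W (n + h))).card : ℝ) + (Nat.sqrt N : ℝ) := by exact_mod_cast h3
      have h5 : (Nat.sqrt N : ℝ) ≤ x ^ (1 / 2 : ℝ) := by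
        rw [← Real.sqrt_eq_rpow]
        exact (Real.nat_sqrt_le_real_sqrt).trans (Real.sqrt_le_sqrt a6)
      have h6 := mul_le_mul_of_nonneg_left (h4.trans (add_le_add le_rfl h5)) (hg0 h)
      rw [mul_add] at h6
      have h7 : g h * x ^ (1 / 2 : ℝ) ≤ x ^ (1 / 2 : ℝ) := mul_le_of_le_one_left (by positivity) (hg1 h)
      linarith
    refine (sum_le_sum h2).trans ?_
    rw [sum_add_distrib, sum_const, nsmul_eq_mul]
    exact add_le_add le_rfl (mul_le_mul_of_nonneg_right hIH (by positivity))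
  obtain ⟨Q, hQ⟩ : ∃ Q, Q = ∑ h ∈ I, g h * ((S.filter (fun n => Nat.Coprime W (n + h))).card : ℝ) := ⟨_, rfl⟩
  obtain ⟨Q', hQ'⟩ : ∃ Q', Q' = ∑ h ∈ I, g h * ((S'.filter (fun n => Nat.Coprime W (n + h))).card : ℝ) := ⟨_, rfl⟩
  rw [← hQ, ← hQ'] at r2
  rw [← hQ'] at hmain
  rw [← hQ]
  have hQ'0 : 0 ≤ Q' := by
    rw [hQ']; exact sum_nonneg fun h _ => mul_nonneg (hg0 h) (Nat.cast_nonneg _)
  have hCTc : c ≤ Uni.CT T := hlow T hTj hCT
  have hxk : (N : ℝ) / L ^ j * (H / L) ≤ 2 * (x / l ^ j * (H / l)) := by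
    have h3 : (N : ℝ) / L ^ (j + 1) ≤ (1 + η) ^ (j + 1) * (x / l ^ (j + 1)) := by
      rw [mul_div_assoc', div_le_div_iff₀ (by positivity) (by positivity)]
      have : l ^ (j + 1) ≤ ((1 + η) * L) ^ (j + 1) := pow_le_pow_left₀ hl0.le a4 _
      calc (N : ℝ) * l ^ (j + 1) ≤ x * ((1 + η) * L) ^ (j + 1) := mul_le_mul a6 this (by positivity) hx0.le
        _ = _ := by rw [mul_pow]; ring
    have h4 : (N : ℝ) / L ^ (j + 1) ≤ 2 * (x / l ^ (j + 1)) := by
      refine h3.trans (mul_le_mul_of_nonneg_right ?_ (by positivity))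
      linarith
    have e1 : (N : ℝ) / L ^ j * (H / L) = N / L ^ (j + 1) * H := by rw [pow_succ]; field_simp
    have e2 : 2 * (x / l ^ j * (H / l)) = 2 * (x / l ^ (j + 1)) * H := by rw [pow_succ]; field_simp
    rw [e1, e2]
    exact mul_le_mul_of_nonneg_right h4 hH0.le
  have f1 : ε / 4 * (H / L) * (N / L ^ j * Uni.CT T) ≤ ε / 2 * (H / l) * (Uni.CT T * (x / l ^ j)) := by
    have h2 := mul_le_mul_of_nonneg_left hxk (show 0 ≤ ε / 4 * Uni.CT T by
      have := Uni.CT_nonneg T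
      positivity)
    calc ε / 4 * (H / L) * (N / L ^ j * Uni.CT T) = ε / 4 * Uni.CT T * (N / L ^ j * (H / L)) := by ring
      _ ≤ ε / 4 * Uni.CT T * (2 * (x / l ^ j * (H / l))) := h2
      _ = _ := by ring
  have f2 : c0 * ((W : ℝ) / Nat.totient W) / l * (H * x ^ (1 / 2 : ℝ)) ≤ ε / 2 * (H / l) * (Uni.CT T * (x / l ^ j)) := by
    have h2 : (W : ℝ) / Nat.totient W ≤ W := div_le_self hW0.le hφ1
    have h3 : c0 * ((W : ℝ) / Nat.totient W) ≤ 1 * W := mul_le_mul hc1 h2 (by positivity) zero_le_one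
    have h4 : x ^ (1 / 2 : ℝ) * l ^ j ≤ ε * c / (2 * W) * x := by
      calc x ^ (1 / 2 : ℝ) * l ^ j ≤ x ^ (1 / 2 : ℝ) * (ε * c / (2 * W) * x ^ (1 / 2 : ℝ)) :=
            mul_le_mul_of_nonneg_left hsm (by positivity)
        _ = ε * c / (2 * W) * (x ^ (1 / 2 : ℝ) * x ^ (1 / 2 : ℝ)) := by ring
        _ = _ := by rw [← Real.rpow_add hx0]; norm_num
    have h5 : W * x ^ (1 / 2 : ℝ) ≤ ε / 2 * (c * (x / l ^ j)) := by
      rw [mul_div_assoc', mul_div_assoc', le_div_iff₀ (by positivity)]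
      calc W * x ^ (1 / 2 : ℝ) * l ^ j = W * (x ^ (1 / 2 : ℝ) * l ^ j) := by ring
        _ ≤ W * (ε * c / (2 * W) * x) := mul_le_mul_of_nonneg_left h4 hW0.le
        _ = _ := by field_simp
    calc c0 * ((W : ℝ) / Nat.totient W) / l * (H * x ^ (1 / 2 : ℝ)) =
        c0 * ((W : ℝ) / Nat.totient W) * (x ^ (1 / 2 : ℝ) * (H / l)) := by ring
      _ ≤ 1 * W * (x ^ (1 / 2 : ℝ) * (H / l)) := mul_le_mul_of_nonneg_right h3 (by positivity)
      _ = (W * x ^ (1 / 2 : ℝ)) * (H / l) := by ring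
      _ ≤ (ε / 2 * (c * (x / l ^ j))) * (H / l) := mul_le_mul_of_nonneg_right h5 (by positivity)
      _ ≤ (ε / 2 * (Uni.CT T * (x / l ^ j))) * (H / l) := by
          apply mul_le_mul_of_nonneg_right _ (by positivity)
          apply mul_le_mul_of_nonneg_left _ (by positivity)
          exact mul_le_mul_of_nonneg_right hCTc (by positivity)
      _ = _ := by ring
  have f3 : c0 * ((W : ℝ) / Nat.totient W) / l * Q ≤ c0 * ((W : ℝ) / Nat.totient W) / L * Q' +
      c0 * ((W : ℝ) / Nat.totient W) / l * (H * x ^ (1 / 2 : ℝ)) := by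
    have h2 := mul_le_mul_of_nonneg_left r2 (show 0 ≤ c0 * ((W : ℝ) / Nat.totient W) / l by positivity)
    rw [mul_add] at h2
    refine h2.trans (add_le_add ?_ le_rfl)
    apply mul_le_mul_of_nonneg_right _ hQ'0
    exact div_le_div_of_nonneg_left (by positivity) hL0 a3
  linarith

open Classical in
/-- **almost primes near almost all rough tuples** -/
theorem nbrF : ∃ c0 : ℝ, 0 < c0 ∧ ∀ (j : ℕ) (ε : ℝ), 0 < ε →
    ∃ K : ℝ, 1 ≤ K ∧ ∀ A : ℝ, 0 ≤ A → ∀ᶠ x : ℝ in atTop,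
      ∀ T : Finset ℕ, T.card = j → Uni.CT T ≠ 0 → (∀ t ∈ T, (t : ℝ) ≤ Real.log x ^ A) →
      ∀ u H : ℕ, K * Real.log x ≤ H → ((u + H : ℕ) : ℝ) ≤ Real.log x ^ A →
        (((RS x T).filter (fun n => (((Ioc u (u + H)).filter (fun h => APx x (n + h))).card : ℝ) <
          c0 * (H / Real.log x))).card : ℝ) ≤ ε * (Uni.CT T * (x / Real.log x ^ j)) := by
  obtain ⟨c0, hc0, hc1, HR⟩ := nbrR
  refine ⟨c0 / 2, by positivity, fun j ε hε => ?_⟩
  obtain ⟨ε', hε'⟩ : ∃ ε' : ℝ, ε' = min 1 (ε * c0 / 4) := ⟨_, rfl⟩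
  have hε'0 : 0 < ε' := by rw [hε']; exact lt_min one_pos (by positivity)
  obtain ⟨K, hK, w, H0⟩ := HR j ε' hε'0 (by rw [hε']; exact min_le_left _ _)
  refine ⟨K, hK, fun A hA => ?_⟩
  obtain ⟨W, hW⟩ : ∃ W, W = Uni.WW w := ⟨_, rfl⟩
  have hWpos : 0 < W := by rw [hW]; exact Uni.WW_pos w
  have hφ0 : (0 : ℝ) < Nat.totient W := by exact_mod_cast Nat.totient_pos.2 hWpos
  have hW0 : (0 : ℝ) < W := by exact_mod_cast hWpos
  filter_upwards [H0 w le_rfl A hA, Real.tendsto_log_atTop.eventually_ge_atTop (max 1 (4 * (W * (1 + j)) : ℝ)),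
    eventually_gt_atTop 0] with x h1 h2 hx0
  intro T hTj hCT hTA u H hKH hHA
  have hl1 : 1 ≤ Real.log x := (le_max_left _ _).trans h2
  have hlW : (4 * (W * (1 + j)) : ℝ) ≤ Real.log x := (le_max_right _ _).trans h2
  set l := Real.log x with hl
  have hl0 : 0 < l := by linarith
  have hlH : l ≤ H := (le_mul_of_one_le_left hl0.le hK).trans hKH
  have hH0 : (0 : ℝ) < H := by linarith
  obtain ⟨B, hB⟩ : ∃ B, B = (RS x T).filter (fun n => (((Ioc u (u + H)).filter (fun h => APx x (n + h))).card : ℝ) <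
          c0 / 2 * (H / l)) := ⟨_, rfl⟩
  rw [← hB]
  have hmain := h1 T hTj hCT hTA u H hKH hHA (fun _ => 1) (fun _ => zero_le_one) (fun _ => le_rfl) B
    (by rw [hB]; exact filter_subset _ _)
  rw [← hW] at hmain
  simp only [one_mul] at hmain
  obtain ⟨I, hI⟩ : ∃ I, I = Ioc u (u + H) \ T := ⟨_, rfl⟩
  rw [← hI] at hmain
  have swap : ∀ (P : ℕ → Prop) [DecidablePred P], ∑ h ∈ I, ((B.filter (fun n => P (n + h))).card : ℝ) =
      ∑ n ∈ B, ((I.filter (fun h => P (n + h))).card : ℝ) := by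
    intro P _
    have e1 : ∀ h ∈ I, ((B.filter (fun n => P (n + h))).card : ℝ) = ∑ n ∈ B, (if P (n + h) then (1 : ℝ) else 0) := by
      intro h _; rw [sum_boole]
    have e2 : ∀ n ∈ B, ((I.filter (fun h => P (n + h))).card : ℝ) = ∑ h ∈ I, (if P (n + h) then (1 : ℝ) else 0) := by
      intro n _; rw [sum_boole]
    rw [sum_congr rfl e1, sum_congr rfl e2, sum_comm]
  rw [swap (fun m => Nat.Coprime W m), swap (fun m => APx x m)] at hmain
  have r1 : ∑ n ∈ B, ((I.filter (fun h => APx x (n + h))).card : ℝ) ≤ B.card * (c0 / 2 * (H / l)) := by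
    rw [← nsmul_eq_mul, ← sum_const]
    apply sum_le_sum
    intro n hn
    rw [hB, mem_filter] at hn
    refine le_trans ?_ hn.2.le
    have : I.filter (fun h => APx x (n + h)) ⊆ (Ioc u (u + H)).filter (fun h => APx x (n + h)) := by
      apply filter_subset_filter
      rw [hI]; exact sdiff_subset
    exact_mod_cast card_le_card this
  have r2 : (B.card : ℝ) * ((Nat.totient W : ℝ) / W * (3 / 4 * H)) ≤
      ∑ n ∈ B, ((I.filter (fun h => Nat.Coprime W (n + h))).card : ℝ) := by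
    rw [← nsmul_eq_mul, ← sum_const]
    apply sum_le_sum
    intro n _
    have h3 := cop_low W n u H hWpos
    have h4 : (((Ioc u (u + H)).filter (fun a => Nat.Coprime W (n + a))).card : ℝ) ≤
        ((I.filter (fun h => Nat.Coprime W (n + h))).card : ℝ) + j := by
      have h5 : (Ioc u (u + H)).filter (fun a => Nat.Coprime W (n + a)) ⊆
          I.filter (fun h => Nat.Coprime W (n + h)) ∪ T := by
        intro a ha
        rw [mem_filter] at ha
        rw [mem_union, mem_filter, hI, Finset.mem_sdiff]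
        by_cases haT : a ∈ T
        · right; exact haT
        · left; exact ⟨⟨ha.1, haT⟩, ha.2⟩
      have h6 := (card_le_card h5).trans (card_union_le _ _)
      rw [hTj] at h6
      exact_mod_cast h6
    have h5 : (Nat.totient W : ℝ) / W * (3 / 4 * H) ≤ (Nat.totient W : ℝ) * (H / W - 1) - j := by
      have e1 : (Nat.totient W : ℝ) * (H / W - 1) - j = (Nat.totient W : ℝ) / W * H - (Nat.totient W : ℝ) / W * W -
          (Nat.totient W : ℝ) / W * (j * (W / Nat.totient W)) := by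
        field_simp
      have h6 : (W : ℝ) / Nat.totient W ≤ W := div_le_self hW0.le (by exact_mod_cast Nat.totient_pos.2 hWpos)
      have h7 : (j : ℝ) * (W / Nat.totient W) ≤ j * W := mul_le_mul_of_nonneg_left h6 (Nat.cast_nonneg _)
      have h8 : (3 / 4 : ℝ) * H ≤ H - W - j * (W / Nat.totient W) := by
        have : (W * (1 + j) : ℝ) ≤ H / 4 := by linarith
        have e : (W : ℝ) * (1 + j) = W + j * W := by ring
        linarith
      have h9 := mul_le_mul_of_nonneg_left h8 (show 0 ≤ (Nat.totient W : ℝ) / W by positivity)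
      rw [e1]
      linarith
    linarith
  have r3 := mul_le_mul_of_nonneg_left r2 (show 0 ≤ c0 * ((W : ℝ) / Nat.totient W) / l by positivity)
  have e1 : c0 * ((W : ℝ) / Nat.totient W) / l * ((B.card : ℝ) * ((Nat.totient W : ℝ) / W * (3 / 4 * H))) =
      3 / 4 * (c0 * (H / l) * B.card) := by
    field_simp
  rw [e1] at r3
  obtain ⟨F, hF⟩ : ∃ F, F = Uni.CT T * (x / l ^ j) := ⟨_, rfl⟩
  have hF0 : 0 ≤ F := by
    rw [hF]
    have := Uni.CT_nonneg T
    positivity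
  rw [← hF] at hmain ⊢
  have hε'le : ε' ≤ ε * c0 / 4 := by rw [hε']; exact min_le_right _ _
  have r4 : c0 * (H / l) * B.card * (1 / 4) ≤ ε * c0 / 4 * (H / l) * F := by
    have h3 : ε' * (H / l) * F ≤ ε * c0 / 4 * (H / l) * F := by
      apply mul_le_mul_of_nonneg_right _ hF0
      exact mul_le_mul_of_nonneg_right hε'le (by positivity)
    have e2 : (B.card : ℝ) * (c0 / 2 * (H / l)) = 1 / 2 * (c0 * (H / l) * B.card) := by ring
    rw [e2] at r1
    linarith
  have r5 : (c0 * (H / l) / 4) * (B.card : ℝ) ≤ (c0 * (H / l) / 4) * (ε * F) := by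
    calc (c0 * (H / l) / 4) * (B.card : ℝ) = c0 * (H / l) * B.card * (1 / 4) := by ring
      _ ≤ _ := r4
      _ = _ := by ring
  exact le_of_mul_le_mul_left r5 (by positivity)

end Pool.Agent.L0h43.TD
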