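import Pool.Agent.Y882.GW.Wt
import Pool.Agent.L0h43.TB.BDh
import Pool.Agent.L0h43.TD.LInd2

/-!
# Pairs in a class: the singular series of a pair, upper bounds
-/

set_option autoImplicit false

namespace Pool.Agent.L0h43.TD

open Finset Filter Topology Pool.Agent.H387R2
open Pool.Agent.L0h43.TA Pool.Agent.L0h43.TB
open Pool.Agent.H386R2.HL
open Pool.Agent.Y882 (sgs)

lemma sgs_low {q : ℕ} (hq : 0 < q) (hqe : Even q) : (1 / 2 : ℝ) * ((q : ℝ) / Nat.totient q) ≤ sgs q := by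
  rw [div_totient hq]
  have h2 : 2 ∈ q.primeFactors := Nat.mem_primeFactors.2 ⟨Nat.prime_two, hqe.two_dvd, hq.ne'⟩
  rw [← mul_prod_erase _ _ h2]
  have e : (1 - 1 / ((2 : ℕ) : ℝ))⁻¹ = 2 := by norm_num
  rw [e, ← mul_assoc, show (1 / 2 : ℝ) * 2 = 1 by norm_num, one_mul]
  unfold sgs
  apply Finset.prod_le_prod
  · intro p hp
    rw [mem_erase] at hp
    have hpp := (Nat.mem_primeFactors.1 hp.2).1
    have h1 : (1 : ℝ) < p := by exact_mod_cast hpp.one_lt
    rw [inv_nonneg, sub_nonneg, one_div]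
    exact inv_le_one_of_one_le₀ h1.le
  · intro p hp
    rw [mem_erase] at hp
    have hpp := (Nat.mem_primeFactors.1 hp.2).1
    have h3 : 3 ≤ p := by
      have := hpp.two_le
      have := hp.1
      omega
    have h3R : (3 : ℝ) ≤ p := by exact_mod_cast h3
    have e1 : (1 - 1 / (p : ℝ))⁻¹ = p / (p - 1) := by
      have : (p : ℝ) ≠ 0 := by linarith
      have : (p : ℝ) - 1 ≠ 0 := by linarith
      field_simp
    rw [e1, div_le_div_iff₀ (by linarith) (by linarith)]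
    nlinarith

lemma loc_pair_up {a b p : ℕ} (hab : a ≠ b) (hp3 : 3 ≤ p) :
    Uni.locT {a, b} p ≤ (if p ∣ ds a b then (1 - 1 / (p : ℝ))⁻¹ else 1) := by
  have hp0 : (3 : ℝ) ≤ p := by exact_mod_cast hp3
  have hcard : ({a, b} : Finset ℕ).card = 2 := card_pair hab
  unfold Uni.locT Uni.nuT
  rw [hcard, image_insert, image_singleton]
  have h1 : 0 < 1 - 1 / (p : ℝ) := by
    rw [sub_pos, div_lt_one (by linarith)]; linarith
  by_cases h : p ∣ ds a b
  · rw [if_pos h]
    have h3 : a % p = b % p := ds_dvd.1 h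
    rw [h3, pair_eq_singleton, card_singleton, Nat.cast_one]
    rw [pow_two, div_mul_cancel_left₀ h1.ne']
  · rw [if_neg h]
    have h3 : a % p ≠ b % p := fun hh => h (ds_dvd.2 hh)
    rw [card_pair h3]
    push_cast
    rw [div_le_one (by positivity)]
    have e : (1 - 1 / (p : ℝ)) ^ 2 = 1 - 2 / p + (1 / (p : ℝ)) ^ 2 := by ring
    rw [e]
    have : 0 ≤ (1 / (p : ℝ)) ^ 2 := by positivity
    linarith

lemma CT_pair_up {w a b : ℕ} (hab : a ≠ b) (hw : 4 ≤ w) (hg : 0 < Uni.gT (Uni.WW w) {a, b}) :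
    Uni.CT {a, b} / Uni.gT (Uni.WW w) {a, b} ≤
      (((Uni.WW w * ds a b : ℕ) : ℝ) / Nat.totient (Uni.WW w * ds a b)) / Nat.totient (Uni.WW w) := by
  classical
  obtain ⟨W, hW⟩ : ∃ W, W = Uni.WW w := ⟨_, rfl⟩
  have hWpos : 0 < W := by rw [hW]; exact Uni.WW_pos w
  have hW0 : (0 : ℝ) < W := by exact_mod_cast hWpos
  have hφ0 : (0 : ℝ) < Nat.totient W := by exact_mod_cast Nat.totient_pos.2 hWpos
  have hds := ds_pos hab
  have hcard : ({a, b} : Finset ℕ).card = 2 := card_pair hab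
  have hg0 : (0 : ℝ) < Uni.gT (Uni.WW w) {a, b} := by exact_mod_cast hg
  obtain ⟨y, hy⟩ : ∃ y, y = w + ds a b + ({a, b} : Finset ℕ).sup id := ⟨_, rfl⟩
  have hyw : w ≤ y := by omega
  have h1 := Uni.CT_le {a, b} y (K := 1) le_rfl (M := ({a, b} : Finset ℕ).sup id)
      (fun t ht => le_sup (f := id) ht) (by
      intro n _ hn
      unfold tt
      apply le_of_eq
      apply prod_eq_one
      intro p hp
      exfalso
      rw [mem_filter, Nat.mem_primeFactors] at hp
      have := Nat.le_of_dvd (by omega) hp.1.2.1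
      omega)
  rw [one_pow, one_mul, ← Uni.sy_en] at h1
  obtain ⟨sY, hsY⟩ : ∃ sY, sY = sy (Uni.en {a, b}) y := ⟨_, rfl⟩
  obtain ⟨sw, hsw⟩ : ∃ sw, sw = sy (Uni.en {a, b}) w := ⟨_, rfl⟩
  rw [← hsY] at h1
  -- split the product
  obtain ⟨S, hS⟩ : ∃ S, S = ((y + 1).primesBelow).filter (fun p => w < p) := ⟨_, rfl⟩
  have hsplit : (y + 1).primesBelow = (w + 1).primesBelow ∪ S := by
    rw [hS]
    ext p
    simp only [mem_union, Nat.mem_primesBelow, mem_filter]
    constructor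
    · rintro ⟨c1, c2⟩
      rcases Nat.lt_or_ge w p with h | h
      · right; exact ⟨⟨c1, c2⟩, h⟩
      · left; exact ⟨by omega, c2⟩
    · rintro (⟨c1, c2⟩ | ⟨⟨c1, c2⟩, _⟩)
      · exact ⟨by omega, c2⟩
      · exact ⟨c1, c2⟩
  have hdis : Disjoint ((w + 1).primesBelow) S := by
    rw [disjoint_left, hS]
    intro p hp hp2
    rw [Nat.mem_primesBelow] at hp
    have := (mem_filter.1 hp2).2
    omega
  have e1 : sY = sw * ∏ p ∈ S, Uni.locT {a, b} p := by
    rw [hsY, hsw]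
    unfold sy
    rw [hsplit, prod_union hdis]
    congr 1
    apply prod_congr rfl
    intro p _
    rw [Uni.loc_en]
  have e2 := Uni.sy_en {a, b} w
  rw [← hsw, hcard, ← hW] at e2
  -- the large primes
  obtain ⟨F, hF⟩ : ∃ F, F = (ds a b).primeFactors.filter (fun p => w < p) := ⟨_, rfl⟩
  have hFS : F = S.filter (fun p => p ∣ ds a b) := by
    rw [hF, hS]
    ext p
    simp only [mem_filter, Nat.mem_primeFactors, Nat.mem_primesBelow]
    constructor
    · rintro ⟨⟨c1, c2, c3⟩, c4⟩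
      have := Nat.le_of_dvd (by omega) c2
      exact ⟨⟨⟨by omega, c1⟩, c4⟩, c2⟩
    · rintro ⟨⟨⟨c1, c2⟩, c3⟩, c4⟩
      exact ⟨⟨c2, c4, by omega⟩, c3⟩
  have hSp : ∀ p ∈ S, p.Prime ∧ w < p := by
    intro p hp
    rw [hS, mem_filter, Nat.mem_primesBelow] at hp
    exact ⟨hp.1.2, hp.2⟩
  have h2 : ∏ p ∈ S, Uni.locT {a, b} p ≤ ∏ p ∈ F, (1 - 1 / (p : ℝ))⁻¹ := by
    have h3 : ∏ p ∈ S, Uni.locT {a, b} p ≤ ∏ p ∈ S, (if p ∣ ds a b then (1 - 1 / (p : ℝ))⁻¹ else 1) := by
      apply Finset.prod_le_prod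
      · intro p hp
        rw [← Uni.loc_en]
        exact localFactor_nonneg _ (hSp p hp).1
      · intro p hp
        have h4 := hSp p hp
        exact loc_pair_up hab (by omega)
    refine h3.trans (le_of_eq ?_)
    rw [hFS, prod_filter]
  have e3 : (((W * ds a b : ℕ) : ℝ) / Nat.totient (W * ds a b)) = (W : ℝ) / Nat.totient W *
      ∏ p ∈ F, (1 - 1 / (p : ℝ))⁻¹ := by
    rw [div_totient (Nat.mul_pos hWpos hds), div_totient hWpos, Nat.primeFactors_mul hWpos.ne' (by omega)]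
    have h5 : W.primeFactors ∪ (ds a b).primeFactors = W.primeFactors ∪ F := by
      rw [hF, hW, primeFactors_WW]
      ext p
      simp only [mem_union, Nat.mem_primesBelow, mem_filter, Nat.mem_primeFactors]
      constructor
      · rintro (c | ⟨c1, c2, c3⟩)
        · left; exact c
        · rcases Nat.lt_or_ge w p with h | h
          · right; exact ⟨⟨c1, c2, c3⟩, h⟩
          · left; exact ⟨by omega, c1⟩
      · rintro (c | ⟨c, _⟩)
        · left; exact c
        · right; exact c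
    have h6 : Disjoint W.primeFactors F := by
      rw [disjoint_left, hF, hW, primeFactors_WW]
      intro p hp hp2
      rw [Nat.mem_primesBelow] at hp
      have := (mem_filter.1 hp2).2
      omega
    rw [h5, prod_union h6]
  rw [← hW] at hg0 ⊢
  rw [e3]
  obtain ⟨Pw, hPw⟩ : ∃ Pw, Pw = ∏ p ∈ F, (1 - 1 / (p : ℝ))⁻¹ := ⟨_, rfl⟩
  rw [← hPw] at h2 ⊢
  have hsw0 : 0 ≤ sw := by rw [hsw]; exact sy_nonneg _ _
  have h3 : Uni.CT {a, b} ≤ sw * Pw := by
    refine h1.trans ?_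
    rw [e1]
    exact mul_le_mul_of_nonneg_left h2 hsw0
  rw [div_le_iff₀ hg0]
  refine h3.trans (le_of_eq ?_)
  rw [e2]
  field_simp

end Pool.Agent.L0h43.TD
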