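import Pool.Agent.L0h43.TD.Scale

/-!
# Squares of medium primes
-/

set_option autoImplicit false

namespace Pool.Agent.L0h43.TD

open Finset Filter Topology Pool.Agent.H387R2
open Pool.Agent.L0h43.TA Pool.Agent.L0h43.TB

/-- divisible by the square of a medium prime -/
def SQ (N m : ℕ) : Prop := ∃ p : ℕ, p.Prime ∧ (N : ℝ) ^ (3 / 25 : ℝ) ≤ p ∧ (p : ℝ) < (N : ℝ) ^ (47 / 100 : ℝ) ∧
  p ^ 2 ∣ m

open Classical in
lemma sq_few {N : ℕ} (hN1 : 1 ≤ N) (hN : (4 : ℝ) ≤ (N : ℝ) ^ (3 / 25 : ℝ)) (h : ℕ) :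
    (((Ioc 0 N).filter (fun n => SQ N (n + h))).card : ℝ) ≤ 3 * (N : ℝ) ^ (22 / 25 : ℝ) := by
  have hNR : (1 : ℝ) ≤ N := by exact_mod_cast hN1
  have hN0 : (0 : ℝ) < N := by linarith
  obtain ⟨k, hk⟩ : ∃ k : ℕ, k = ⌊(N : ℝ) ^ (3 / 25 : ℝ)⌋₊ := ⟨_, rfl⟩
  obtain ⟨M, hM⟩ : ∃ M : ℕ, M = ⌊(N : ℝ) ^ (47 / 100 : ℝ)⌋₊ := ⟨_, rfl⟩
  have hk1 : (N : ℝ) ^ (3 / 25 : ℝ) < k + 1 := by rw [hk]; exact Nat.lt_floor_add_one _
  have hk4 : 4 ≤ k := by rw [hk]; exact Nat.le_floor (by exact_mod_cast hN)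
  have hMle : (M : ℝ) ≤ (N : ℝ) ^ (47 / 100 : ℝ) := by rw [hM]; exact Nat.floor_le (by positivity)
  obtain ⟨S, hS⟩ : ∃ S : Finset ℕ, S = (Ioc (k - 1) M).filter Nat.Prime := ⟨_, rfl⟩
  have h2 : (Ioc 0 N).filter (fun n => SQ N (n + h)) ⊆
      S.biUnion (fun p => (Ioc 0 N).filter (fun n => p ^ 2 ∣ n + h)) := by
    intro n hn
    rw [mem_filter] at hn
    obtain ⟨hn, p, hp, hp1, hp2, hd⟩ := hn
    rw [mem_biUnion]
    refine ⟨p, ?_, mem_filter.2 ⟨hn, hd⟩⟩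
    rw [hS, mem_filter, mem_Ioc]
    refine ⟨⟨?_, ?_⟩, hp⟩
    · have := Nat.floor_le_floor hp1
      rw [Nat.floor_natCast, ← hk] at this
      omega
    · rw [hM]
      exact Nat.le_floor hp2.le
  have h3 : (((Ioc 0 N).filter (fun n => SQ N (n + h))).card : ℝ) ≤
      ∑ p ∈ S, (((Ioc 0 N).filter (fun n => p ^ 2 ∣ n + h)).card : ℝ) := by
    exact_mod_cast (card_le_card h2).trans card_biUnion_le
  refine h3.trans ?_
  have h4 : ∀ p ∈ S, (((Ioc 0 N).filter (fun n => p ^ 2 ∣ n + h)).card : ℝ) ≤ N * ((p : ℝ) ^ 2)⁻¹ + 1 := by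
    intro p hp
    rw [hS, mem_filter] at hp
    have e1 : ((Ioc 0 N).filter (fun n => p ^ 2 ∣ n + h)).card ≤
        ((Ioc h (h + N)).filter (fun n => p ^ 2 ∣ n)).card := by
      apply card_le_card_of_injOn (fun n => n + h)
      · intro n hn
        rw [mem_coe, mem_filter, mem_Ioc] at hn
        rw [mem_coe, mem_filter, mem_Ioc]
        obtain ⟨⟨a1, a2⟩, a3⟩ := hn
        refine ⟨?_, a3⟩
        show h < n + h ∧ n + h ≤ h + N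
        constructor <;> omega
      · intro a _ b _ hab
        simp only at hab
        omega
    have e2 := Pool.Agent.Y879.AP.card_mult h N (p ^ 2) (pow_pos hp.2.pos 2)
    push_cast at e2
    have e3 : (((Ioc 0 N).filter (fun n => p ^ 2 ∣ n + h)).card : ℝ) ≤
        ((Ioc h (h + N)).filter (fun n => p ^ 2 ∣ n)).card := by exact_mod_cast e1
    rw [div_eq_mul_inv] at e2
    exact e3.trans e2
  refine (sum_le_sum h4).trans ?_
  rw [sum_add_distrib, ← mul_sum, sum_const, nsmul_eq_mul, mul_one]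
  have h5 : ∑ p ∈ S, ((p : ℝ) ^ 2)⁻¹ ≤ ∑ p ∈ Ioc (k - 1) (max (k - 1) M), ((p : ℝ) ^ 2)⁻¹ := by
    apply sum_le_sum_of_subset_of_nonneg
    · intro p hp
      rw [hS, mem_filter, mem_Ioc] at hp
      rw [mem_Ioc]
      exact ⟨hp.1.1, hp.1.2.trans (le_max_right _ _)⟩
    · intro p _ _
      positivity
  have h6 := sum_Ioc_inv_sq_le_sub (α := ℝ) (k := k - 1) (n := max (k - 1) M) (by omega) (le_max_left _ _)
  have h7 : (0 : ℝ) ≤ ((max (k - 1) M : ℕ) : ℝ)⁻¹ := by positivity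
  have h8 : ((k - 1 : ℕ) : ℝ)⁻¹ ≤ 2 / (N : ℝ) ^ (3 / 25 : ℝ) := by
    have e8 : ((k - 1 : ℕ) : ℝ) = (k : ℝ) - 1 := by
      rw [Nat.cast_sub (by omega)]
      simp
    have e9 : (4 : ℝ) ≤ k := by exact_mod_cast hk4
    rw [e8, inv_eq_one_div, div_le_div_iff₀ (by linarith) (by linarith)]
    linarith
  have h9 : ∑ p ∈ S, ((p : ℝ) ^ 2)⁻¹ ≤ 2 / (N : ℝ) ^ (3 / 25 : ℝ) := by linarith
  have h10 : (S.card : ℝ) ≤ (N : ℝ) ^ (47 / 100 : ℝ) := by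
    refine le_trans ?_ hMle
    have : S.card ≤ M := by
      have := card_filter_le (Ioc (k - 1) M) Nat.Prime
      rw [← hS, Nat.card_Ioc] at this
      omega
    exact_mod_cast this
  have h11 : (N : ℝ) ^ (47 / 100 : ℝ) ≤ (N : ℝ) ^ (22 / 25 : ℝ) :=
    Real.rpow_le_rpow_of_exponent_le hNR (by norm_num)
  have h12 : (N : ℝ) * (2 / (N : ℝ) ^ (3 / 25 : ℝ)) = 2 * (N : ℝ) ^ (22 / 25 : ℝ) := by
    have e : (N : ℝ) = (N : ℝ) ^ (22 / 25 : ℝ) * (N : ℝ) ^ (3 / 25 : ℝ) := by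
      rw [← Real.rpow_add hN0]; norm_num
    have e0 : (N : ℝ) ^ (3 / 25 : ℝ) ≠ 0 := by positivity
    calc (N : ℝ) * (2 / (N : ℝ) ^ (3 / 25 : ℝ)) =
        ((N : ℝ) ^ (22 / 25 : ℝ) * (N : ℝ) ^ (3 / 25 : ℝ)) * (2 / (N : ℝ) ^ (3 / 25 : ℝ)) := by rw [← e]
      _ = _ := by field_simp
  have h13 := mul_le_mul_of_nonneg_left h9 hN0.le
  rw [h12] at h13
  linarith

end Pool.Agent.L0h43.TD
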