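import Pool.Agent.L0h43.TD.PLa
import Pool.Agent.L0h43.TD.Sq

/-!
# Pairs in a class: a prime and an almost prime, the sums
-/

set_option autoImplicit false

namespace Pool.Agent.L0h43.TD

open Finset Filter Topology Pool.Agent.H387R2
open Pool.Agent.L0h43.TA Pool.Agent.L0h43.TB
open Pool.Agent.Helper923.PPS (PP PP_squarefree prime_dvd_PP dvd_PP_of_squarefree coprime_of_dvd_PP)

/-- the `n ≡ ν` with `n + a` prime -/
def P1 (N W ν a : ℕ) : Finset ℕ :=
  (Ioc (Nat.sqrt N) N).filter (fun n => n % W = ν ∧ (n + a).Prime)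

lemma low_sum {N w ν a b D : ℕ} (c Wt : ℕ → ℝ)
    (hWt : ∀ m : ℕ, m ≠ 0 → ∑ d ∈ m.divisors, c d ≤ Wt m) (hc : ∀ d, c d ≠ 0 → d ≤ D)
    (hsmall : ds a b ≤ Nat.sqrt N) (hds : 0 < ds a b) (hcop : Nat.Coprime (Uni.WW w) (ν + b)) :
    ∑ d ∈ (Icc 1 D).filter (fun d => Nat.Coprime (Uni.WW w * ds a b) d),
      c d * (((P1 N (Uni.WW w) ν a).filter (fun n => d ∣ n + b)).card : ℝ) ≤
      ∑ n ∈ P1 N (Uni.WW w) ν a, Wt (n + b) := by
  classical
  obtain ⟨F, hF⟩ : ∃ F, F = (Icc 1 D).filter (fun d => Nat.Coprime (Uni.WW w * ds a b) d) := ⟨_, rfl⟩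
  rw [← hF]
  have e1 : ∑ d ∈ F, c d * (((P1 N (Uni.WW w) ν a).filter (fun n => d ∣ n + b)).card : ℝ) =
      ∑ n ∈ P1 N (Uni.WW w) ν a, ∑ d ∈ F, (if d ∣ n + b then c d else 0) := by
    rw [sum_comm]
    apply sum_congr rfl
    intro d _
    rw [← sum_filter, sum_const, nsmul_eq_mul, mul_comm]
  rw [e1]
  apply sum_le_sum
  intro n hn
  unfold P1 at hn
  rw [mem_filter, mem_Ioc] at hn
  obtain ⟨⟨hn1, hn2⟩, hn3, hn4⟩ := hn
  refine le_trans (le_of_eq ?_) (hWt (n + b) (by omega))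
  rw [← sum_filter]
  apply sum_subset
  · intro d hd
    rw [mem_filter] at hd
    rw [Nat.mem_divisors]
    exact ⟨hd.2, by omega⟩
  · intro d hd hd2
    by_contra hcd
    apply hd2
    have hdn := Nat.dvd_of_mem_divisors hd
    have hd0 : 0 < d := Nat.pos_of_mem_divisors hd
    rw [mem_filter, hF, mem_filter, mem_Icc]
    refine ⟨⟨⟨hd0, hc d hcd⟩, ?_⟩, hdn⟩
    rw [Nat.coprime_iff_gcd_eq_one]
    by_contra hne
    obtain ⟨p, hp, hpd⟩ := Nat.exists_prime_and_dvd hne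
    have h1 : p ∣ Uni.WW w * ds a b := hpd.trans (Nat.gcd_dvd_left _ _)
    have h2 : p ∣ n + b := (hpd.trans (Nat.gcd_dvd_right _ _)).trans hdn
    rcases (hp.dvd_mul).1 h1 with h3 | h3
    · have h4 := (cop_shift hn3).1 hcop
      have h5 := Nat.dvd_gcd h3 h2
      rw [Nat.coprime_iff_gcd_eq_one.1 h4] at h5
      exact hp.one_lt.ne' (Nat.dvd_one.1 h5)
    · have h4 : a % p = b % p := ds_dvd.1 h3
      have h5 : n + a ≡ n + b [MOD p] := Nat.ModEq.add_left n h4
      have h6 : p ∣ n + a := (Nat.modEq_zero_iff_dvd.1 (h5.trans (Nat.modEq_zero_iff_dvd.2 h2)))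
      rw [Nat.prime_dvd_prime_iff_eq hp hn4] at h6
      have h7 := Nat.le_of_dvd hds h3
      omega

lemma multSum_card {N W ν a b R d : ℕ} (hq : Even (W * ds a b)) :
    |(((P1 N W ν a).filter (fun n => d ∣ n + b)).card : ℝ) - (bs N W ν a b R (W * ds a b) hq).multSum d| ≤
      (Nat.sqrt N : ℝ) := by
  classical
  have e : (bs N W ν a b R (W * ds a b) hq).multSum d =
      (((Icc (1 + b) (N + b)).filter (fun m => d ∣ m ∧ (m - b) % W = ν ∧ (m - b + a).Prime)).card : ℝ) := by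
    unfold BoundingSieve.multSum
    rw [card_filter]
    push_cast
    apply sum_congr rfl
    intro m _
    change (if d ∣ m then (if (m - b) % W = ν ∧ (m - b + a).Prime then (1 : ℝ) else 0) else 0) = _
    by_cases h1 : d ∣ m
    · by_cases h2 : (m - b) % W = ν ∧ (m - b + a).Prime
      · rw [if_pos h1, if_pos h2, if_pos ⟨h1, h2⟩]
      · rw [if_pos h1, if_neg h2, if_neg (fun h => h2 h.2)]
    · rw [if_neg h1, if_neg (fun h => h1 h.1)]
  rw [e]
  obtain ⟨A, hA⟩ : ∃ A, A = (P1 N W ν a).filter (fun n => d ∣ n + b) := ⟨_, rfl⟩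
  obtain ⟨B, hB⟩ : ∃ B, B = (Icc (1 + b) (N + b)).filter (fun m => d ∣ m ∧ (m - b) % W = ν ∧ (m - b + a).Prime) := ⟨_, rfl⟩
  rw [← hA, ← hB]
  have h1 : A.card ≤ B.card := by
    apply card_le_card_of_injOn (fun n => n + b)
    · intro n hn
      rw [hA, mem_coe, mem_filter] at hn
      unfold P1 at hn
      rw [mem_filter, mem_Ioc] at hn
      rw [hB, mem_coe]
      change n + b ∈ _
      rw [mem_filter, mem_Icc, Nat.add_sub_cancel]
      exact ⟨⟨by omega, by omega⟩, hn.2, hn.1.2.1, hn.1.2.2⟩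
    · intro x _ y _ hxy
      simp only at hxy
      omega
  have h2 : B ⊆ A.image (fun n => n + b) ∪ (Icc 1 (Nat.sqrt N)).image (fun n => n + b) := by
    intro m hm
    rw [hB, mem_filter, mem_Icc] at hm
    rw [mem_union, mem_image, mem_image]
    by_cases h3 : Nat.sqrt N < m - b
    · left
      refine ⟨m - b, ?_, by omega⟩
      rw [hA, mem_filter]
      unfold P1
      rw [mem_filter, mem_Ioc]
      have e1 : m - b + b = m := by omega
      rw [e1]
      exact ⟨⟨⟨h3, by omega⟩, hm.2.2.1, hm.2.2.2⟩, hm.2.1⟩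
    · right
      refine ⟨m - b, ?_, by omega⟩
      rw [mem_Icc]
      omega
  have h3 : B.card ≤ A.card + Nat.sqrt N := by
    refine (card_le_card h2).trans ((card_union_le _ _).trans ?_)
    apply Nat.add_le_add card_image_le
    refine card_image_le.trans ?_
    rw [Nat.card_Icc, Nat.add_sub_cancel]
  have h1' : (A.card : ℝ) ≤ B.card := by exact_mod_cast h1
  have h3' : (B.card : ℝ) ≤ A.card + Nat.sqrt N := by exact_mod_cast h3
  rw [abs_le]
  constructor <;> linarith [Nat.cast_nonneg (α := ℝ) (Nat.sqrt N)]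

/-- the lower bound with the theorem of Bombieri and Vinogradov -/
lemma low_main {N w ν a b D x : ℕ} {Lam : ℝ} (c M : ℕ → ℝ) (hM : ∀ q, 0 ≤ M q)
    (hc : ∀ d, c d ≠ 0 → Squarefree d ∧ d ≤ D) (hLam : ∀ d, |c d| ≤ Lam) (hx : x = N + a)
    (hqe : Even (Uni.WW w * ds a b)) (hν : ν < Uni.WW w) (hcopa : Nat.Coprime (Uni.WW w) (ν + a))
    (hMd : ∀ d c' : ℕ, 0 < d → d ≤ D → c'.Coprime (Uni.WW w * d) →
      |H343E.piAP x (Uni.WW w * d) c' - H343E.pi1 x / Nat.totient (Uni.WW w * d)| ≤ M (Uni.WW w * d))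
    (hDx : ∀ d : ℕ, d ≤ D → Uni.WW w * d ≤ x) :
    H343E.pi1 x / Nat.totient (Uni.WW w) * ∑ d ∈ (Icc 1 D).filter (fun d => Nat.Coprime (Uni.WW w * ds a b) d),
      c d * (1 / (Nat.totient d : ℝ)) - Lam * (∑ e ∈ Icc 1 x, M e + D * (a + Nat.sqrt N)) ≤
    ∑ d ∈ (Icc 1 D).filter (fun d => Nat.Coprime (Uni.WW w * ds a b) d),
      c d * (((P1 N (Uni.WW w) ν a).filter (fun n => d ∣ n + b)).card : ℝ) := by
  classical
  obtain ⟨W, hW⟩ : ∃ W, W = Uni.WW w := ⟨_, rfl⟩
  have hWpos : 0 < W := by rw [hW]; exact Uni.WW_pos w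
  rw [← hW] at hqe hν hcopa hMd hDx ⊢
  have hLam0 : 0 ≤ Lam := (abs_nonneg _).trans (hLam 0)
  obtain ⟨F, hF⟩ : ∃ F, F = (Icc 1 D).filter (fun d => Nat.Coprime (W * ds a b) d) := ⟨_, rfl⟩
  rw [← hF]
  obtain ⟨X, hX⟩ : ∃ X, X = H343E.pi1 x / Nat.totient W := ⟨_, rfl⟩
  rw [← hX]
  have h1 : ∀ d ∈ F, X * (c d * (1 / (Nat.totient d : ℝ))) - Lam * (M (W * d) + (a + Nat.sqrt N)) ≤
      c d * (((P1 N W ν a).filter (fun n => d ∣ n + b)).card : ℝ) := by
    intro d hd
    rw [hF, mem_filter, mem_Icc] at hd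
    by_cases hcd : c d = 0
    · rw [hcd, zero_mul, zero_mul, mul_zero, zero_sub]
      have := hM (W * d)
      have : 0 ≤ Lam * (M (W * d) + (a + Nat.sqrt N)) := by positivity
      linarith
    · obtain ⟨hsq, hdD⟩ := hc d hcd
      have hdP : d ∣ PP (W * ds a b) D := dvd_PP_of_squarefree hsq hdD hd.2.symm
      obtain ⟨c', hc1, hc2⟩ := bs_rem (N := N) (R := D) hqe hν hcopa hdP
      have h3 := hMd d c' (by omega) hdD hc1
      rw [← hx] at hc2
      have h4 := multSum_card (N := N) (ν := ν) (R := D) (d := d) hqe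
      obtain ⟨Bd, hBd⟩ : ∃ Bd : ℝ, Bd = (((P1 N W ν a).filter (fun n => d ∣ n + b)).card : ℝ) := ⟨_, rfl⟩
      rw [← hBd] at h4 ⊢
      have e1 : (bs N W ν a b D (W * ds a b) hqe).rem d = (bs N W ν a b D (W * ds a b) hqe).multSum d -
          X * (1 / (Nat.totient d : ℝ)) := by
        unfold BoundingSieve.rem
        change _ - ((Nat.totient d : ℕ) : ℝ)⁻¹ * (H343E.pi1 (N + a) / Nat.totient W) = _
        rw [hX, hx, one_div]
        ring
      rw [e1] at hc2
      have h5 : |Bd - X * (1 / (Nat.totient d : ℝ))| ≤ M (W * d) + (a + Nat.sqrt N) := by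
        have h6 := abs_add_le (Bd - (bs N W ν a b D (W * ds a b) hqe).multSum d)
          ((bs N W ν a b D (W * ds a b) hqe).multSum d - X * (1 / (Nat.totient d : ℝ)))
        rw [sub_add_sub_cancel] at h6
        linarith
      have h6 : |c d * (Bd - X * (1 / (Nat.totient d : ℝ)))| ≤ Lam * (M (W * d) + (a + Nat.sqrt N)) := by
        rw [abs_mul]
        exact mul_le_mul (hLam d) h5 (abs_nonneg _) hLam0
      have h7 := (abs_le.1 h6).1
      have e2 : c d * (Bd - X * (1 / (Nat.totient d : ℝ))) = c d * Bd - X * (c d * (1 / (Nat.totient d : ℝ))) := by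
        ring
      rw [e2] at h7
      linarith
  have h2 := sum_le_sum h1
  rw [sum_sub_distrib, ← mul_sum, ← mul_sum, sum_add_distrib, sum_const, nsmul_eq_mul] at h2
  refine le_trans ?_ h2
  apply sub_le_sub_left
  apply mul_le_mul_of_nonneg_left _ hLam0
  apply add_le_add
  · have e2 : ∑ d ∈ F, M (W * d) = ∑ e ∈ F.image (fun d => W * d), M e := by
      rw [sum_image]
      intro x _ y _ hxy
      exact Nat.eq_of_mul_eq_mul_left hWpos hxy
    rw [e2]
    apply sum_le_sum_of_subset_of_nonneg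
    · intro e he
      obtain ⟨d, hd, rfl⟩ := mem_image.1 he
      rw [hF, mem_filter, mem_Icc] at hd
      rw [mem_Icc]
      exact ⟨Nat.mul_pos hWpos hd.1.1, hDx d hd.1.2⟩
    · intro e _ _
      exact hM e
  · apply mul_le_mul_of_nonneg_right _ (by positivity)
    have : F.card ≤ D := by
      rw [hF]
      refine (card_filter_le _ _).trans ?_
      rw [Nat.card_Icc]
      omega
    exact_mod_cast this

end Pool.Agent.L0h43.TD
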