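import Pool.Agent.L0h43.TD.PLb

/-!
# Pairs in a class: a prime and an almost prime
-/

set_option autoImplicit false

namespace Pool.Agent.L0h43.TD

open Finset Filter Topology Pool.Agent.H387R2
open Pool.Agent.L0h43.TA Pool.Agent.L0h43.TB
open Pool.Agent.Y882 (sgs)
open Pool.Agent.Y882.KW (cond_A almost WW_le_one)

open Classical in
/-- `n ≡ ν` with `n + a` prime and `n + b` almost prime -/
noncomputable def PA (N W ν a b : ℕ) : Finset ℕ :=
  (Ioc (Nat.sqrt N) N).filter (fun n => n % W = ν ∧ (n + a).Prime ∧ AP N (n + b))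

/-- the bound with the error terms -/
theorem pair_rawL : ∃ c0 : ℝ, 0 < c0 ∧ ∀ (w : ℕ), 2 ≤ w → ∀ A : ℝ, ∃ N₀ : ℕ, ∀ N : ℕ, N₀ ≤ N →
    ∀ a b : ℕ, a ≠ b → (a : ℝ) ≤ Real.log N ^ A → (b : ℝ) ≤ Real.log N ^ A → ∀ ν : ℕ, ν < Uni.WW w →
      OK (Uni.WW w) ν {a, b} →
      H343E.pi1 (N + a) / Nat.totient (Uni.WW w) * (c0 / Real.log N *
        (((Uni.WW w * ds a b : ℕ) : ℝ) / Nat.totient (Uni.WW w * ds a b))) - 20 * (N / Real.log N ^ 3) ≤
        ((PA N (Uni.WW w) ν a b).card : ℝ) := by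
  classical
  have hJ := cond_A (12 / 25) (8 / 9) (by norm_num) (by norm_num) (by norm_num)
  rw [show (12 / 25 / 4 : ℝ) = 3 / 25 by norm_num, show (24 / 25 * (12 / 25) : ℝ) = 288 / 625 by norm_num] at hJ
  obtain ⟨c0, hc0, Y0, HW⟩ := Pool.Agent.Y882.GW.wts (12 / 25) (3 / 25) (288 / 625) (8 / 9) (8 / 9 / (288 / 625)) (49 / 100)
    (by norm_num) (by norm_num) (by norm_num) (by norm_num) (by norm_num) (by norm_num) (by norm_num) (by norm_num)
    (by norm_num) hJ (by norm_num)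
  refine ⟨c0 / 2, by positivity, fun w hw2 A => ?_⟩
  obtain ⟨W, hW⟩ : ∃ W, W = Uni.WW w := ⟨_, rfl⟩
  have hWpos : 0 < W := by rw [hW]; exact Uni.WW_pos w
  have hW0 : (0 : ℝ) < W := by exact_mod_cast hWpos
  have hWe : Even W := by
    rw [even_iff_two_dvd, hW, dvd_WW Nat.prime_two]
    omega
  obtain ⟨B, x0, hB⟩ := Pool.Agent.H96R2.EQP.weighted 1 le_rfl 4
  have tN : Tendsto (fun N : ℕ => (N : ℝ)) atTop atTop := tendsto_natCast_atTop_atTop
  obtain ⟨N₀, hN₀⟩ := eventually_atTop.1 ((tN.eventually (ev_logpow (2 ^ B * W ^ 2 * 2) (B : ℝ) (2 / 100) (by norm_num))).and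
    ((tN.eventually (ev_logpow W 0 (1 / 2) (by norm_num))).and
    ((tN.eventually (ev_logpow 1 A (1 / 4) (by norm_num))).and
    ((tN.eventually (ev_logpow (5 * 2 + 3) 4 (1 / 100) (by norm_num))).and
    ((tN.eventually (ev_logpow 2 0 (1 / 10) (by norm_num))).and
    ((tN.eventually (ev_logpow 4 0 (3 / 25) (by norm_num))).and
    ((tN.eventually (Real.tendsto_log_atTop.eventually_ge_atTop 1)).and
    (eventually_ge_atTop (max (max x0 Y0) 81)))))))))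
  rw [← hW]
  refine ⟨N₀, fun N hN a b hab haA hbA ν hν hOK => ?_⟩
  obtain ⟨g1, g2, g3, g4, g5, g6, g7, g8⟩ := hN₀ N hN
  have hNx0 : x0 ≤ N := ((le_max_left _ _).trans (le_max_left _ _)).trans g8
  have hNY0 : Y0 ≤ N := ((le_max_right _ _).trans (le_max_left _ _)).trans g8
  have hN81 : 81 ≤ N := (le_max_right _ _).trans g8
  set L := Real.log (N : ℝ) with hL
  have hL0 : 0 < L := by linarith
  have hN81R : (81 : ℝ) ≤ N := by exact_mod_cast hN81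
  have hN0 : (0 : ℝ) < N := by linarith
  have hN1 : (1 : ℝ) ≤ N := by linarith
  rw [Real.rpow_zero, mul_one] at g2 g5 g6
  rw [one_mul] at g3
  have haN4 : (a : ℝ) ≤ (N : ℝ) ^ (1 / 4 : ℝ) := haA.trans g3
  have hbN4 : (b : ℝ) ≤ (N : ℝ) ^ (1 / 4 : ℝ) := hbA.trans g3
  have hhalf : (N : ℝ) ^ (1 / 2 : ℝ) * (N : ℝ) ^ (1 / 2 : ℝ) = N := by
    rw [← Real.rpow_add hN0]; norm_num
  have hquart : (N : ℝ) ^ (1 / 4 : ℝ) * (N : ℝ) ^ (1 / 4 : ℝ) = (N : ℝ) ^ (1 / 2 : ℝ) := by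
    rw [← Real.rpow_add hN0]; norm_num
  have hhalf1 : (1 : ℝ) ≤ (N : ℝ) ^ (1 / 2 : ℝ) := Real.one_le_rpow hN1 (by norm_num)
  have hq3 : (3 : ℝ) ≤ (N : ℝ) ^ (1 / 4 : ℝ) := by
    calc (3 : ℝ) = (81 : ℝ) ^ (1 / 4 : ℝ) := by
          rw [show (81 : ℝ) = 3 ^ (4 : ℝ) by norm_num, ← Real.rpow_mul (by norm_num)]
          norm_num
      _ ≤ _ := Real.rpow_le_rpow (by norm_num) hN81R (by norm_num)
  have hquart_half : (N : ℝ) ^ (1 / 4 : ℝ) * 3 ≤ (N : ℝ) ^ (1 / 2 : ℝ) := by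
    rw [← hquart]
    exact mul_le_mul_of_nonneg_left hq3 (by positivity)
  have hhalfN : (N : ℝ) ^ (1 / 2 : ℝ) ≤ N := by
    calc (N : ℝ) ^ (1 / 2 : ℝ) ≤ (N : ℝ) ^ (1 : ℝ) := Real.rpow_le_rpow_of_exponent_le hN1 (by norm_num)
      _ = N := Real.rpow_one _
  have hquart1 : (0 : ℝ) < (N : ℝ) ^ (1 / 4 : ℝ) := by positivity
  have haN : (a : ℝ) ≤ N := by linarith
  have hsq : (Nat.sqrt N : ℝ) ≤ (N : ℝ) ^ (1 / 2 : ℝ) := by
    rw [← Real.sqrt_eq_rpow]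
    exact Real.nat_sqrt_le_real_sqrt
  have hsq2 : (N : ℝ) ^ (1 / 4 : ℝ) * 2 ≤ (Nat.sqrt N : ℝ) := by
    have h1 : √(N : ℝ) < Nat.sqrt N + 1 := Real.real_sqrt_lt_nat_sqrt_succ
    rw [Real.sqrt_eq_rpow] at h1
    linarith
  have hds := ds_pos hab
  have hdsle : (ds a b : ℝ) ≤ (N : ℝ) ^ (1 / 4 : ℝ) := by
    have h1 : ds a b ≤ max a b := by unfold ds; omega
    have h2 : ((ds a b : ℕ) : ℝ) ≤ ((max a b : ℕ) : ℝ) := by exact_mod_cast h1
    refine h2.trans ?_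
    rw [Nat.cast_max]
    exact max_le haN4 hbN4
  have hdsN : ds a b ≤ Nat.sqrt N := by
    have : (ds a b : ℝ) ≤ (Nat.sqrt N : ℝ) := by linarith
    exact_mod_cast this
  obtain ⟨q, hq⟩ : ∃ q, q = W * ds a b := ⟨_, rfl⟩
  have hqe : Even (W * ds a b) := hWe.mul_right _
  have hq1 : 1 ≤ W * ds a b := Nat.mul_pos hWpos hds
  have hqN : W * ds a b ≤ 2 * N := by
    have h1 : ((W * ds a b : ℕ) : ℝ) ≤ N := by
      push_cast
      calc (W : ℝ) * ds a b ≤ (N : ℝ) ^ (1 / 2 : ℝ) * (N : ℝ) ^ (1 / 2 : ℝ) :=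
            mul_le_mul g2 (by linarith) (Nat.cast_nonneg _) (by positivity)
        _ = N := hhalf
    have h2 : W * ds a b ≤ N := by exact_mod_cast h1
    omega
  -- the weights
  obtain ⟨c, hcL, hcD, hcW, hcM⟩ := HW N hNY0
  have hmainc := hcM (W * ds a b) hq1 hqN hqe
  obtain ⟨D, hD⟩ : ∃ D, D = ⌊(N : ℝ) ^ (49 / 100 : ℝ)⌋₊ := ⟨_, rfl⟩
  rw [← hD] at hmainc
  have hDR : (D : ℝ) ≤ (N : ℝ) ^ (49 / 100 : ℝ) := by rw [hD]; exact Nat.floor_le (by positivity)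
  have hcD' : ∀ d, c d ≠ 0 → Squarefree d ∧ d ≤ D := by
    intro d hd
    obtain ⟨h1, h2⟩ := hcD d hd
    exact ⟨h1, by rw [hD]; exact Nat.le_floor h2⟩
  have h49 : (N : ℝ) ^ (49 / 100 : ℝ) ≤ (N : ℝ) ^ (1 / 2 : ℝ) :=
    Real.rpow_le_rpow_of_exponent_le hN1 (by norm_num)
  -- the moduli
  obtain ⟨x, hx⟩ : ∃ x, x = N + a := ⟨_, rfl⟩
  obtain ⟨M, hM0, hM1, hM2⟩ := hB x (by omega)
  simp only [one_pow, one_mul] at hM2
  have hxN : (N : ℝ) ≤ x := by rw [hx]; push_cast; linarith [Nat.cast_nonneg (α := ℝ) a]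
  have hx2N : (x : ℝ) ≤ 2 * N := by rw [hx]; push_cast; linarith
  have hlogx : Real.log x ≤ 2 * L := by
    have h1 : (x : ℝ) ≤ (N : ℝ) ^ 2 := by nlinarith
    calc Real.log x ≤ Real.log ((N : ℝ) ^ 2) := Real.log_le_log (by linarith) h1
      _ = 2 * L := by rw [Real.log_pow, ← hL]; norm_num
  have hlogx1 : L ≤ Real.log x := Real.log_le_log hN0 hxN
  have hmod : ∀ d : ℕ, d ≤ D → W * d ≤ x ∧ Real.log x ^ B * ((W * d : ℕ) : ℝ) ^ 2 < x := by
    intro d hd'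
    have hd : (d : ℝ) ≤ (N : ℝ) ^ (49 / 100 : ℝ) := (show (d : ℝ) ≤ D by exact_mod_cast hd').trans hDR
    constructor
    · have h1 : ((W * d : ℕ) : ℝ) ≤ x := by
        push_cast
        calc (W : ℝ) * d ≤ (N : ℝ) ^ (1 / 2 : ℝ) * (N : ℝ) ^ (1 / 2 : ℝ) :=
              mul_le_mul g2 (hd.trans h49) (Nat.cast_nonneg _) (by linarith)
          _ = N := hhalf
          _ ≤ x := hxN
      exact_mod_cast h1
    · have h1 : Real.log x ^ B ≤ 2 ^ B * L ^ B := by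
        rw [← mul_pow]; exact pow_le_pow_left₀ (by linarith) hlogx B
      have h2 : ((W * d : ℕ) : ℝ) ^ 2 ≤ W ^ 2 * (N : ℝ) ^ (98 / 100 : ℝ) := by
        push_cast
        rw [mul_pow]
        apply mul_le_mul_of_nonneg_left _ (by positivity)
        calc (d : ℝ) ^ 2 ≤ ((N : ℝ) ^ (49 / 100 : ℝ)) ^ 2 :=
              pow_le_pow_left₀ (Nat.cast_nonneg _) hd 2
          _ = _ := by
            rw [← Real.rpow_natCast, ← Real.rpow_mul hN0.le]
            congr 1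
            norm_num
      have h3 : (N : ℝ) ^ (98 / 100 : ℝ) * (N : ℝ) ^ (2 / 100 : ℝ) = N := by
        rw [← Real.rpow_add hN0]; norm_num
      have h4 : 0 < (N : ℝ) ^ (98 / 100 : ℝ) := by positivity
      rw [Real.rpow_natCast] at g1
      have h5 : 0 < 2 ^ B * (W : ℝ) ^ 2 * L ^ B * (N : ℝ) ^ (98 / 100 : ℝ) := by positivity
      calc Real.log x ^ B * ((W * d : ℕ) : ℝ) ^ 2 ≤ (2 ^ B * L ^ B) * (W ^ 2 * (N : ℝ) ^ (98 / 100 : ℝ)) :=
            mul_le_mul h1 h2 (by positivity) (by positivity)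
        _ = 2 ^ B * (W : ℝ) ^ 2 * L ^ B * (N : ℝ) ^ (98 / 100 : ℝ) := by ring
        _ < 2 ^ B * (W : ℝ) ^ 2 * 2 * L ^ B * (N : ℝ) ^ (98 / 100 : ℝ) := by linarith
        _ ≤ (N : ℝ) ^ (2 / 100 : ℝ) * (N : ℝ) ^ (98 / 100 : ℝ) := mul_le_mul_of_nonneg_right g1 h4.le
        _ = N := by rw [mul_comm, h3]
        _ ≤ x := hxN
  have hcopa : Nat.Coprime W (ν + a) := hOK a (mem_insert_self _ _)
  have hcopb : Nat.Coprime W (ν + b) := hOK b (mem_insert_of_mem (mem_singleton_self _))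
  rw [hW] at hν hcopa hcopb hmod hqe hmainc
  have hlow := low_main (N := N) (w := w) (ν := ν) (a := a) (b := b) (D := D) (x := x) (Lam := 5 * L) c M hM0 hcD' hcL hx
    hqe hν hcopa (fun d c' hd0 hdD hc' => hM1 _ c' (Nat.mul_pos (Uni.WW_pos w) hd0) hc' (hmod d hdD).2 (hmod d hdD).1)
    (fun d hdD => (hmod d hdD).1)
  have hsum := low_sum (N := N) (w := w) (ν := ν) (a := a) (b := b) (D := D) c
    (fun m => Pool.Agent.Y882.KW.WW N (3 / 25) (288 / 625) (8 / 9) (8 / 9 / (288 / 625)) m)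
    (fun m hm => hcW m hm) (fun d hd => (hcD' d hd).2) hdsN hds hcopb
  rw [← hW] at hlow hsum hmainc
  -- detection
  obtain ⟨P, hP⟩ : ∃ P, P = P1 N W ν a := ⟨_, rfl⟩
  rw [← hP] at hlow hsum
  have hdet : ∑ n ∈ P, Pool.Agent.Y882.KW.WW N (3 / 25) (288 / 625) (8 / 9) (8 / 9 / (288 / 625)) (n + b) ≤
      ((PA N W ν a b).card : ℝ) + 3 * (N : ℝ) ^ (22 / 25 : ℝ) := by
    have h1 : ∀ n ∈ P, Pool.Agent.Y882.KW.WW N (3 / 25) (288 / 625) (8 / 9) (8 / 9 / (288 / 625)) (n + b) ≤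
        if 0 < Pool.Agent.Y882.KW.WW N (3 / 25) (288 / 625) (8 / 9) (8 / 9 / (288 / 625)) (n + b) then 1 else 0 := by
      intro n _
      split_ifs with h
      · exact WW_le_one N _ _ _ _ (by norm_num) (by norm_num) _
      · linarith
    refine (sum_le_sum h1).trans ?_
    rw [sum_boole]
    have h2 : P.filter (fun n => 0 < Pool.Agent.Y882.KW.WW N (3 / 25) (288 / 625) (8 / 9) (8 / 9 / (288 / 625)) (n + b)) ⊆
        PA N W ν a b ∪ (Ioc 0 N).filter (fun n => SQ N (n + b)) := by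
      intro n hn
      rw [mem_filter, hP] at hn
      obtain ⟨hn1, hn2⟩ := hn
      unfold P1 at hn1
      rw [mem_filter, mem_Ioc] at hn1
      rw [mem_union]
      by_cases hs : SQ N (n + b)
      · right
        rw [mem_filter, mem_Ioc]
        exact ⟨⟨by omega, hn1.1.2⟩, hs⟩
      · left
        unfold PA
        rw [mem_filter, mem_Ioc]
        refine ⟨hn1.1, hn1.2.1, hn1.2.2, ?_⟩
        refine almost N (by omega) (3 / 25) (288 / 625) (8 / 9) (11 / 10) 3 (by norm_num) (by norm_num) (by norm_num)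
          (by norm_num) (by norm_num) (n + b) (by omega) ?_ hn2 ?_
        · have h3 : ((n + b : ℕ) : ℝ) ≤ 2 * N := by
            push_cast
            have : (n : ℝ) ≤ N := by exact_mod_cast hn1.1.2
            linarith
          refine h3.trans ?_
          calc 2 * (N : ℝ) ≤ (N : ℝ) ^ (1 / 10 : ℝ) * N := mul_le_mul_of_nonneg_right g5 hN0.le
            _ = (N : ℝ) ^ (1 / 10 : ℝ) * (N : ℝ) ^ (1 : ℝ) := by rw [Real.rpow_one]
            _ = (N : ℝ) ^ (11 / 10 : ℝ) := by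
                rw [← Real.rpow_add hN0]; norm_num
        · intro p hp hpd
          apply hs
          unfold Pool.Agent.W23.DC.pr at hp
          rw [mem_filter, mem_Icc] at hp
          refine ⟨p, hp.2.1, ?_, ?_, hpd⟩
          · by_contra hlt
            push Not at hlt
            have := (Pool.Agent.Y882.tt_lt N p (3 / 25) (by omega) hp.2.1.pos).2 hlt
            linarith [hp.2.2.1]
          · have h4 := (Pool.Agent.Y882.tt_lt N p (288 / 625) (by omega) hp.2.1.pos).1 hp.2.2.2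
            refine h4.trans_le ?_
            exact Real.rpow_le_rpow_of_exponent_le hN1 (by norm_num)
    have h3 := (card_le_card h2).trans (card_union_le _ _)
    have h4 : ((P.filter (fun n => 0 < Pool.Agent.Y882.KW.WW N (3 / 25) (288 / 625) (8 / 9) (8 / 9 / (288 / 625)) (n + b))).card : ℝ) ≤
        ((PA N W ν a b).card : ℝ) + (((Ioc 0 N).filter (fun n => SQ N (n + b))).card : ℝ) := by exact_mod_cast h3
    have h5 := sq_few (N := N) (by omega) g6 b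
    linarith
  -- the errors
  have hmass0 : 0 ≤ H343E.pi1 (N + a) / Nat.totient W := by
    unfold H343E.pi1
    positivity
  have hsg := sgs_low (q := W * ds a b) hq1 (by rw [hW]; exact hqe)
  have hm : H343E.pi1 (N + a) / Nat.totient W * (c0 / 2 / L * (((W * ds a b : ℕ) : ℝ) / Nat.totient (W * ds a b))) ≤
      H343E.pi1 x / Nat.totient W * ∑ d ∈ (Icc 1 D).filter (fun d => Nat.Coprime (W * ds a b) d),
        c d * (1 / (Nat.totient d : ℝ)) := by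
    rw [← hx] at hmass0 ⊢
    apply mul_le_mul_of_nonneg_left _ hmass0
    refine le_trans ?_ hmainc
    calc c0 / 2 / L * (((W * ds a b : ℕ) : ℝ) / Nat.totient (W * ds a b)) =
        c0 / L * (1 / 2 * (((W * ds a b : ℕ) : ℝ) / Nat.totient (W * ds a b))) := by ring
      _ ≤ _ := mul_le_mul_of_nonneg_left hsg (by positivity)
  have he1 : 5 * L * ∑ e ∈ Icc 1 x, M e ≤ 10 * (N / L ^ 3) := by
    have h5 : (x : ℝ) / Real.log x ^ 4 ≤ 2 * (N / L ^ 4) := by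
      have h6 : L ^ 4 ≤ Real.log x ^ 4 := pow_le_pow_left₀ hL0.le hlogx1 4
      calc (x : ℝ) / Real.log x ^ 4 ≤ (2 * N) / L ^ 4 := by
            apply div_le_div₀ (by positivity) hx2N (by positivity) h6
        _ = _ := by ring
    calc 5 * L * ∑ e ∈ Icc 1 x, M e ≤ 5 * L * (2 * (N / L ^ 4)) :=
          mul_le_mul_of_nonneg_left (hM2.trans h5) (by positivity)
      _ = 10 * (N / L ^ 3) := by
          field_simp
          norm_num
  have he2 : 5 * L * (D * (a + Nat.sqrt N)) + 3 * (N : ℝ) ^ (22 / 25 : ℝ) ≤ N / L ^ 3 := by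
    have h1 : (a : ℝ) + Nat.sqrt N ≤ 2 * (N : ℝ) ^ (1 / 2 : ℝ) := by linarith
    have h2 : (D : ℝ) * (a + Nat.sqrt N) ≤ 2 * (N : ℝ) ^ (99 / 100 : ℝ) := by
      calc (D : ℝ) * (a + Nat.sqrt N) ≤ (N : ℝ) ^ (49 / 100 : ℝ) * (2 * (N : ℝ) ^ (1 / 2 : ℝ)) :=
            mul_le_mul hDR h1 (by positivity) (by positivity)
        _ = 2 * ((N : ℝ) ^ (49 / 100 : ℝ) * (N : ℝ) ^ (1 / 2 : ℝ)) := by ring
        _ = _ := by rw [← Real.rpow_add hN0]; norm_num
    have h3 : (N : ℝ) ^ (22 / 25 : ℝ) ≤ (N : ℝ) ^ (99 / 100 : ℝ) :=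
      Real.rpow_le_rpow_of_exponent_le hN1 (by norm_num)
    have e4 : L ^ (4 : ℝ) = L ^ 4 := by
      rw [show (4 : ℝ) = ((4 : ℕ) : ℝ) by norm_num, Real.rpow_natCast]
    rw [e4] at g4
    have hp99 : 0 < (N : ℝ) ^ (99 / 100 : ℝ) := by positivity
    have h4 : (5 * 2 + 3) * L ^ 4 * (N : ℝ) ^ (99 / 100 : ℝ) ≤ N := by
      calc (5 * 2 + 3) * L ^ 4 * (N : ℝ) ^ (99 / 100 : ℝ) ≤ (N : ℝ) ^ (1 / 100 : ℝ) * (N : ℝ) ^ (99 / 100 : ℝ) :=
            mul_le_mul_of_nonneg_right g4 hp99.le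
        _ = N := by rw [← Real.rpow_add hN0]; norm_num
    rw [le_div_iff₀ (by positivity)]
    refine le_trans ?_ h4
    have h5 : 5 * L * (D * (a + Nat.sqrt N)) ≤ 5 * L * (2 * (N : ℝ) ^ (99 / 100 : ℝ)) :=
      mul_le_mul_of_nonneg_left h2 (by positivity)
    have h6 : 3 * (N : ℝ) ^ (22 / 25 : ℝ) ≤ 3 * L * (N : ℝ) ^ (99 / 100 : ℝ) := by
      have : (N : ℝ) ^ (99 / 100 : ℝ) ≤ L * (N : ℝ) ^ (99 / 100 : ℝ) := le_mul_of_one_le_left hp99.le g7
      linarith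
    calc (5 * L * (D * (a + Nat.sqrt N)) + 3 * (N : ℝ) ^ (22 / 25 : ℝ)) * L ^ 3 ≤
        (5 * L * (2 * (N : ℝ) ^ (99 / 100 : ℝ)) + 3 * L * (N : ℝ) ^ (99 / 100 : ℝ)) * L ^ 3 :=
          mul_le_mul_of_nonneg_right (by linarith) (by positivity)
      _ = _ := by ring
  have he3 : 0 ≤ (N : ℝ) / L ^ 3 := by positivity
  have e5 : 5 * L * (∑ e ∈ Icc 1 x, M e + D * (a + Nat.sqrt N)) =
      5 * L * ∑ e ∈ Icc 1 x, M e + 5 * L * (D * (a + Nat.sqrt N)) := by ring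
  rw [e5] at hlow
  linarith

end Pool.Agent.L0h43.TD
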