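import Pool.Agent.L0h43.TD.PLc
import Pool.Agent.L0h43.TD.Nbr

/-!
# Pairs in a class, and a third almost prime next to every pair
-/

set_option autoImplicit false

namespace Pool.Agent.L0h43.TD

open Finset Filter Topology Pool.Agent.H387R2
open Pool.Agent.L0h43.TA Pool.Agent.L0h43.TB
open Pool.Agent.H386R2.HL

/-- **a prime and an almost prime in a class modulo `W`** -/
theorem pairL : ∃ κ : ℝ, 0 < κ ∧ κ ≤ 1 ∧ ∀ w : ℕ, 8 ≤ w → ∀ A : ℝ, ∃ N₀ : ℕ, ∀ N : ℕ,
    N₀ ≤ N → ∀ a b : ℕ, a ≠ b → (a : ℝ) ≤ Real.log N ^ A → (b : ℝ) ≤ Real.log N ^ A → ∀ ν : ℕ,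
    ν < Uni.WW w → OK (Uni.WW w) ν {a, b} →
    κ * Ew N (Uni.WW w) {a, b} ≤ ((PA N (Uni.WW w) ν a b).card : ℝ) := by
  classical
  obtain ⟨c0, hc0, H0⟩ := pair_rawL
  refine ⟨min 1 (c0 / 4), lt_min one_pos (by positivity), min_le_left _ _, fun w hw8 A => ?_⟩
  obtain ⟨W, hW⟩ : ∃ W, W = Uni.WW w := ⟨_, rfl⟩
  have hWpos : 0 < W := by rw [hW]; exact Uni.WW_pos w
  have hW0 : (0 : ℝ) < W := by exact_mod_cast hWpos
  have hφ0 : (0 : ℝ) < Nat.totient W := by exact_mod_cast Nat.totient_pos.2 hWpos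
  obtain ⟨N1, hN1⟩ := H0 w (by omega) A
  have tN : Tendsto (fun N : ℕ => (N : ℝ)) atTop atTop := tendsto_natCast_atTop_atTop
  obtain ⟨N₀, hN₀⟩ := eventually_atTop.1 ((pi_lo (1 / 2) (by norm_num)).and
    ((tN.eventually (Real.tendsto_log_atTop.eventually_ge_atTop (max 1 (160 * W / c0)))).and
    (eventually_ge_atTop (max N1 3))))
  rw [← hW]
  refine ⟨N₀, fun N hN a b hab haA hbA ν hν hOK => ?_⟩
  obtain ⟨g1, g3, g4⟩ := hN₀ N hN
  have hNN1 : N1 ≤ N := (le_max_left _ _).trans g4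
  have hN3 : 3 ≤ N := (le_max_right _ _).trans g4
  set L := Real.log (N : ℝ) with hL
  have hL1 : 1 ≤ L := (le_max_left _ _).trans g3
  have hLW : 160 * W / c0 ≤ L := (le_max_right _ _).trans g3
  have hL0 : 0 < L := by linarith
  have hN0 : (0 : ℝ) < N := by
    have : 0 < N := by omega
    exact_mod_cast this
  have hmain := hN1 N hNN1 a b hab haA hbA ν (by rw [← hW]; exact hν) (by rw [← hW]; exact hOK)
  have hT : ({a, b} : Finset ℕ).card = 2 := card_pair hab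
  obtain ⟨T, hTd⟩ : ∃ T : Finset ℕ, T = {a, b} := ⟨_, rfl⟩
  have hgpos : 0 < Uni.gT W T := by rw [hTd]; exact gT_pos hν hOK
  have hg0 : (0 : ℝ) < Uni.gT W T := by exact_mod_cast hgpos
  have hCTp := CT_pair_up (w := w) hab (show 4 ≤ w by omega) (by rw [← hW, ← hTd]; exact hgpos)
  have hlow := CT_low (w := w) T (by omega) (by rw [hTd, hT]; omega) (by rw [← hW]; exact hgpos)
  rw [← hW, ← hTd] at hCTp
  rw [← hTd] at hT ⊢
  rw [← hW, ← hL] at hmain
  rw [← hW] at hlow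
  obtain ⟨Q, hQ⟩ : ∃ Q : ℝ, Q = ((W * ds a b : ℕ) : ℝ) / Nat.totient (W * ds a b) := ⟨_, rfl⟩
  rw [← hQ] at hCTp hmain
  have hQ0 : 0 ≤ Q := by rw [hQ]; positivity
  -- the number of primes
  have hpi : 1 / 2 * (N / L) ≤ H343E.pi1 (N + a) := by
    have h1 : ((pr N).card : ℝ) ≤ H343E.pi1 (N + a) := by
      have h2 : pr N ⊆ (Icc 1 (N + a)).filter (fun p => p.Prime) := by
        intro p hp
        unfold pr at hp
        rw [mem_filter, mem_Icc] at hp ⊢
        exact ⟨⟨hp.1.1, by omega⟩, hp.2⟩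
      unfold H343E.pi1
      exact_mod_cast card_le_card h2
    linarith
  have hCT := Uni.CT_nonneg T
  obtain ⟨E, hE⟩ : ∃ E, E = Ew N W T := ⟨_, rfl⟩
  have hEe : E = N / L ^ 2 * (Uni.CT T / Uni.gT W T) := by
    rw [hE]
    unfold Ew
    rw [hT]
  have hE0 : 0 ≤ E := by rw [hEe]; positivity
  rw [← hE]
  have h1 : c0 / 2 * E ≤ H343E.pi1 (N + a) / Nat.totient W * (c0 / L * Q) := by
    calc c0 / 2 * E = c0 / 2 * (N / L ^ 2) * (Uni.CT T / Uni.gT W T) := by rw [hEe]; ring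
      _ ≤ c0 / 2 * (N / L ^ 2) * (Q / Nat.totient W) := mul_le_mul_of_nonneg_left hCTp (by positivity)
      _ = (1 / 2 * (N / L)) / Nat.totient W * (c0 / L * Q) := by
          field_simp
      _ ≤ _ := by
          apply mul_le_mul_of_nonneg_right _ (by positivity)
          exact div_le_div_of_nonneg_right hpi hφ0.le
  have h2 : 20 * ((N : ℝ) / L ^ 3) ≤ c0 / 4 * E := by
    have h3 : (N : ℝ) / L ^ 2 * (1 / (2 * W)) ≤ E := by
      rw [hEe]
      exact mul_le_mul_of_nonneg_left hlow (by positivity)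
    refine le_trans ?_ (mul_le_mul_of_nonneg_left h3 (by positivity))
    rw [div_le_iff₀ hc0] at hLW
    have e1 : 20 * ((N : ℝ) / L ^ 3) = (N / L ^ 3) * 20 := by ring
    have e2 : c0 / 4 * ((N : ℝ) / L ^ 2 * (1 / (2 * W))) = N / L ^ 3 * (L * c0 / (8 * W)) := by
      field_simp
      ring
    rw [e1, e2]
    apply mul_le_mul_of_nonneg_left _ (by positivity)
    rw [le_div_iff₀ (by positivity)]
    linarith
  have h3 : min 1 (c0 / 4) * E ≤ c0 / 4 * E := mul_le_mul_of_nonneg_right (min_le_right _ _) hE0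
  linarith

open Classical in
/-- `n + a` prime, `n + b` and `n + h` almost primes -/
noncomputable def TA3 (N a b h : ℕ) : Finset ℕ :=
  (Ioc (Nat.sqrt N) N).filter (fun n => (n + a).Prime ∧ AP N (n + b) ∧ AP N (n + h))

lemma PA_sub {N W ν a b : ℕ} (hN1 : 1 ≤ N) (hN : (N : ℝ) ^ (1 / 16 : ℝ) ≤ Nat.sqrt N) : PA N W ν a b ⊆ QS N W ν {a, b} := by
  classical
  intro n hn
  unfold PA at hn
  rw [mem_filter, mem_Ioc] at hn
  unfold QS
  rw [mem_filter, mem_Ioc]
  refine ⟨hn.1, hn.2.1, ?_⟩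
  have hN1R : (1 : ℝ) ≤ N := by exact_mod_cast hN1
  intro t ht p hp hpd
  rw [mem_insert, mem_singleton] at ht
  rcases ht with rfl | rfl
  · rw [Nat.prime_dvd_prime_iff_eq hp hn.2.2.1] at hpd
    rw [hpd]
    refine hN.trans ?_
    have h1 : Nat.sqrt N ≤ n + t := by omega
    exact_mod_cast h1
  · refine le_trans ?_ (hn.2.2.2.2 p hp hpd)
    exact Real.rpow_le_rpow_of_exponent_le hN1R (by norm_num)

theorem tripL : ∃ c : ℝ, 0 < c ∧ c ≤ 1 ∧ ∀ ε : ℝ, 0 < ε → ∃ K : ℝ, 1 ≤ K ∧ ∀ A : ℝ, 0 ≤ A → ∃ N₀ : ℕ,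
    ∀ N : ℕ, N₀ ≤ N → ∀ a b : ℕ, a ≠ b → (a : ℝ) ≤ Real.log N ^ A → (b : ℝ) ≤ Real.log N ^ A → ∀ u H : ℕ,
      K * Real.log N ≤ H → ((u + H : ℕ) : ℝ) ≤ Real.log N ^ A → ∀ g : ℕ → ℝ, (∀ h, 0 ≤ g h) → (∀ h, g h ≤ 1) →
      c * ∑ h ∈ Ioc u (u + H) \ {a, b}, g h * (N / Real.log N ^ 3 * Uni.CT (insert h {a, b})) -
          ε * (H / Real.log N) * (N / Real.log N ^ 2 * Uni.CT {a, b}) ≤
        ∑ h ∈ Ioc u (u + H) \ {a, b}, g h * ((TA3 N a b h).card : ℝ) := by
  classical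
  obtain ⟨c0, hc0, hc1, HMT⟩ := MTL
  obtain ⟨κ, hκ0, hκ1, HP⟩ := pairL
  refine ⟨c0 * κ, by positivity, mul_le_one₀ hc1 hκ0.le hκ1, fun ε hε => ?_⟩
  obtain ⟨η, hη⟩ : ∃ η : ℝ, η = min 1 (ε / 2) := ⟨_, rfl⟩
  have hη0 : 0 < η := by rw [hη]; exact lt_min one_pos (by positivity)
  have hη1 : η ≤ 1 := by rw [hη]; exact min_le_left _ _
  have hηε : η ≤ ε / 2 := by rw [hη]; exact min_le_right _ _
  obtain ⟨K, hK, w1, HMT⟩ := HMT 2 η hη0 hη1
  obtain ⟨w2, hw21, HST⟩ := star_avg 2 η hη0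
  obtain ⟨w, hw⟩ : ∃ w, w = max (max w1 w2) 8 := ⟨_, rfl⟩
  have hww1 : w1 ≤ w := by rw [hw]; exact (le_max_left _ _).trans (le_max_left _ _)
  have hww2 : w2 ≤ w := by rw [hw]; exact (le_max_right _ _).trans (le_max_left _ _)
  have hw8 : 8 ≤ w := by rw [hw]; exact le_max_right _ _
  obtain ⟨W, hW⟩ : ∃ W, W = Uni.WW w := ⟨_, rfl⟩
  have hWpos : 0 < W := by rw [hW]; exact Uni.WW_pos w
  have hW0 : (0 : ℝ) < W := by exact_mod_cast hWpos
  have hφ0 : (0 : ℝ) < Nat.totient W := by exact_mod_cast Nat.totient_pos.2 hWpos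
  refine ⟨K, hK, fun A hA => ?_⟩
  obtain ⟨N1, hN1⟩ := HMT w hww1 A hA
  obtain ⟨N2, hN2⟩ := HP w hw8 A
  obtain ⟨H3, hH3⟩ := HST w hww2 A hA
  have tL : Tendsto (fun N : ℕ => Real.log (N : ℝ)) atTop atTop :=
    Real.tendsto_log_atTop.comp tendsto_natCast_atTop_atTop
  have tp : Tendsto (fun N : ℕ => (N : ℝ) ^ (1 / 4 : ℝ)) atTop atTop :=
    (tendsto_rpow_atTop (by norm_num)).comp tendsto_natCast_atTop_atTop
  obtain ⟨N₀, hN₀⟩ := eventually_atTop.1 ((tL.eventually_ge_atTop (max 1 (H3 : ℝ))).and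
    ((tp.eventually_ge_atTop 2).and (eventually_ge_atTop (max (max N1 N2) 3))))
  refine ⟨N₀, fun N hN a b hab haA hbA u H hKH hHA g hg0 hg1 => ?_⟩
  obtain ⟨l1, l3, l2⟩ := hN₀ N hN
  have hL1 : 1 ≤ Real.log N := (le_max_left _ _).trans l1
  have hLH3 : (H3 : ℝ) ≤ Real.log N := (le_max_right _ _).trans l1
  have hNN1 : N1 ≤ N := ((le_max_left _ _).trans (le_max_left _ _)).trans l2
  have hNN2 : N2 ≤ N := ((le_max_right _ _).trans (le_max_left _ _)).trans l2
  have hN3 : 3 ≤ N := (le_max_right _ _).trans l2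
  have hN1' : 1 ≤ N := by omega
  have hN3R : (3 : ℝ) ≤ N := by exact_mod_cast hN3
  have hN0 : (0 : ℝ) < N := by linarith
  set L := Real.log (N : ℝ) with hL
  have hL0 : 0 < L := by linarith
  have hLH : L ≤ H := (le_mul_of_one_le_left hL0.le hK).trans hKH
  have hH0 : (0 : ℝ) < H := by linarith
  have hH3H : H3 ≤ H := by exact_mod_cast hLH3.trans hLH
  have hLAHA : L ^ A ≤ (H : ℝ) ^ A := Real.rpow_le_rpow hL0.le hLH hA
  have hT2 : ({a, b} : Finset ℕ).card = 2 := card_pair hab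
  have hTA : ∀ t ∈ ({a, b} : Finset ℕ), (t : ℝ) ≤ L ^ A := by
    intro t ht
    rw [mem_insert, mem_singleton] at ht
    rcases ht with rfl | rfl
    · exact haA
    · exact hbA
  have hsqN : (N : ℝ) ^ (1 / 16 : ℝ) ≤ Nat.sqrt N := by
    have h1 : √(N : ℝ) < Nat.sqrt N + 1 := Real.real_sqrt_lt_nat_sqrt_succ
    rw [Real.sqrt_eq_rpow] at h1
    have h2 : (N : ℝ) ^ (1 / 16 : ℝ) ≤ (N : ℝ) ^ (1 / 4 : ℝ) :=
      Real.rpow_le_rpow_of_exponent_le (by linarith) (by norm_num)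
    have h3 : (N : ℝ) ^ (1 / 4 : ℝ) * (N : ℝ) ^ (1 / 4 : ℝ) = (N : ℝ) ^ (1 / 2 : ℝ) := by
      rw [← Real.rpow_add hN0]; norm_num
    nlinarith
  obtain ⟨I, hI⟩ : ∃ I, I = Ioc u (u + H) \ {a, b} := ⟨_, rfl⟩
  rw [← hI]
  obtain ⟨S0, hS0⟩ : ∃ S0, S0 = (Ioc (Nat.sqrt N) N).filter (fun n => (n + a).Prime ∧ AP N (n + b)) := ⟨_, rfl⟩
  have hPAe : ∀ ν, S0.filter (fun n => n % W = ν) = PA N W ν a b := by
    intro ν
    rw [hS0]
    unfold PA
    ext n
    simp only [mem_filter]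
    tauto
  have hTA3 : ∀ h, ((TA3 N a b h).card : ℝ) = ∑ ν ∈ range W, (((PA N W ν a b).filter (fun n => AP N (n + h))).card : ℝ) := by
    intro h
    have h1 := fiber_sum S0 hWpos (fun n => AP N (n + h))
    simp only [hPAe] at h1
    have h2 : TA3 N a b h = S0.filter (fun n => AP N (n + h)) := by
      rw [hS0]
      unfold TA3
      ext n
      simp only [mem_filter]
      tauto
    rw [h2, h1, Nat.cast_sum]
  -- one class
  have key : ∀ ν ∈ range W, c0 * κ * ∑ h ∈ I, (if OK W ν (insert h {a, b}) then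
        g h * Ew N W (insert h {a, b}) else 0) - (if OK W ν {a, b} then 2 * η * (H / L) * Ew N W {a, b} else 0) ≤
      ∑ h ∈ I, g h * (((PA N W ν a b).filter (fun n => AP N (n + h))).card : ℝ) := by
    intro ν hν
    rw [mem_range] at hν
    have hright : ∑ h ∈ Jv W ν u H \ {a, b}, g h * (((PA N W ν a b).filter (fun n => AP N (n + h))).card : ℝ) ≤
        ∑ h ∈ I, g h * (((PA N W ν a b).filter (fun n => AP N (n + h))).card : ℝ) := by
      apply sum_le_sum_of_subset_of_nonneg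
      · rw [hI]
        apply sdiff_subset_sdiff _ subset_rfl
        unfold Jv
        exact filter_subset _ _
      · intro h _ _
        exact mul_nonneg (hg0 h) (Nat.cast_nonneg _)
    by_cases hOK : OK W ν {a, b}
    · rw [if_pos hOK]
      have h1 := hN1 N hNN1 {a, b} hT2 hTA ν (by rw [← hW]; exact hν) (by rw [← hW]; exact hOK) u H hKH hHA g hg0 hg1
        (PA N W ν a b) (by rw [← hW]; exact PA_sub hN1' hsqN)
      have h2 := hN2 N hNN2 a b hab haA hbA ν (by rw [← hW]; exact hν) (by rw [← hW]; exact hOK)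
      have h3 := hH3 H hH3H {a, b} hT2 ν (by rw [← hW]; exact hν) (by rw [← hW]; exact hOK) u
        (fun t ht => (hTA t ht).trans hLAHA) (hHA.trans hLAHA) g hg0 hg1
      rw [← hW, ← hL] at h1
      rw [← hW] at h2 h3
      refine le_trans ?_ (h1.trans hright)
      obtain ⟨G, hG⟩ : ∃ G, G = ∑ h ∈ Jv W ν u H \ {a, b}, g h := ⟨_, rfl⟩
      have hG0 : 0 ≤ G := by rw [hG]; exact sum_nonneg fun h _ => hg0 h
      rw [← hG] at h3 ⊢
      obtain ⟨E, hE⟩ : ∃ E, E = Ew N W {a, b} := ⟨_, rfl⟩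
      have hE0 : 0 ≤ E := by rw [hE]; exact Ew_nonneg hN1'
      rw [← hE] at h2 ⊢
      have e1 : ∑ h ∈ I, (if OK W ν (insert h {a, b}) then g h * Ew N W (insert h {a, b}) else 0) =
          N / L ^ 3 * ∑ h ∈ Jv W ν u H \ {a, b}, g h * (Uni.CT (insert h {a, b}) / Uni.gT W (insert h {a, b})) := by
        rw [← sum_filter, mul_sum]
        have e2 : I.filter (fun h => OK W ν (insert h {a, b})) = Jv W ν u H \ {a, b} := by
          rw [hI]
          unfold Jv
          ext h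
          simp only [Finset.mem_sdiff, mem_filter]
          constructor
          · rintro ⟨⟨b1, b2⟩, b3⟩
            exact ⟨⟨b1, b3 h (mem_insert_self _ _)⟩, b2⟩
          · rintro ⟨⟨b1, b3⟩, b2⟩
            refine ⟨⟨b1, b2⟩, ?_⟩
            intro t ht
            rcases mem_insert.1 ht with rfl | ht
            · exact b3
            · exact hOK t ht
        rw [e2]
        apply sum_congr rfl
        intro h hh
        rw [Finset.mem_sdiff] at hh
        unfold Ew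
        rw [card_insert_of_notMem hh.2, hT2, ← hL]
        ring
      rw [e1]
      obtain ⟨Z, hZ⟩ : ∃ Z, Z = ∑ h ∈ Jv W ν u H \ {a, b}, g h * (Uni.CT (insert h {a, b}) / Uni.gT W (insert h {a, b})) :=
        ⟨_, rfl⟩
      rw [← hZ] at h3 ⊢
      have hEe : E = N / L ^ 2 * (Uni.CT {a, b} / Uni.gT W {a, b}) := by
        rw [hE]
        unfold Ew
        rw [hT2]
      have h4 : N / L ^ 3 * Z ≤ E * ((W : ℝ) / Nat.totient W * G + η * H) / L := by
        have h5 := mul_le_mul_of_nonneg_left h3 (show 0 ≤ (N : ℝ) / L ^ 3 by positivity)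
        refine h5.trans (le_of_eq ?_)
        rw [hEe]
        field_simp
      have h5 : c0 * κ * (N / L ^ 3 * Z) ≤ c0 * ((W : ℝ) / Nat.totient W) * G / L * (κ * E) + η * (H / L) * E := by
        have h6 := mul_le_mul_of_nonneg_left h4 (show 0 ≤ c0 * κ by positivity)
        refine h6.trans ?_
        have e3 : c0 * κ * (E * ((W : ℝ) / Nat.totient W * G + η * H) / L) =
            c0 * ((W : ℝ) / Nat.totient W) * G / L * (κ * E) + (c0 * κ) * (η * (H / L) * E) := by ring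
        rw [e3]
        apply add_le_add le_rfl
        have h7 : c0 * κ ≤ 1 := mul_le_one₀ hc1 hκ0.le hκ1
        exact mul_le_of_le_one_left (by positivity) h7
      have h6 : c0 * ((W : ℝ) / Nat.totient W) * G / L * (κ * E) ≤
          c0 * ((W : ℝ) / Nat.totient W) * G / L * ((PA N W ν a b).card : ℝ) :=
        mul_le_mul_of_nonneg_left h2 (by positivity)
      linarith
    · rw [if_neg hOK, sub_zero]
      have e1 : ∑ h ∈ I, (if OK W ν (insert h {a, b}) then g h * Ew N W (insert h {a, b}) else 0) = 0 := by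
        apply sum_eq_zero
        intro h _
        rw [if_neg]
        intro h1
        exact hOK (fun t ht => h1 t (mem_insert_of_mem ht))
      rw [e1, mul_zero]
      exact sum_nonneg fun h _ => mul_nonneg (hg0 h) (Nat.cast_nonneg _)
  have hsum := sum_le_sum key
  rw [sum_sub_distrib, ← mul_sum] at hsum
  have e1 : ∑ ν ∈ range W, ∑ h ∈ I, g h * (((PA N W ν a b).filter (fun n => AP N (n + h))).card : ℝ) =
      ∑ h ∈ I, g h * ((TA3 N a b h).card : ℝ) := by
    rw [sum_comm]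
    apply sum_congr rfl
    intro h _
    rw [hTA3, mul_sum]
  have e2 : ∑ h ∈ I, g h * (N / L ^ 3 * Uni.CT (insert h {a, b})) ≤
      ∑ ν ∈ range W, ∑ h ∈ I, (if OK W ν (insert h {a, b}) then g h * Ew N W (insert h {a, b}) else 0) := by
    rw [sum_comm]
    apply sum_le_sum
    intro h hh
    rw [← sum_filter, ← mul_sum]
    apply mul_le_mul_of_nonneg_left _ (hg0 h)
    rw [hI, Finset.mem_sdiff] at hh
    have h2 := Ew_sum_ge (N := N) (w' := 0) (w := w) (a := 0) (T := insert h {a, b}) hN1' (Nat.zero_le _)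
      (by rw [WW_zero]; exact one_pos) (by rw [WW_zero]; exact OK_one _ _)
    rw [WW_zero, ← hW] at h2
    have h3 : Ew N 1 (insert h {a, b}) = N / L ^ 3 * Uni.CT (insert h {a, b}) := by
      unfold Ew
      rw [gT_one, card_insert_of_notMem hh.2, hT2, ← hL, Nat.cast_one, div_one]
    rw [h3] at h2
    refine h2.trans (le_of_eq ?_)
    apply sum_congr _ (fun _ _ => rfl)
    ext ν
    simp only [mem_filter, Nat.mod_one, true_and]
  have e3 : ∑ ν ∈ range W, (if OK W ν {a, b} then 2 * η * (H / L) * Ew N W {a, b} else 0) ≤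
      ε * (H / L) * (N / L ^ 2 * Uni.CT {a, b}) := by
    rw [← sum_filter, ← mul_sum]
    have h3 := Ew_sum (N := N) (w' := 0) (w := w) (a := 0) (T := {a, b}) hN1' (Nat.zero_le _)
      (by rw [WW_zero]; exact one_pos) (by rw [WW_zero]; exact OK_one _ _)
    rw [WW_zero, ← hW] at h3
    have h4 : Ew N 1 {a, b} = N / L ^ 2 * Uni.CT {a, b} := by
      unfold Ew
      rw [gT_one, hT2, ← hL, Nat.cast_one, div_one]
    rw [h4] at h3
    have h5 : ∑ _ν ∈ (range W).filter (fun ν => OK W ν {a, b}), Ew N W {a, b} ≤ N / L ^ 2 * Uni.CT {a, b} := by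
      refine le_trans (le_of_eq ?_) h3
      apply sum_congr _ (fun _ _ => rfl)
      ext ν
      simp only [mem_filter, Nat.mod_one, true_and]
    have hCT := Uni.CT_nonneg {a, b}
    calc 2 * η * (H / L) * ∑ _ν ∈ (range W).filter (fun ν => OK W ν {a, b}), Ew N W {a, b} ≤
        2 * η * (H / L) * (N / L ^ 2 * Uni.CT {a, b}) := mul_le_mul_of_nonneg_left h5 (by positivity)
      _ ≤ ε * (H / L) * (N / L ^ 2 * Uni.CT {a, b}) := by
          apply mul_le_mul_of_nonneg_right _ (by positivity)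
          apply mul_le_mul_of_nonneg_right _ (by positivity)
          linarith
  rw [e1] at hsum
  have e4 := mul_le_mul_of_nonneg_left e2 (show 0 ≤ c0 * κ by positivity)
  linarith

end Pool.Agent.L0h43.TD
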