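import Pool.Agent.L0h43.TD.PLd

/-!
# A third almost prime next to every pair: real `x`, differences
-/

set_option autoImplicit false

namespace Pool.Agent.L0h43.TD

open Finset Filter Topology Pool.Agent.H387R2
open Pool.Agent.L0h43.TA Pool.Agent.L0h43.TB
open Pool.Agent.H386R2.HL

open Classical in
/-- `n + a` prime, `n + b` and `n + h` almost primes -/
noncomputable def c3L (x : ℝ) (a b h : ℕ) : ℕ :=
  ((Icc 1 ⌊x⌋₊).filter (fun n => (n + a).Prime ∧ APx x (n + b) ∧ APx x (n + h))).card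

open Classical in
/-- `n + a` prime, `n + b` almost prime -/
noncomputable def c2S (x : ℝ) (a b : ℕ) : Finset ℕ :=
  (Icc 1 ⌊x⌋₊).filter (fun n => (n + a).Prime ∧ APx x (n + b))

lemma TA3_le {x : ℝ} {a b h : ℕ} (h19 : x ^ (1 / 9 : ℝ) ≤ (⌊x⌋₊ : ℝ) ^ (3 / 25 : ℝ)) :
    ((TA3 ⌊x⌋₊ a b h).card : ℝ) ≤ (c3L x a b h : ℝ) := by
  classical
  unfold c3L
  rw [Nat.cast_le]
  apply card_le_card
  intro n hn
  unfold TA3 at hn
  rw [mem_filter, mem_Ioc] at hn
  rw [mem_filter, mem_Icc]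
  refine ⟨⟨by omega, hn.1.2⟩, hn.2.1, ?_, ?_⟩
  · exact ⟨hn.2.2.1.1, fun p hp hpd => h19.trans (hn.2.2.1.2 p hp hpd)⟩
  · exact ⟨hn.2.2.2.1, fun p hp hpd => h19.trans (hn.2.2.2.2 p hp hpd)⟩

theorem tripL_real : ∃ c : ℝ, 0 < c ∧ c ≤ 1 ∧ ∀ ε : ℝ, 0 < ε → ∃ K : ℝ, 1 ≤ K ∧ ∀ A : ℝ, 0 ≤ A → ∀ᶠ x : ℝ in atTop,
    ∀ a b : ℕ, a ≠ b → (a : ℝ) ≤ Real.log x ^ A → (b : ℝ) ≤ Real.log x ^ A → ∀ u H : ℕ,
      K * Real.log x ≤ H → ((u + H : ℕ) : ℝ) ≤ Real.log x ^ A → ∀ g : ℕ → ℝ, (∀ h, 0 ≤ g h) → (∀ h, g h ≤ 1) →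
      (c * ∑ h ∈ Ioc u (u + H) \ {a, b}, g h * Uni.CT (insert h {a, b}) - ε * H * Uni.CT {a, b}) *
          (x / Real.log x ^ 3) ≤
        ∑ h ∈ Ioc u (u + H) \ {a, b}, g h * (c3L x a b h : ℝ) := by
  classical
  obtain ⟨c, hc0, hc1, H00⟩ := tripL
  refine ⟨c / 2, by positivity, by linarith, fun ε hε => ?_⟩
  obtain ⟨η, hη0, hη1, hη⟩ := choose_eta 3 1 one_pos le_rfl
  obtain ⟨K, hK, H0⟩ := H00 (ε / 2) (by positivity)
  refine ⟨K, hK, fun A hA => ?_⟩
  obtain ⟨N₀, hN₀⟩ := H0 (A + 1) (by linarith)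
  filter_upwards [ev_real η A hη0 hA (max N₀ 3), ev_19, eventually_ge_atTop (2 : ℝ)] with x h1 h19 hx2
  obtain ⟨a1, a2, a3, a4, a5, a6, a7⟩ := h1
  intro a b hab haA hbA u H hKH hHA g hg0 hg1
  have hT3 : ∀ h, ((TA3 ⌊x⌋₊ a b h).card : ℝ) ≤ (c3L x a b h : ℝ) := fun h => TA3_le h19
  have hxN1 := Nat.lt_floor_add_one x
  obtain ⟨N, hN⟩ : ∃ N, N = ⌊x⌋₊ := ⟨_, rfl⟩
  rw [← hN] at a1 a2 a3 a4 a5 a6 hT3 hxN1
  set L := Real.log (N : ℝ) with hL
  set l := Real.log x with hl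
  have hL0 : 0 < L := by linarith
  have hl0 : 0 < l := by linarith
  have hx0 : 0 < x := by linarith
  have hKL : K * L ≤ H := (mul_le_mul_of_nonneg_left a3 (by linarith)).trans hKH
  have hmain := hN₀ N ((le_max_left _ _).trans a1) a b hab (haA.trans a5) (hbA.trans a5) u H hKL (hHA.trans a5)
    g hg0 hg1
  rw [← hL] at hmain
  have hH0 : (0 : ℝ) < H := lt_of_lt_of_le (by positivity) hKL
  obtain ⟨C, hC⟩ : ∃ C, C = Uni.CT {a, b} := ⟨_, rfl⟩
  have hC0 : 0 ≤ C := by rw [hC]; exact Uni.CT_nonneg _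
  rw [← hC] at hmain ⊢
  obtain ⟨S, hS⟩ : ∃ S, S = Ioc u (u + H) \ {a, b} := ⟨_, rfl⟩
  rw [← hS] at hmain ⊢
  obtain ⟨G, hG⟩ : ∃ G, G = ∑ h ∈ S, g h * Uni.CT (insert h {a, b}) := ⟨_, rfl⟩
  rw [← hG]
  have hG0 : 0 ≤ G := by rw [hG]; exact sum_nonneg fun D _ => mul_nonneg (hg0 D) (Uni.CT_nonneg _)
  have e2 : ∑ h ∈ S, g h * (N / L ^ 3 * Uni.CT (insert h {a, b})) = N / L ^ 3 * G := by
    rw [hG, mul_sum]
    apply sum_congr rfl
    intro D _
    ring
  rw [e2] at hmain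
  have hright : ∑ h ∈ S, g h * ((TA3 N a b h).card : ℝ) ≤ ∑ h ∈ S, g h * (c3L x a b h : ℝ) :=
    sum_le_sum fun h _ => mul_le_mul_of_nonneg_left (hT3 h) (hg0 h)
  refine le_trans ?_ (hmain.trans hright)
  obtain ⟨P, hP⟩ : ∃ P, P = x / l ^ 3 := ⟨_, rfl⟩
  have hP0 : 0 ≤ P := by rw [hP]; positivity
  have hlo : 1 / 2 * P ≤ N / L ^ 3 := by
    have h3 : x / 2 ≤ N := by linarith
    have h4 : L ^ 3 ≤ l ^ 3 := pow_le_pow_left₀ hL0.le a3 3
    rw [hP]
    calc 1 / 2 * (x / l ^ 3) = (x / 2) / l ^ 3 := by ring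
      _ ≤ N / L ^ 3 := div_le_div₀ (Nat.cast_nonneg _) h3 (by positivity) h4
  have hup : N / L ^ 3 ≤ 2 * P := by
    have h3 : (N : ℝ) / L ^ 3 ≤ (1 + η) ^ 3 * (x / l ^ 3) := by
      rw [mul_div_assoc', div_le_div_iff₀ (by positivity) (by positivity)]
      have : l ^ 3 ≤ ((1 + η) * L) ^ 3 := pow_le_pow_left₀ hl0.le a4 _
      calc (N : ℝ) * l ^ 3 ≤ x * ((1 + η) * L) ^ 3 := mul_le_mul a6 this (by positivity) hx0.le
        _ = _ := by rw [mul_pow]; ring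
    refine h3.trans ?_
    rw [hP]
    exact mul_le_mul_of_nonneg_right (by linarith) (by positivity)
  rw [← hP]
  have h5 : c / 2 * G * P ≤ c * (N / L ^ 3 * G) := by
    calc c / 2 * G * P = c * G * (1 / 2 * P) := by ring
      _ ≤ c * G * (N / L ^ 3) := mul_le_mul_of_nonneg_left hlo (by positivity)
      _ = _ := by ring
  have h6 : ε / 2 * (H / L) * (N / L ^ 2 * C) ≤ ε * H * C * P := by
    have e : ε / 2 * ((H : ℝ) / L) * (N / L ^ 2 * C) = ε / 2 * (H * C) * (N / L ^ 3) := by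
      field_simp
    rw [e]
    calc ε / 2 * (H * C) * (N / L ^ 3) ≤ ε / 2 * (H * C) * (2 * P) :=
          mul_le_mul_of_nonneg_left hup (by positivity)
      _ = _ := by ring
  have e3 : (c / 2 * G - ε * H * C) * P = c / 2 * G * P - ε * H * C * P := by ring
  rw [e3]
  linarith

/-- the number of pairs -/
theorem pairL_real : ∃ κ : ℝ, 0 < κ ∧ κ ≤ 1 ∧ ∀ A : ℝ, 0 ≤ A → ∀ᶠ x : ℝ in atTop,
    ∀ a b : ℕ, a ≠ b → (a : ℝ) ≤ Real.log x ^ A → (b : ℝ) ≤ Real.log x ^ A →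
      κ * Uni.CT {a, b} * (x / Real.log x ^ 2) ≤ ((c2S x a b).card : ℝ) := by
  classical
  obtain ⟨κ, hκ0, hκ1, HP⟩ := pairL
  refine ⟨κ / 2, by positivity, by linarith, fun A hA => ?_⟩
  obtain ⟨N₀, hN₀⟩ := HP 8 le_rfl (A + 1)
  filter_upwards [ev_real 1 A one_pos hA (max N₀ 3), ev_19, eventually_ge_atTop (2 : ℝ)] with x h1 h19 hx2
  obtain ⟨a1, a2, a3, a4, a5, a6, a7⟩ := h1
  intro a b hab haA hbA
  have hxN1 := Nat.lt_floor_add_one x
  obtain ⟨W, hW⟩ : ∃ W, W = Uni.WW 8 := ⟨_, rfl⟩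
  have hWpos : 0 < W := by rw [hW]; exact Uni.WW_pos 8
  have hsub : ∀ ν, PA ⌊x⌋₊ W ν a b ⊆ (c2S x a b).filter (fun n => n % W = ν) := by
    intro ν n hn
    unfold PA at hn
    rw [mem_filter, mem_Ioc] at hn
    rw [mem_filter]
    unfold c2S
    rw [mem_filter, mem_Icc]
    exact ⟨⟨⟨by omega, hn.1.2⟩, hn.2.2.1, hn.2.2.2.1, fun p hp hpd => h19.trans (hn.2.2.2.2 p hp hpd)⟩, hn.2.1⟩
  obtain ⟨N, hN⟩ : ∃ N, N = ⌊x⌋₊ := ⟨_, rfl⟩
  rw [← hN] at a1 a2 a3 a4 a5 a6 hsub hxN1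
  set L := Real.log (N : ℝ) with hL
  set l := Real.log x with hl
  have hL0 : 0 < L := by linarith
  have hl0 : 0 < l := by linarith
  have hx0 : 0 < x := by linarith
  have hN1' : 1 ≤ N := by
    have := (le_max_right _ _).trans a1
    omega
  have hT2 : ({a, b} : Finset ℕ).card = 2 := card_pair hab
  have h1 : κ * (N / L ^ 2 * Uni.CT {a, b}) ≤ ((c2S x a b).card : ℝ) := by
    have h3 := Ew_sum_ge (N := N) (w' := 0) (w := 8) (a := 0) (T := {a, b}) hN1' (Nat.zero_le _)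
      (by rw [WW_zero]; exact one_pos) (by rw [WW_zero]; exact OK_one _ _)
    rw [WW_zero, ← hW] at h3
    have h4 : Ew N 1 {a, b} = N / L ^ 2 * Uni.CT {a, b} := by
      unfold Ew
      rw [gT_one, hT2, ← hL, Nat.cast_one, div_one]
    rw [h4] at h3
    refine (mul_le_mul_of_nonneg_left h3 hκ0.le).trans ?_
    rw [mul_sum]
    have h5 : ((c2S x a b).card : ℝ) = ∑ ν ∈ range W, (((c2S x a b).filter (fun n => n % W = ν)).card : ℝ) := by
      have h6 := fiber_sum (c2S x a b) hWpos (fun _ => True)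
      simp only [filter_true] at h6
      rw [h6, Nat.cast_sum]
    rw [h5]
    refine (sum_le_sum (g := fun ν => (((c2S x a b).filter (fun n => n % W = ν)).card : ℝ)) ?_).trans ?_
    · intro ν hν
      rw [mem_filter, mem_range] at hν
      have h7 := hN₀ N ((le_max_left _ _).trans a1) a b hab (haA.trans a5) (hbA.trans a5) ν (by rw [← hW]; exact hν.1)
        (by rw [← hW]; exact hν.2.2)
      rw [← hW] at h7
      refine h7.trans ?_
      exact_mod_cast card_le_card (hsub ν)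
    · apply sum_le_sum_of_subset_of_nonneg (filter_subset _ _)
      intro ν _ _
      exact Nat.cast_nonneg _
  refine le_trans ?_ h1
  have hlo : 1 / 2 * (x / l ^ 2) ≤ N / L ^ 2 := by
    have h3 : x / 2 ≤ N := by linarith
    have h4 : L ^ 2 ≤ l ^ 2 := pow_le_pow_left₀ hL0.le a3 2
    calc 1 / 2 * (x / l ^ 2) = (x / 2) / l ^ 2 := by ring
      _ ≤ N / L ^ 2 := div_le_div₀ (Nat.cast_nonneg _) h3 (by positivity) h4
  have hCT := Uni.CT_nonneg {a, b}
  calc κ / 2 * Uni.CT {a, b} * (x / l ^ 2) = κ * Uni.CT {a, b} * (1 / 2 * (x / l ^ 2)) := by ring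
    _ ≤ κ * Uni.CT {a, b} * (N / L ^ 2) := mul_le_mul_of_nonneg_left hlo (by positivity)
    _ = _ := by ring

/-- almost primes `> 1` -/
def AQ (x : ℝ) (m : ℕ) : Prop := 1 < m ∧ APx x m

open Classical in
/-- the number of primes `p ≤ x` with `p - d'`, `p - d` almost primes -/
noncomputable def q3 (x : ℝ) (d' d : ℕ) : ℕ :=
  ((range (⌊x⌋₊ + 1)).filter (fun p => p.Prime ∧ AQ x (p - d') ∧ AQ x (p - d))).card

open Classical in
/-- the number of primes `p ≤ x` with `p - d'` almost prime and at least `X` almost primes among the `p - d` -/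
noncomputable def rich (x : ℝ) (d' u H : ℕ) (X : ℝ) : ℕ :=
  ((range (⌊x⌋₊ + 1)).filter (fun p => p.Prime ∧ AQ x (p - d') ∧
    X ≤ (((Ioc u (u + H)).filter (fun d => AQ x (p - d))).card : ℝ))).card

lemma c3L_le {x : ℝ} {d' d M : ℕ} (hd : d < M) (hd' : d' < M) :
    (c3L x M (M - d') (M - d) : ℝ) ≤ q3 x d' d + M := by
  classical
  have h : ((Icc 1 ⌊x⌋₊).filter (fun n => (n + M).Prime ∧ APx x (n + (M - d')) ∧ APx x (n + (M - d)))).image
      (fun n => n + M) ⊆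
      (range (⌊x⌋₊ + 1)).filter (fun p => p.Prime ∧ AQ x (p - d') ∧ AQ x (p - d)) ∪ Ioc ⌊x⌋₊ (⌊x⌋₊ + M) := by
    intro p hp
    rw [mem_image] at hp
    obtain ⟨n, hn, rfl⟩ := hp
    rw [mem_filter, mem_Icc] at hn
    rw [mem_union, mem_filter, mem_range, mem_Ioc]
    have e1 : n + M - d' = n + (M - d') := by omega
    have e2 : n + M - d = n + (M - d) := by omega
    by_cases h3 : n + M ≤ ⌊x⌋₊
    · left
      rw [e1, e2]
      exact ⟨by omega, hn.2.1, ⟨by omega, hn.2.2.1⟩, ⟨by omega, hn.2.2.2⟩⟩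
    · right; omega
  have h2 := (card_le_card h).trans (card_union_le _ _)
  rw [card_image_of_injective _ (fun a b hab => by simpa using hab), Nat.card_Ioc, Nat.add_sub_cancel_left] at h2
  unfold c3L q3
  exact_mod_cast h2

theorem L2 : ∃ c : ℝ, 0 < c ∧ c ≤ 1 ∧ ∀ ε : ℝ, 0 < ε → ∃ K : ℝ, 1 ≤ K ∧ ∀ A : ℝ, 0 ≤ A → ∀ᶠ x : ℝ in atTop,
    ∀ d' : ℕ, 1 ≤ d' → Even d' → (d' : ℝ) ≤ Real.log x ^ A → ∀ u H : ℕ, K * Real.log x ≤ H →
      ((u + H : ℕ) : ℝ) ≤ Real.log x ^ A → ∀ g : ℕ → ℝ, (∀ h, 0 ≤ g h) → (∀ h, g h ≤ 1) →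
      (c * ∑ d ∈ Ioc u (u + H) \ {d'}, g d * Uni.CT {0, d', d} - ε * H * Uni.CT {0, d'}) *
          (x / Real.log x ^ 3) ≤ ∑ d ∈ Ioc u (u + H) \ {d'}, g d * (q3 x d' d : ℝ) := by
  classical
  obtain ⟨c', hc', hlow⟩ := CT_pos_low 2
  obtain ⟨c, hc0, hc1, H00⟩ := tripL_real
  refine ⟨c, hc0, hc1, fun ε hε => ?_⟩
  obtain ⟨K, hK, H0⟩ := H00 (ε / 2) (by positivity)
  refine ⟨K, hK, fun A hA => ?_⟩
  filter_upwards [H0 (A + 1) (by linarith), ev_refl A hA, ev_small (ε * c' / 4) (by positivity) (A + 4)] with x h0 h1 h2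
  obtain ⟨hl3, hx1, hsz⟩ := h1
  intro d' hd'1 hd'e hd'A u H hKH hHA g hg0 hg1
  obtain ⟨s1, s2, s3⟩ := hsz d' u H hd'A hHA
  obtain ⟨M, hM⟩ : ∃ M, M = u + H + 1 + d' := ⟨_, rfl⟩
  rw [← hM] at s1 s2
  set l := Real.log x with hl
  have hl0 : 0 < l := by linarith
  have hx0 : 0 < x := by linarith
  have hd'M : d' ≤ M := by omega
  have hne : M ≠ M - d' := by omega
  have hC := CT2_eq hd'M
  have hCpos : 0 < Uni.CT {0, d'} := CT_even_pos hd'e
  have hcard : ({M, M - d'} : Finset ℕ).card = 2 := card_pair hne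
  have hclow := hlow {M, M - d'} hcard (by rw [hC]; exact hCpos.ne')
  have hmain := h0 M (M - d') hne s1 s2 d' H hKH s3 (fun h => g (M - h))
    (fun h => hg0 _) (fun h => hg1 _)
  rw [hC, ← sum_reflect hM (fun h => g (M - h) * Uni.CT (insert h {M, M - d'})),
    ← sum_reflect hM (fun h => g (M - h) * (c3L x M (M - d') h : ℝ))] at hmain
  rw [hC] at hclow
  obtain ⟨I, hI⟩ : ∃ I, I = Ioc u (u + H) \ {d'} := ⟨_, rfl⟩
  have hIM : ∀ d ∈ I, d < M := by
    intro d hd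
    rw [hI, Finset.mem_sdiff, mem_Ioc] at hd
    omega
  have hIcard : (I.card : ℝ) ≤ H := by
    have : I.card ≤ H := by
      rw [hI]
      refine (card_le_card sdiff_subset).trans ?_
      rw [Nat.card_Ioc]; omega
    exact_mod_cast this
  rw [← hI] at hmain ⊢
  obtain ⟨C, hCd⟩ : ∃ C, C = Uni.CT {0, d'} := ⟨_, rfl⟩
  rw [← hCd] at hmain hclow hCpos ⊢
  have e1 : ∑ d ∈ I, g (M - (M - d)) * Uni.CT (insert (M - d) {M, M - d'}) = ∑ d ∈ I, g d * Uni.CT {0, d', d} := by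
    apply sum_congr rfl
    intro d hd
    rw [Nat.sub_sub_self (hIM d hd).le, CT3_eq hd'M (hIM d hd).le]
  rw [e1] at hmain
  have e2 : ∑ d ∈ I, g (M - (M - d)) * (c3L x M (M - d') (M - d) : ℝ) ≤
      ∑ d ∈ I, g d * (q3 x d' d : ℝ) + H * (M + 1) := by
    have h3 : ∀ d ∈ I, g (M - (M - d)) * (c3L x M (M - d') (M - d) : ℝ) ≤
        g d * (q3 x d' d : ℝ) + (M + 1) := by
      intro d hd
      rw [Nat.sub_sub_self (hIM d hd).le]
      have h4 := mul_le_mul_of_nonneg_left (c3L_le (x := x) (d' := d') (hIM d hd) (by omega)) (hg0 d)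
      rw [mul_add] at h4
      have h5 : g d * (M : ℝ) ≤ (M : ℝ) := mul_le_of_le_one_left (by positivity) (hg1 d)
      linarith
    refine (sum_le_sum h3).trans ?_
    rw [sum_add_distrib, sum_const, nsmul_eq_mul]
    apply add_le_add le_rfl
    exact mul_le_mul_of_nonneg_right hIcard (by positivity)
  have h4 : (M : ℝ) + 1 ≤ ε / 2 * C * (x / l ^ 3) := by
    have h5 : (1 : ℝ) ≤ l ^ (A + 1) := Real.one_le_rpow (by linarith) (by linarith)
    have h6 : (M : ℝ) + 1 ≤ 2 * l ^ (A + 1) := by linarith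
    refine h6.trans ?_
    have e3 : l ^ (A + 4) = l ^ (A + 1) * l ^ 3 := by
      rw [← Real.rpow_natCast, ← Real.rpow_add hl0]
      congr 1
      push_cast
      ring
    rw [e3] at h2
    have h7 : x ^ (1 / 2 : ℝ) ≤ x := by
      calc x ^ (1 / 2 : ℝ) ≤ x ^ (1 : ℝ) := Real.rpow_le_rpow_of_exponent_le hx1 (by norm_num)
        _ = x := Real.rpow_one x
    rw [mul_div_assoc', le_div_iff₀ (by positivity)]
    calc 2 * l ^ (A + 1) * l ^ 3 = 2 * (l ^ (A + 1) * l ^ 3) := by ring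
      _ ≤ 2 * (ε * c' / 4 * x ^ (1 / 2 : ℝ)) := by linarith
      _ = ε / 2 * c' * x ^ (1 / 2 : ℝ) := by ring
      _ ≤ ε / 2 * C * x := mul_le_mul (mul_le_mul_of_nonneg_left hclow (by positivity)) h7 (by positivity)
          (by positivity)
  have h5 : (H : ℝ) * (M + 1) ≤ H * (ε / 2 * C * (x / l ^ 3)) := mul_le_mul_of_nonneg_left h4 (Nat.cast_nonneg _)
  have e4 : (c * ∑ d ∈ I, g d * Uni.CT {0, d', d} - ε * H * C) * (x / l ^ 3) =
      (c * ∑ d ∈ I, g d * Uni.CT {0, d', d} - ε / 2 * H * C) * (x / l ^ 3) - H * (ε / 2 * C * (x / l ^ 3)) := by ring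
  rw [e4]
  linarith

open Classical in
theorem L3 : ∃ c : ℝ, 0 < c ∧ c ≤ 1 ∧ ∀ ε : ℝ, 0 < ε → ∃ K : ℝ, 1 ≤ K ∧ ∀ A : ℝ, 0 ≤ A → ∀ᶠ x : ℝ in atTop,
    ∀ d' : ℕ, 1 ≤ d' → Even d' → (d' : ℝ) ≤ Real.log x ^ A → ∀ u H : ℕ, K * Real.log x ≤ H →
      ((u + H : ℕ) : ℝ) ≤ Real.log x ^ A →
      ((((Ioc u (u + H)).filter (fun d => d ≠ d' ∧ Uni.CT {0, d', d} ≠ 0 ∧
        (q3 x d' d : ℝ) < c * (Uni.CT {0, d', d} * (x / Real.log x ^ 3)))).card : ℝ)) ≤ ε * H := by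
  obtain ⟨c', hc', hrel⟩ := CT_rel 2
  obtain ⟨c, hc0, hc1, H00⟩ := L2
  refine ⟨c / 2, by positivity, by linarith, fun ε hε => ?_⟩
  obtain ⟨K, hK, H0⟩ := H00 (ε * (c / 2) * c') (by positivity)
  refine ⟨K, hK, fun A hA => ?_⟩
  filter_upwards [H0 A hA, Real.tendsto_log_atTop.eventually_ge_atTop 1, eventually_gt_atTop 0] with x h0 hlog hx0
  intro d' hd'1 hd'e hd'A u H hKH hHA
  have hl0 : 0 < Real.log x := by linarith
  have hmain := h0 d' hd'1 hd'e hd'A u H hKH hHA (fun d => if Uni.CT {0, d', d} ≠ 0 ∧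
        (q3 x d' d : ℝ) < c / 2 * (Uni.CT {0, d', d} * (x / Real.log x ^ 3)) then 1 else 0)
    (fun d => by split_ifs <;> norm_num) (fun d => by split_ifs <;> norm_num)
  simp only [ite_mul, one_mul, zero_mul] at hmain
  rw [← sum_filter, ← sum_filter] at hmain
  obtain ⟨P, hP⟩ : ∃ P, P = x / Real.log x ^ 3 := ⟨_, rfl⟩
  have hP0 : 0 < P := by rw [hP]; positivity
  rw [← hP] at hmain ⊢
  obtain ⟨B, hB⟩ : ∃ B, B = (Ioc u (u + H) \ {d'}).filter (fun d => Uni.CT {0, d', d} ≠ 0 ∧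
        (q3 x d' d : ℝ) < c / 2 * (Uni.CT {0, d', d} * P)) := ⟨_, rfl⟩
  have hB2 : (Ioc u (u + H)).filter (fun d => d ≠ d' ∧ Uni.CT {0, d', d} ≠ 0 ∧
        (q3 x d' d : ℝ) < c / 2 * (Uni.CT {0, d', d} * P)) = B := by
    rw [hB]
    ext d
    simp only [mem_filter, Finset.mem_sdiff, mem_singleton]
    tauto
  rw [← hB] at hmain
  rw [hB2]
  obtain ⟨C, hCd⟩ : ∃ C, C = Uni.CT {0, d'} := ⟨_, rfl⟩
  have hCpos : 0 < C := by rw [hCd]; exact CT_even_pos hd'e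
  rw [← hCd] at hmain
  have h1 : ∑ d ∈ B, (q3 x d' d : ℝ) ≤ c / 2 * (∑ d ∈ B, Uni.CT {0, d', d}) * P := by
    rw [mul_assoc, sum_mul, mul_sum]
    apply sum_le_sum
    intro d hd
    rw [hB, mem_filter] at hd
    exact hd.2.2.le
  have h2 : c * (∑ d ∈ B, Uni.CT {0, d', d}) - ε * (c / 2) * c' * H * C ≤ c / 2 * (∑ d ∈ B, Uni.CT {0, d', d}) :=
    le_of_mul_le_mul_right (hmain.trans h1) hP0
  have h3 : (B.card : ℝ) * (c' * C) ≤ ∑ d ∈ B, Uni.CT {0, d', d} := by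
    rw [← nsmul_eq_mul, ← sum_const]
    apply sum_le_sum
    intro d hd
    rw [hB, mem_filter, Finset.mem_sdiff, mem_singleton, mem_Ioc] at hd
    have h4 := hrel {0, d'} d (card_pair (by omega)) (by
      rw [mem_insert, mem_singleton]; omega) (by
      have e : (insert d {0, d'} : Finset ℕ) = {0, d', d} := by
        ext a
        simp only [mem_insert, mem_singleton]
        tauto
      rw [e]
      exact hd.2.1)
    have e : (insert d {0, d'} : Finset ℕ) = {0, d', d} := by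
      ext a
      simp only [mem_insert, mem_singleton]
      tauto
    rw [e, ← hCd] at h4
    exact h4
  have h4 : c / 2 * ((B.card : ℝ) * (c' * C)) ≤ ε * (c / 2) * c' * H * C := by
    have := mul_le_mul_of_nonneg_left h3 (show 0 ≤ c / 2 by positivity)
    linarith
  have h5 : c / 2 * c' * C * (B.card : ℝ) ≤ c / 2 * c' * C * (ε * H) := by
    calc c / 2 * c' * C * (B.card : ℝ) = c / 2 * ((B.card : ℝ) * (c' * C)) := by ring
      _ ≤ _ := h4
      _ = _ := by ring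
  exact le_of_mul_le_mul_left h5 (by positivity)

/-- many pairs with many almost primes in the window -/
theorem L4 : ∃ c : ℝ, 0 < c ∧ c ≤ 1 ∧ ∃ K : ℝ, 1 ≤ K ∧ ∀ A : ℝ, 0 ≤ A → ∀ᶠ x : ℝ in atTop,
    ∀ d' : ℕ, 1 ≤ d' → Even d' → (d' : ℝ) ≤ Real.log x ^ A → ∀ u H : ℕ, K * Real.log x ≤ H →
      ((u + H : ℕ) : ℝ) ≤ Real.log x ^ A →
      c * (Uni.CT {0, d'} * (x / Real.log x ^ 2)) ≤ (rich x d' u H (c * (H / Real.log x)) : ℝ) := by
  classical
  obtain ⟨c', hc', hlow⟩ := CT_pos_low 2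
  obtain ⟨κ, hκ0, hκ1, HP⟩ := pairL_real
  obtain ⟨c1, hc1, HF⟩ := nbrF
  obtain ⟨K, hK, H0⟩ := HF 2 (κ / 4) (by positivity)
  refine ⟨min (κ / 2) c1, lt_min (by positivity) hc1, (min_le_left _ _).trans (by linarith), K, hK, fun A hA => ?_⟩
  filter_upwards [H0 (A + 1) (by linarith), HP (A + 1) (by linarith), ev_refl A hA,
    ev_small (κ * c' / 8) (by positivity) (A + 4), eventually_ge_atTop (3 : ℝ)] with x h0 hp h1 h2 hx3
  obtain ⟨hl3, hx1, hsz⟩ := h1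
  intro d' hd'1 hd'e hd'A u H hKH hHA
  obtain ⟨s1, s2, s3⟩ := hsz d' u H hd'A hHA
  obtain ⟨M, hM⟩ : ∃ M, M = u + H + 1 + d' := ⟨_, rfl⟩
  rw [← hM] at s1 s2
  set l := Real.log x with hl
  have hl0 : 0 < l := by linarith
  have hx0 : 0 < x := by linarith
  have hd'M : d' ≤ M := by omega
  have hne : M ≠ M - d' := by omega
  have hC := CT2_eq hd'M
  have hCpos : 0 < Uni.CT {0, d'} := CT_even_pos hd'e
  have hcard : ({M, M - d'} : Finset ℕ).card = 2 := card_pair hne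
  have hclow := hlow {M, M - d'} hcard (by rw [hC]; exact hCpos.ne')
  have hTA : ∀ t ∈ ({M, M - d'} : Finset ℕ), (t : ℝ) ≤ l ^ (A + 1) := by
    intro t ht
    rw [mem_insert, mem_singleton] at ht
    rcases ht with ht | ht
    · rw [ht]; exact s1
    · rw [ht]; exact s2
  have hbad := h0 {M, M - d'} hcard (by rw [hC]; exact hCpos.ne') hTA d' H hKH s3
  have hall := hp M (M - d') hne s1 s2
  rw [hC] at hbad hclow hall
  obtain ⟨C, hCd⟩ : ∃ C, C = Uni.CT {0, d'} := ⟨_, rfl⟩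
  rw [← hCd] at hbad hclow hCpos hall ⊢
  obtain ⟨P, hP⟩ : ∃ P, P = x / l ^ 2 := ⟨_, rfl⟩
  have hP0 : 0 ≤ P := by rw [hP]; positivity
  rw [← hP] at hbad hall ⊢
  obtain ⟨Bd, hBd⟩ : ∃ Bd, Bd = (RS x {M, M - d'}).filter (fun n =>
      (((Ioc d' (d' + H)).filter (fun h => APx x (n + h))).card : ℝ) < c1 * (H / l)) := ⟨_, rfl⟩
  rw [← hBd] at hbad
  have hx16 : x ^ (1 / 16 : ℝ) ≤ x ^ (1 / 9 : ℝ) := Real.rpow_le_rpow_of_exponent_le hx1 (by norm_num)
  have hsub : (c2S x M (M - d')).image (fun n => n + M) ⊆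
      ((range (⌊x⌋₊ + 1)).filter (fun p => p.Prime ∧ AQ x (p - d') ∧
        min (κ / 2) c1 * (H / l) ≤ (((Ioc u (u + H)).filter (fun d => AQ x (p - d))).card : ℝ)) ∪
        Bd.image (fun n => n + M)) ∪ Ioc ⌊x⌋₊ (⌊x⌋₊ + M) := by
    intro p hp
    rw [mem_image] at hp
    obtain ⟨n, hn, rfl⟩ := hp
    unfold c2S at hn
    rw [mem_filter, mem_Icc] at hn
    have e1 : n + M - d' = n + (M - d') := by omega
    rw [mem_union, mem_union, mem_filter, mem_range, mem_Ioc]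
    by_cases h3 : n + M ≤ ⌊x⌋₊
    · left
      by_cases h4 : n ∈ Bd
      · right
        rw [mem_image]
        exact ⟨n, h4, rfl⟩
      · left
        refine ⟨by omega, hn.2.1, ⟨by omega, by rw [e1]; exact hn.2.2⟩, ?_⟩
        have h5 : ¬ ((((Ioc d' (d' + H)).filter (fun h => APx x (n + h))).card : ℝ) < c1 * (H / l)) := by
          intro h6
          apply h4
          rw [hBd, mem_filter]
          refine ⟨?_, h6⟩
          unfold RS
          rw [mem_filter, mem_Icc]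
          refine ⟨hn.1, ?_⟩
          intro t ht
          rw [mem_insert, mem_singleton] at ht
          rcases ht with rfl | rfl
          · left; exact hn.2.1
          · right
            intro p hp hpd
            exact hx16.trans (hn.2.2.2 p hp hpd)
        push Not at h5
        refine le_trans ?_ (h5.trans ?_)
        · exact mul_le_mul_of_nonneg_right (min_le_right _ _) (by positivity)
        · rw [Nat.cast_le]
          apply card_le_card_of_injOn (fun h => M - h)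
          · intro h hh
            rw [mem_coe, mem_filter, mem_Ioc] at hh
            rw [mem_coe]
            change M - h ∈ _
            rw [mem_filter, mem_Ioc]
            have e2 : n + M - (M - h) = n + h := by omega
            rw [e2]
            exact ⟨⟨by omega, by omega⟩, ⟨by omega, hh.2⟩⟩
          · intro a ha b hb hab
            rw [mem_coe, mem_filter, mem_Ioc] at ha hb
            simp only at hab
            omega
    · right; omega
  have hinj : Function.Injective (fun n : ℕ => n + M) := fun a b hab => by simpa using hab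
  have h3 := (card_le_card hsub).trans ((card_union_le _ _).trans (Nat.add_le_add_right (card_union_le _ _) _))
  rw [card_image_of_injective _ hinj, card_image_of_injective _ hinj, Nat.card_Ioc, Nat.add_sub_cancel_left] at h3
  have h4 : ((c2S x M (M - d')).card : ℝ) ≤ (rich x d' u H (min (κ / 2) c1 * (H / l)) : ℝ) + Bd.card + M := by
    unfold rich
    exact_mod_cast h3
  have h5 : (M : ℝ) ≤ κ / 4 * (C * P) := by
    have h5 : (1 : ℝ) ≤ l ^ (A + 1) := Real.one_le_rpow (by linarith) (by linarith)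
    have h6 : (M : ℝ) ≤ 2 * l ^ (A + 1) := by linarith
    refine h6.trans ?_
    have e3 : l ^ (A + 4) = l ^ (A + 1) * l ^ 3 := by
      rw [← Real.rpow_natCast, ← Real.rpow_add hl0]
      congr 1
      push_cast
      ring
    rw [e3] at h2
    have h7 : x ^ (1 / 2 : ℝ) ≤ x := by
      calc x ^ (1 / 2 : ℝ) ≤ x ^ (1 : ℝ) := Real.rpow_le_rpow_of_exponent_le hx1 (by norm_num)
        _ = x := Real.rpow_one x
    have h8 : l ^ (A + 1) * l ^ 2 ≤ l ^ (A + 1) * l ^ 3 := by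
      apply mul_le_mul_of_nonneg_left _ (by positivity)
      exact pow_le_pow_right₀ (by linarith) (by norm_num)
    have e6 : κ / 4 * (C * P) = κ / 4 * C * x / l ^ 2 := by rw [hP]; ring
    rw [e6, le_div_iff₀ (by positivity)]
    calc 2 * l ^ (A + 1) * l ^ 2 = 2 * (l ^ (A + 1) * l ^ 2) := by ring
      _ ≤ 2 * (κ * c' / 8 * x ^ (1 / 2 : ℝ)) := by linarith
      _ = κ / 4 * c' * x ^ (1 / 2 : ℝ) := by ring
      _ ≤ κ / 4 * C * x := mul_le_mul (mul_le_mul_of_nonneg_left hclow (by positivity)) h7 (by positivity)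
          (by positivity)
  have h6 : min (κ / 2) c1 * (C * P) ≤ κ / 2 * (C * P) := mul_le_mul_of_nonneg_right (min_le_left _ _) (by positivity)
  have e7 : κ * C * P = κ * (C * P) := by ring
  rw [e7] at hall
  linarith

end Pool.Agent.L0h43.TD
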