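import Pool.Agent.L0h43.TD.Wt
import Pool.Agent.L0h43.TB.Set
import Pool.Agent.Helper112.Lp.Kmt

/-!
# The choice of the scale
-/

set_option autoImplicit false

namespace Pool.Agent.L0h43.TD

open Finset Filter Topology Pool.Agent.H387R2
open Pool.Agent.L0h43.TA Pool.Agent.L0h43.TB
open Pool.Agent.R490.P3c (lam Pi1 wt)
open Pool.Agent.H361R2.PP (JJ)

/-- at most three prime factors, all of them `≥ N ^ (3 / 25)` -/
def AP (N m : ℕ) : Prop :=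
  m.primeFactorsList.length ≤ 3 ∧ ∀ p : ℕ, p.Prime → p ∣ m → (N : ℝ) ^ (3 / 25 : ℝ) ≤ p

lemma Ro_le {J m p : ℕ} (hJ : 1 ≤ J) (hR : Ro J m) (hp : p.Prime) (hpz : p ≤ 2 ^ 2 ^ J) : ¬ p ∣ m := by
  apply hR
  refine mem_filter.2 ⟨mem_range.2 ?_, hp⟩
  rcases Nat.lt_or_eq_of_le hpz with h | h
  · exact h
  · exfalso
    rw [h] at hp
    have h1 : 2 ^ J ≠ 1 := by
      have : 2 ≤ 2 ^ J := by
        calc 2 = 2 ^ 1 := (pow_one 2).symm
          _ ≤ 2 ^ J := Nat.pow_le_pow_right (by norm_num) hJ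
      omega
    exact Nat.Prime.eq_one_of_pow hp |> h1

theorem setupL : ∃ c0 : ℝ, 0 < c0 ∧ ∀ (C κ j M : ℕ), 1 ≤ C → ∀ ε : ℝ, 0 < ε →
    ∃ (b k : ℕ) (B U0 s : ℝ), C * (κ + 1) ≤ b ∧ 1 ≤ B ∧ 1 ≤ U0 ∧ 0 < s ∧
      B ^ (2 + 2 * j) * U0 ^ 2 * (1 / 2) ^ b ≤ ε ∧
      ∃ N₀ : ℕ, ∀ N : ℕ, N₀ ≤ N → ∃ (J : ℕ) (P : Finset ℕ) (a : Finset ℕ → ℝ) (D : ℝ),
        Prs P ∧ (∀ p ∈ P, p.Prime ∧ 2 ^ 2 ^ J < p) ∧ (∀ U, |a U| ≤ 2) ∧
        (N : ℝ) ^ s ≤ (2 : ℝ) ^ 2 ^ J ∧ (2 : ℝ) ^ 2 ^ J ≤ (N : ℝ) ^ (1 / 256 : ℝ) ∧ V1 J * Real.log N ≤ B ∧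
        c0 / Real.log N ≤ V1 J * S0 P a ∧ 0 < S0 P a ∧ S0 P a ≤ U0 ∧ 2 * Pi1 P ≤ U0 ∧
        ∑ p ∈ P, 1 / (p : ℝ) ≤ U0 ∧
        N + 2 ^ 2 ^ J ≤ (2 ^ 2 ^ J) ^ k ∧ 1 ≤ D ∧ AD P a ≤ D ∧
        Eg C κ b J * D ^ 2 ≤ N / Real.log N ^ M ∧
        ∀ m : ℕ, m ≠ 0 → m ≤ 2 * N → Ro J m → lam P a m ≤ 1 ∧ (0 < lam P a m →
          (∀ p : ℕ, p.Prime → (N : ℝ) ^ (3 / 25 : ℝ) ≤ p → (p : ℝ) < (N : ℝ) ^ (47 / 100 : ℝ) → ¬ p ^ 2 ∣ m) →
          AP N m) := by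
  classical
  obtain ⟨f0, hf0, HW⟩ := weightsL
  obtain ⟨c, Cm, hc, hCm, hM⟩ := Pool.Agent.Helper112.LP.mertens_prod
  refine ⟨c * f0 / 4, by positivity, ?_⟩
  intro C κ j M hC ε hε
  obtain ⟨C1, hC1⟩ : ∃ C1 : ℝ, C1 = max 1 (2 * Cm) := ⟨_, rfl⟩
  have hC11 : 1 ≤ C1 := by rw [hC1]; exact le_max_left _ _
  have hC1m : 2 * Cm ≤ C1 := by rw [hC1]; exact le_max_right _ _
  obtain ⟨b, d, hb, hd, hd8, hdb, hpar⟩ := params' C1 18 C κ (2 * j) hC11 (by norm_num) hC 1 ε one_pos le_rfl hε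
  have hCR : (1 : ℝ) ≤ C := by exact_mod_cast hC
  have hb1 : (1 : ℝ) ≤ b := by
    have : 1 ≤ C * (κ + 1) := Nat.mul_pos hC (Nat.succ_pos κ)
    exact_mod_cast this.trans hb
  have hd256 : d ≤ 1 / 256 := by
    have h1 : 1 ≤ (C : ℝ) * b := by nlinarith
    have h2 : 1 * d ≤ C * b * d := mul_le_mul_of_nonneg_right h1 hd.le
    linarith
  push_cast at hpar
  obtain ⟨U0, hU0⟩ : ∃ U0 : ℝ, U0 = ((18 : ℝ) / d) ^ 18 := ⟨_, rfl⟩
  rw [← hU0] at hpar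
  have h18 : 1 ≤ 18 / d := by
    rw [le_div_iff₀ hd]; linarith
  have hU01 : 1 ≤ U0 := by rw [hU0]; exact one_le_pow₀ h18
  have hU018 : 18 / d ≤ U0 := by
    rw [hU0]
    exact le_self_pow₀ h18 (by norm_num)
  have hB1 : 1 ≤ C1 / d := by
    rw [le_div_iff₀ hd]; linarith
  obtain ⟨R0, hR0⟩ : ∃ R0 : ℕ, R0 = ⌈2 / d⌉₊ + 1 := ⟨_, rfl⟩
  have hR0d : (R0 : ℝ) ≤ 3 / d := by
    have h1 := (Nat.ceil_lt_add_one (show 0 ≤ 2 / d by positivity)).le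
    rw [hR0]
    push_cast
    have h2 : 1 / d ≥ 2 := by
      rw [ge_iff_le, le_div_iff₀ hd]; linarith
    have e : 3 / d = 2 / d + 1 / d := by ring
    rw [e]
    linarith
  refine ⟨b, R0 + 1, C1 / d, U0, d / 2, hb, hB1, hU01, by positivity, hpar, ?_⟩
  -- the limits
  have hX0 : ∃ X₀ : ℕ, ∀ r : ℕ, 100 ≤ r → r ≤ R0 → ∀ X : ℕ, X₀ ≤ X → 2 ≤ X →
    ∃ a : Finset ℕ → ℝ, (∀ U, |a U| ≤ 2) ∧
      (∀ U ⊆ Pool.Agent.R490.P3f.PP X ⌊(X : ℝ) ^ (1 / (r : ℝ))⌋₊ (1 / (r : ℝ)) (288 / 625), a U ≠ 0 →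
        ∏ p ∈ U, p ≤ ⌊(X : ℝ) ^ (12 / 25 : ℝ)⌋₊) ∧
      f0 / r ≤ S0 (Pool.Agent.R490.P3f.PP X ⌊(X : ℝ) ^ (1 / (r : ℝ))⌋₊ (1 / (r : ℝ)) (288 / 625)) a ∧
      ∑ p ∈ Pool.Agent.R490.P3f.PP X ⌊(X : ℝ) ^ (1 / (r : ℝ))⌋₊ (1 / (r : ℝ)) (288 / 625), 1 / (p : ℝ) ≤ r ∧
      Pi1 (Pool.Agent.R490.P3f.PP X ⌊(X : ℝ) ^ (1 / (r : ℝ))⌋₊ (1 / (r : ℝ)) (288 / 625)) ≤ 3 * r ∧
      ∀ m : ℕ, m ≠ 0 → (m : ℝ) ≤ (X : ℝ) ^ (11 / 10 : ℝ) → m.Coprime X →
        (∀ p : ℕ, p.Prime → p ≤ ⌊(X : ℝ) ^ (1 / (r : ℝ))⌋₊ → ¬ p ∣ m) →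
        lam (Pool.Agent.R490.P3f.PP X ⌊(X : ℝ) ^ (1 / (r : ℝ))⌋₊ (1 / (r : ℝ)) (288 / 625)) a m ≤ 1 ∧
        (0 < lam (Pool.Agent.R490.P3f.PP X ⌊(X : ℝ) ^ (1 / (r : ℝ))⌋₊ (1 / (r : ℝ)) (288 / 625)) a m →
          (∀ p ∈ Pool.Agent.W23.DC.pr X (3 / 25) (288 / 625), ¬ p ^ 2 ∣ m) →
          m.primeFactorsList.length ≤ 3 ∧ ∀ p : ℕ, p.Prime → p ∣ m → (X : ℝ) ^ (3 / 25 : ℝ) ≤ p) := by
    have h1 : ∀ r : ℕ, ∃ X₀ : ℕ, 100 ≤ r → ∀ X : ℕ, X₀ ≤ X → 2 ≤ X →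
      ∃ a : Finset ℕ → ℝ, (∀ U, |a U| ≤ 2) ∧
      (∀ U ⊆ Pool.Agent.R490.P3f.PP X ⌊(X : ℝ) ^ (1 / (r : ℝ))⌋₊ (1 / (r : ℝ)) (288 / 625), a U ≠ 0 →
        ∏ p ∈ U, p ≤ ⌊(X : ℝ) ^ (12 / 25 : ℝ)⌋₊) ∧
      f0 / r ≤ S0 (Pool.Agent.R490.P3f.PP X ⌊(X : ℝ) ^ (1 / (r : ℝ))⌋₊ (1 / (r : ℝ)) (288 / 625)) a ∧
      ∑ p ∈ Pool.Agent.R490.P3f.PP X ⌊(X : ℝ) ^ (1 / (r : ℝ))⌋₊ (1 / (r : ℝ)) (288 / 625), 1 / (p : ℝ) ≤ r ∧
      Pi1 (Pool.Agent.R490.P3f.PP X ⌊(X : ℝ) ^ (1 / (r : ℝ))⌋₊ (1 / (r : ℝ)) (288 / 625)) ≤ 3 * r ∧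
      ∀ m : ℕ, m ≠ 0 → (m : ℝ) ≤ (X : ℝ) ^ (11 / 10 : ℝ) → m.Coprime X →
        (∀ p : ℕ, p.Prime → p ≤ ⌊(X : ℝ) ^ (1 / (r : ℝ))⌋₊ → ¬ p ∣ m) →
        lam (Pool.Agent.R490.P3f.PP X ⌊(X : ℝ) ^ (1 / (r : ℝ))⌋₊ (1 / (r : ℝ)) (288 / 625)) a m ≤ 1 ∧
        (0 < lam (Pool.Agent.R490.P3f.PP X ⌊(X : ℝ) ^ (1 / (r : ℝ))⌋₊ (1 / (r : ℝ)) (288 / 625)) a m →
          (∀ p ∈ Pool.Agent.W23.DC.pr X (3 / 25) (288 / 625), ¬ p ^ 2 ∣ m) →
          m.primeFactorsList.length ≤ 3 ∧ ∀ p : ℕ, p.Prime → p ∣ m → (X : ℝ) ^ (3 / 25 : ℝ) ≤ p) := by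
      intro r
      by_cases hr : 100 ≤ r
      · obtain ⟨X₀, h⟩ := HW r hr
        exact ⟨X₀, fun _ => h⟩
      · exact ⟨0, fun h => absurd h hr⟩
    choose f hf using h1
    refine ⟨(range (R0 + 1)).sup f, fun r hr hr2 X hX hX2 => hf r hr X (le_trans ?_ hX) hX2⟩
    exact le_sup (f := f) (mem_range.2 (by omega))
  obtain ⟨X₀, HX⟩ := hX0
  obtain ⟨X1, hX1⟩ := Pool.Agent.H325R2.wtx.2 d hd (by linarith)
  obtain ⟨cE, hcE⟩ : ∃ cE : ℝ, cE = ((C * (κ + 1) : ℕ) : ℝ) ^ (C * (κ + 1)) * 16 := ⟨_, rfl⟩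
  have hcE0 : 0 ≤ cE := by rw [hcE]; positivity
  have tN : Tendsto (fun N : ℕ => (N : ℝ)) atTop atTop := tendsto_natCast_atTop_atTop
  have tL : Tendsto (fun N : ℕ => Real.log (N : ℝ)) atTop atTop := Real.tendsto_log_atTop.comp tN
  have tp : ∀ s : ℝ, 0 < s → Tendsto (fun N : ℕ => (N : ℝ) ^ s) atTop atTop :=
    fun s hs => (tendsto_rpow_atTop hs).comp tN
  have hsmall : ∀ᶠ N : ℕ in atTop, cE * Real.log N ^ (M + 1) ≤ (N : ℝ) ^ (1 / 64 : ℝ) := by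
    have h := (isLittleO_log_rpow_rpow_atTop ((M + 1 : ℕ) : ℝ) (s := 1 / 64) (by positivity)).def
      (show 0 < 1 / (cE + 1) by positivity)
    filter_upwards [tN.eventually h, tL.eventually_ge_atTop 0, eventually_ge_atTop 1] with N h1 h2 h3
    rw [Real.norm_of_nonneg (by positivity), Real.norm_of_nonneg (by positivity)] at h1
    rw [Real.rpow_natCast] at h1
    calc cE * Real.log N ^ (M + 1) ≤ cE * (1 / (cE + 1) * (N : ℝ) ^ (1 / 64 : ℝ)) :=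
          mul_le_mul_of_nonneg_left h1 hcE0
      _ = cE / (cE + 1) * (N : ℝ) ^ (1 / 64 : ℝ) := by ring
      _ ≤ 1 * (N : ℝ) ^ (1 / 64 : ℝ) := by
          apply mul_le_mul_of_nonneg_right _ (by positivity)
          rw [div_le_one (by positivity)]
          linarith
      _ = _ := one_mul _
  obtain ⟨N₀, hN₀⟩ := eventually_atTop.1 (hsmall.and ((tL.eventually_ge_atTop 10).and
    (((tp (d / 2) (by positivity)).eventually_ge_atTop 20).and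
    (((tp (1 / 10) (by positivity)).eventually_ge_atTop 2).and
    (eventually_ge_atTop (max X1 (max X₀ 16)))))))
  refine ⟨N₀, fun N hN => ?_⟩
  obtain ⟨h1, h2, h3, h4, h5⟩ := hN₀ N hN
  have hN16 : 16 ≤ N := le_trans (le_trans (le_max_right _ _) (le_max_right _ _)) h5
  have hNX1 : X1 ≤ N := le_trans (le_max_left _ _) h5
  have hNX0 : X₀ ≤ N := le_trans (le_trans (le_max_left _ _) (le_max_right _ _)) h5
  have hN16R : (16 : ℝ) ≤ N := by exact_mod_cast hN16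
  have hN0 : (0 : ℝ) < N := by linarith
  have hN1 : (1 : ℝ) ≤ N := by linarith
  set L := Real.log (N : ℝ) with hL
  have hL0 : 0 < L := by linarith
  obtain ⟨J, hJ⟩ : ∃ J : ℕ, J = JJ d N := ⟨_, rfl⟩
  obtain ⟨w1, w2, w3⟩ := hX1 N hNX1
  rw [← hJ] at w1 w2
  obtain ⟨z, hz⟩ : ∃ z : ℕ, z = 2 ^ 2 ^ J := ⟨_, rfl⟩
  have hzR : (z : ℝ) = (2 : ℝ) ^ 2 ^ J := by rw [hz]; push_cast; rfl
  rw [← hzR] at w1 w2
  have hz20 : (20 : ℝ) ≤ z := h3.trans w2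
  have hz20' : 20 ≤ z := by exact_mod_cast hz20
  have hz0 : (0 : ℝ) < z := by linarith
  have hJ1 : 1 ≤ J := by
    by_contra h
    have : J = 0 := by omega
    rw [this] at hz
    norm_num at hz
    omega
  -- the exponent
  obtain ⟨r, hr⟩ : ∃ r, r = Nat.clog z N := ⟨_, rfl⟩
  have hr1 : N ≤ z ^ r := by rw [hr]; exact Nat.le_pow_clog (by omega) N
  have hr2 : z ^ (r - 1) < N := by rw [hr]; exact Nat.pow_pred_clog_lt_self (by omega) (by omega)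
  have hr1R : (N : ℝ) ≤ (z : ℝ) ^ r := by exact_mod_cast hr1
  have hr2R : (z : ℝ) ^ (r - 1) < N := by exact_mod_cast hr2
  have hlogz : Real.log z = 2 ^ J * Real.log 2 := by
    rw [hzR, Real.log_pow]
    push_cast
    ring
  have hlz1 : d / 2 * L ≤ Real.log z := by
    have := Real.log_le_log (by positivity) w2
    rwa [Real.log_rpow hN0] at this
  have hlz2 : Real.log z ≤ d * L := by
    have := Real.log_le_log hz0 w1
    rwa [Real.log_rpow hN0] at this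
  have hlz0 : 0 < Real.log z := lt_of_lt_of_le (by positivity) hlz1
  have hrL : L ≤ r * Real.log z := by
    have := Real.log_le_log hN0 hr1R
    rwa [Real.log_pow] at this
  have hr256 : 256 ≤ r := by
    have h6 : L ≤ r * (d * L) := hrL.trans (mul_le_mul_of_nonneg_left hlz2 (Nat.cast_nonneg _))
    have h7 : 1 ≤ r * d := by
      by_contra hlt
      push Not at hlt
      have : r * (d * L) < L := by
        calc r * (d * L) = (r * d) * L := by ring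
          _ < 1 * L := mul_lt_mul_of_pos_right hlt hL0
          _ = L := one_mul L
      linarith
    have h8 : (256 : ℝ) ≤ r := by
      have h9 : (r : ℝ) * d ≤ r * (1 / 256) := mul_le_mul_of_nonneg_left hd256 (Nat.cast_nonneg _)
      linarith
    exact_mod_cast h8
  have hrR : (256 : ℝ) ≤ r := by exact_mod_cast hr256
  have hr1cast : ((r - 1 : ℕ) : ℝ) = (r : ℝ) - 1 := by
    rw [Nat.cast_sub (by omega)]; simp
  have hrL2 : ((r : ℝ) - 1) * Real.log z ≤ L := by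
    have := Real.log_le_log (by positivity) hr2R.le
    rwa [Real.log_pow, hr1cast] at this
  have hrR0 : r ≤ R0 := by
    have h6 : ((r : ℝ) - 1) * (d / 2 * L) ≤ L :=
      (mul_le_mul_of_nonneg_left hlz1 (by linarith)).trans hrL2
    have h7 : ((r : ℝ) - 1) * (d / 2) ≤ 1 := by
      by_contra hlt
      push Not at hlt
      have : L < ((r : ℝ) - 1) * (d / 2 * L) := by
        calc L = 1 * L := (one_mul L).symm
          _ < (((r : ℝ) - 1) * (d / 2)) * L := mul_lt_mul_of_pos_right hlt hL0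
          _ = _ := by ring
      linarith
    have h8 : (r : ℝ) - 1 ≤ 2 / d := by
      rw [le_div_iff₀ hd]; linarith
    have h9 : (r : ℝ) ≤ ((⌈2 / d⌉₊ + 1 : ℕ) : ℝ) := by
      push_cast
      have := Nat.le_ceil (2 / d)
      linarith
    rw [hR0]
    exact_mod_cast h9
  have hrR0R : (r : ℝ) ≤ 3 / d := le_trans (by exact_mod_cast hrR0) hR0d
  -- the number `X`
  obtain ⟨X, hX⟩ : ∃ X, X = z ^ r := ⟨_, rfl⟩
  have hXR : (X : ℝ) = (z : ℝ) ^ r := by rw [hX]; push_cast; rfl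
  have hNX : N ≤ X := by rw [hX]; exact hr1
  have hNXR : (N : ℝ) ≤ X := by exact_mod_cast hNX
  have hX1R : (1 : ℝ) ≤ X := hN1.trans hNXR
  have hX0R : (0 : ℝ) < X := by linarith
  have hroot : (X : ℝ) ^ (1 / (r : ℝ)) = z := by
    rw [hXR, one_div]
    exact Real.pow_rpow_inv_natCast hz0.le (by omega)
  have hfl : ⌊(X : ℝ) ^ (1 / (r : ℝ))⌋₊ = z := by rw [hroot, Nat.floor_natCast]
  have hXN : (X : ℝ) ≤ (N : ℝ) ^ (257 / 256 : ℝ) := by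
    have e : (z : ℝ) ^ r = z * (z : ℝ) ^ (r - 1) := by
      rw [← pow_succ']
      congr 1
      omega
    rw [hXR, e]
    calc (z : ℝ) * (z : ℝ) ^ (r - 1) ≤ (N : ℝ) ^ d * N := mul_le_mul w1 hr2R.le (by positivity) (by positivity)
      _ ≤ (N : ℝ) ^ (1 / 256 : ℝ) * (N : ℝ) ^ (1 : ℝ) := by
          rw [Real.rpow_one]
          apply mul_le_mul_of_nonneg_right _ hN0.le
          exact Real.rpow_le_rpow_of_exponent_le hN1 hd256
      _ = _ := by rw [← Real.rpow_add hN0]; norm_num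
  obtain ⟨a, ha1, ha2, ha3, ha4, ha5, ha6⟩ := HX r (by omega) hrR0 X (hNX0.trans hNX) (by omega)
  rw [hfl] at ha2 ha3 ha4 ha5 ha6
  obtain ⟨P, hP⟩ : ∃ P, P = Pool.Agent.R490.P3f.PP X z (1 / (r : ℝ)) (288 / 625) := ⟨_, rfl⟩
  rw [← hP] at ha2 ha3 ha4 ha5 ha6
  have hPm : ∀ p ∈ P, p.Prime ∧ z < p := by
    intro p hp
    rw [hP] at hp
    have := Pool.Agent.R490.P3f.PP_mem hp
    exact ⟨this.1, this.2.1⟩
  have hr0 : (0 : ℝ) < r := by linarith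
  have hS0 : 0 < S0 P a := lt_of_lt_of_le (by positivity) ha3
  have hPi0 := Pool.Agent.R490.P3c.Pi1_nonneg P (fun p hp => (hPm p hp).1)
  have h2Pi : 2 * Pi1 P ≤ U0 := by
    refine le_trans ?_ hU018
    calc 2 * Pi1 P ≤ 2 * (3 * r) := by linarith
      _ ≤ 2 * (3 * (3 / d)) := by linarith
      _ = 18 / d := by ring
  have hSle : S0 P a ≤ 2 * Pi1 P := by
    unfold S0 Pi1
    rw [mul_sum]
    apply sum_le_sum
    intro U hU
    have hw := Pool.Agent.R490.P3c.wt_pos P (fun p hp => (hPm p hp).1) U (mem_powerset.1 hU)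
    exact mul_le_mul_of_nonneg_right ((le_abs_self _).trans (ha1 U)) hw.le
  have hsP : ∑ p ∈ P, 1 / (p : ℝ) ≤ U0 := by
    refine ha4.trans (le_trans ?_ hU018)
    refine hrR0R.trans (div_le_div_of_nonneg_right (by norm_num) hd.le)
  obtain ⟨hM1, hM2⟩ := hM J
  have hV1 : V1 J = ∏ l ∈ (range (2 ^ 2 ^ J)).filter Nat.Prime, (1 - (1 : ℝ) / l) := rfl
  rw [← hV1] at hM1 hM2
  have h2J : (0 : ℝ) < 2 ^ J := by positivity
  have hln2 : (0.69 : ℝ) < Real.log 2 := by linarith [Real.log_two_gt_d9]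
  have hln2' : Real.log 2 < 0.7 := by linarith [Real.log_two_lt_d9]
  have hVL : V1 J * L ≤ C1 / d := by
    calc V1 J * L ≤ Cm / 2 ^ J * L := mul_le_mul_of_nonneg_right hM2 hL0.le
      _ ≤ Cm / 2 ^ J * (2 / d * (2 ^ J * Real.log 2)) := by
          apply mul_le_mul_of_nonneg_left _ (by positivity)
          rw [← hlogz]
          have : 2 / d * (d / 2 * L) = L := by field_simp
          calc L = 2 / d * (d / 2 * L) := this.symm
            _ ≤ _ := mul_le_mul_of_nonneg_left hlz1 (by positivity)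
      _ = 2 * Cm * Real.log 2 / d := by field_simp
      _ ≤ C1 / d := by
          apply div_le_div_of_nonneg_right _ hd.le
          nlinarith
  have hVS : c * f0 / 4 / L ≤ V1 J * S0 P a := by
    have h6 : c / 2 ^ J * (f0 / r) ≤ V1 J * S0 P a :=
      mul_le_mul hM1 ha3 (by positivity) (V1_pos J).le
    refine le_trans ?_ h6
    rw [div_mul_div_comm, div_div, div_le_div_iff₀ (by positivity) (by positivity)]
    apply mul_le_mul_of_nonneg_left _ (by positivity)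
    -- `2 ^ J r ≤ 4 L`
    have h7 : ((r : ℝ) - 1) * (2 ^ J * Real.log 2) ≤ L := by rw [← hlogz]; exact hrL2
    have h8 : (2 : ℝ) ^ J * (r / 2) * Real.log 2 ≤ L := by
      refine le_trans ?_ h7
      have : (r : ℝ) / 2 ≤ r - 1 := by linarith
      have h9 : 0 ≤ (2 : ℝ) ^ J * Real.log 2 := by positivity
      have := mul_le_mul_of_nonneg_right this h9
      linarith
    have h9 : (2 : ℝ) ^ J * (r / 2) * (1 / 2) ≤ (2 : ℝ) ^ J * (r / 2) * Real.log 2 :=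
      mul_le_mul_of_nonneg_left (by linarith) (by positivity)
    linarith
  -- the level
  obtain ⟨D, hD⟩ : ∃ D : ℕ, D = ⌊(X : ℝ) ^ (12 / 25 : ℝ)⌋₊ := ⟨_, rfl⟩
  rw [← hD] at ha2
  have hDle : (D : ℝ) ≤ (X : ℝ) ^ (12 / 25 : ℝ) := by rw [hD]; exact Nat.floor_le (by positivity)
  have hD1 : 1 ≤ D := by
    rw [hD]
    exact (Nat.one_le_floor_iff _).2 (Real.one_le_rpow hX1R (by norm_num))
  have hD1R : (1 : ℝ) ≤ D := by exact_mod_cast hD1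
  have hAD : AD P a ≤ 2 * D := Pool.Agent.R490.P3c.sum_abs P (fun p hp => (hPm p hp).1) a 2 D ha1 ha2
  have hkN : N + 2 ^ 2 ^ J ≤ (2 ^ 2 ^ J) ^ (R0 + 1) := by
    rw [← hz]
    have h6 : z ≤ N := by
      by_contra hlt
      push Not at hlt
      have h7 : z ^ 1 ≤ z ^ (r - 1) := Nat.pow_le_pow_right (by omega) (by omega)
      rw [pow_one] at h7
      omega
    calc N + z ≤ N * z := by nlinarith
      _ ≤ z ^ r * z := Nat.mul_le_mul_right _ hr1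
      _ = z ^ (r + 1) := (pow_succ z r).symm
      _ ≤ z ^ (R0 + 1) := Nat.pow_le_pow_right (by omega) (by omega)
  have hJ2 : ((J : ℝ) + 2) ≤ 4 * L := by
    have h7 : (2 : ℝ) ^ J * Real.log 2 ≤ L := by
      rw [← hlogz]
      refine hlz2.trans ?_
      have : d * L ≤ 1 * L := mul_le_mul_of_nonneg_right (by linarith) hL0.le
      linarith
    have h8 : (J : ℝ) ≤ (2 : ℝ) ^ J := by
      have : J < 2 ^ J := Nat.lt_two_pow_self
      have h9 : ((J : ℕ) : ℝ) ≤ ((2 ^ J : ℕ) : ℝ) := by exact_mod_cast this.le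
      push_cast at h9
      exact h9
    have h10 : (J : ℝ) * (1 / 2) ≤ L := by
      calc (J : ℝ) * (1 / 2) ≤ (2 : ℝ) ^ J * Real.log 2 := by
            apply mul_le_mul h8 (by linarith) (by norm_num) (by positivity)
        _ ≤ L := h7
    linarith
  have hE : Eg C κ b J * (2 * (D : ℝ)) ^ 2 ≤ N / L ^ M := by
    have hEr : Eg C κ b J ≤ ((C * (κ + 1) : ℕ) : ℝ) ^ (C * (κ + 1)) * (4 * L) * (N : ℝ) ^ (1 / 128 : ℝ) := by
      unfold Eg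
      apply mul_le_mul
      · exact mul_le_mul_of_nonneg_left hJ2 (by positivity)
      · rw [← hzR]
        calc ((z : ℝ) ^ (C * b)) ^ 2 ≤ (((N : ℝ) ^ d) ^ (C * b)) ^ 2 := by gcongr
          _ = (N : ℝ) ^ (d * ((C * b * 2 : ℕ) : ℝ)) := by
              rw [← pow_mul, Real.rpow_mul hN0.le, Real.rpow_natCast]
          _ ≤ (N : ℝ) ^ (1 / 128 : ℝ) := by
              apply Real.rpow_le_rpow_of_exponent_le hN1
              push_cast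
              linarith
      · positivity
      · positivity
    have h6 : (2 * (D : ℝ)) ^ 2 ≤ 4 * (N : ℝ) ^ (31 / 32 : ℝ) := by
      have h7 : (D : ℝ) ^ 2 ≤ (N : ℝ) ^ (31 / 32 : ℝ) := by
        calc (D : ℝ) ^ 2 ≤ ((X : ℝ) ^ (12 / 25 : ℝ)) ^ 2 := pow_le_pow_left₀ (by positivity) hDle 2
          _ ≤ (((N : ℝ) ^ (257 / 256 : ℝ)) ^ (12 / 25 : ℝ)) ^ 2 := by
              apply pow_le_pow_left₀ (by positivity)
              exact Real.rpow_le_rpow hX0R.le hXN (by norm_num)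
          _ = (N : ℝ) ^ ((257 / 256 : ℝ) * (12 / 25) * 2) := by
              rw [← Real.rpow_natCast, ← Real.rpow_mul hN0.le, ← Real.rpow_mul hN0.le]
              norm_num
          _ ≤ (N : ℝ) ^ (31 / 32 : ℝ) := Real.rpow_le_rpow_of_exponent_le hN1 (by norm_num)
      calc (2 * (D : ℝ)) ^ 2 = 4 * (D : ℝ) ^ 2 := by ring
        _ ≤ _ := by linarith
    calc Eg C κ b J * (2 * (D : ℝ)) ^ 2 ≤
          (((C * (κ + 1) : ℕ) : ℝ) ^ (C * (κ + 1)) * (4 * L) * (N : ℝ) ^ (1 / 128 : ℝ)) *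
          (4 * (N : ℝ) ^ (31 / 32 : ℝ)) := mul_le_mul hEr h6 (by positivity) (by positivity)
      _ = (cE * L) * ((N : ℝ) ^ (1 / 128 : ℝ) * (N : ℝ) ^ (31 / 32 : ℝ)) := by rw [hcE]; ring
      _ = (cE * L) * (N : ℝ) ^ (125 / 128 : ℝ) := by
          rw [← Real.rpow_add hN0]
          norm_num
      _ ≤ (cE * L) * (N : ℝ) ^ (63 / 64 : ℝ) := by
          apply mul_le_mul_of_nonneg_left _ (by positivity)
          exact Real.rpow_le_rpow_of_exponent_le hN1 (by norm_num)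
      _ ≤ N / L ^ M := by
          rw [le_div_iff₀ (by positivity)]
          calc (cE * L) * (N : ℝ) ^ (63 / 64 : ℝ) * L ^ M = (cE * L ^ (M + 1)) * (N : ℝ) ^ (63 / 64 : ℝ) := by ring
            _ ≤ (N : ℝ) ^ (1 / 64 : ℝ) * (N : ℝ) ^ (63 / 64 : ℝ) :=
                mul_le_mul_of_nonneg_right h1 (by positivity)
            _ = N := by
                rw [← Real.rpow_add hN0]
                have : (1 / 64 + 63 / 64 : ℝ) = 1 := by norm_num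
                rw [this, Real.rpow_one]
  refine ⟨J, P, a, 2 * D, fun p hp => (hPm p hp).1, ?_, ha1, ?_, ?_, hVL, hVS, hS0, hSle.trans h2Pi, h2Pi, hsP, hkN,
    by linarith, hAD, hE, ?_⟩
  · rw [← hz]; exact hPm
  · rw [← hzR]; exact w2
  · rw [← hzR]
    exact w1.trans (Real.rpow_le_rpow_of_exponent_le hN1 hd256)
  · intro m hm0 hm2 hRo
    have hny : ∀ p : ℕ, p.Prime → p ≤ z → ¬ p ∣ m := by
      intro p hp hpz
      rw [hz] at hpz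
      exact Ro_le hJ1 hRo hp hpz
    have hcop : m.Coprime X := by
      rw [hX, hz]
      apply Nat.Coprime.pow_right
      apply Nat.Coprime.pow_right
      rw [Nat.coprime_comm, Nat.prime_two.coprime_iff_not_dvd]
      exact hny 2 Nat.prime_two (by omega)
    have hmX : (m : ℝ) ≤ (X : ℝ) ^ (11 / 10 : ℝ) := by
      have h6 : (2 : ℝ) ≤ (X : ℝ) ^ (1 / 10 : ℝ) := h4.trans (Real.rpow_le_rpow hN0.le hNXR (by norm_num))
      calc (m : ℝ) ≤ 2 * N := by exact_mod_cast hm2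
        _ ≤ (X : ℝ) ^ (1 / 10 : ℝ) * X := mul_le_mul h6 hNXR hN0.le (by positivity)
        _ = (X : ℝ) ^ (1 / 10 : ℝ) * (X : ℝ) ^ (1 : ℝ) := by rw [Real.rpow_one]
        _ = _ := by rw [← Real.rpow_add hX0R]; norm_num
    obtain ⟨g1, g2⟩ := ha6 m hm0 hmX hcop hny
    refine ⟨g1, fun hpos hsq => ?_⟩
    obtain ⟨g3, g4⟩ := g2 hpos (by
      intro p hp
      have hp' := Pool.Agent.W23.DC.mem_pr.1 hp
      apply hsq p hp'.2.1
      · have h6 := (Pool.Agent.W23.DC.le_tt_iff (by omega) hp'.2.1.pos _).1 hp'.2.2.1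
        exact le_trans (Real.rpow_le_rpow hN0.le hNXR (by norm_num)) h6
      · have h6 := (Pool.Agent.Y882.tt_lt X p (288 / 625) (by omega) hp'.2.1.pos).1 hp'.2.2.2
        refine lt_of_lt_of_le h6 ?_
        calc (X : ℝ) ^ (288 / 625 : ℝ) ≤ ((N : ℝ) ^ (257 / 256 : ℝ)) ^ (288 / 625 : ℝ) :=
              Real.rpow_le_rpow hX0R.le hXN (by norm_num)
          _ = (N : ℝ) ^ ((257 / 256 : ℝ) * (288 / 625)) := by rw [← Real.rpow_mul hN0.le]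
          _ ≤ _ := Real.rpow_le_rpow_of_exponent_le hN1 (by norm_num))
    exact ⟨g3, fun p hp hpd => (Real.rpow_le_rpow hN0.le hNXR (by norm_num)).trans (g4 p hp hpd)⟩

end Pool.Agent.L0h43.TD
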