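import Pool.Agent.L0h43.TD.Mom

/-!
# The weights of the weighted linear sieve
-/

set_option autoImplicit false

namespace Pool.Agent.L0h43.TD

open Finset Filter
open Pool.Agent.W123.RP Pool.Agent.H373R2.T7 Pool.Agent.TH464.PO
open Pool.Agent.Y879.AP Pool.Agent.R490.P3c Pool.Agent.R490.P3f
open Pool.Agent.W23.DC Pool.Agent.Y882 Pool.Agent.Y882.KW

open Classical in
/-- the universal weights of level `X ^ (12 / 25)`, detecting products of at most three primes -/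
theorem weightsL : ∃ f0 : ℝ, 0 < f0 ∧ ∀ r : ℕ, 100 ≤ r → ∃ X₀ : ℕ, ∀ X : ℕ, X₀ ≤ X → 2 ≤ X →
    ∃ a : Finset ℕ → ℝ, (∀ U, |a U| ≤ 2) ∧
      (∀ U ⊆ PP X ⌊(X : ℝ) ^ (1 / (r : ℝ))⌋₊ (1 / (r : ℝ)) (288 / 625), a U ≠ 0 →
        ∏ p ∈ U, p ≤ ⌊(X : ℝ) ^ (12 / 25 : ℝ)⌋₊) ∧
      f0 / r ≤ S0 (PP X ⌊(X : ℝ) ^ (1 / (r : ℝ))⌋₊ (1 / (r : ℝ)) (288 / 625)) a ∧
      ∑ p ∈ PP X ⌊(X : ℝ) ^ (1 / (r : ℝ))⌋₊ (1 / (r : ℝ)) (288 / 625), 1 / (p : ℝ) ≤ r ∧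
      Pi1 (PP X ⌊(X : ℝ) ^ (1 / (r : ℝ))⌋₊ (1 / (r : ℝ)) (288 / 625)) ≤ 3 * r ∧
      ∀ m : ℕ, m ≠ 0 → (m : ℝ) ≤ (X : ℝ) ^ (11 / 10 : ℝ) → m.Coprime X →
        (∀ p : ℕ, p.Prime → p ≤ ⌊(X : ℝ) ^ (1 / (r : ℝ))⌋₊ → ¬ p ∣ m) →
        lam (PP X ⌊(X : ℝ) ^ (1 / (r : ℝ))⌋₊ (1 / (r : ℝ)) (288 / 625)) a m ≤ 1 ∧
        (0 < lam (PP X ⌊(X : ℝ) ^ (1 / (r : ℝ))⌋₊ (1 / (r : ℝ)) (288 / 625)) a m →
          (∀ p ∈ pr X (3 / 25) (288 / 625), ¬ p ^ 2 ∣ m) →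
          m.primeFactorsList.length ≤ 3 ∧ ∀ p : ℕ, p.Prime → p ∣ m → (X : ℝ) ^ (3 / 25 : ℝ) ≤ p) := by
  have hJ := cond_A (12 / 25) (8 / 9) (by norm_num) (by norm_num) (by norm_num)
  rw [show (12 / 25 / 4 : ℝ) = 3 / 25 by norm_num, show (24 / 25 * (12 / 25) : ℝ) = 288 / 625 by norm_num] at hJ
  obtain ⟨f0, F0, hf0, hF0, H⟩ := lsw4 (12 / 25) (3 / 25) (288 / 625) (8 / 9) (8 / 9 / (288 / 625))
    (by norm_num) (by norm_num) (by norm_num) (by norm_num) (by norm_num) (by norm_num) (by norm_num) (by norm_num)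
    (by norm_num) hJ
  refine ⟨f0, hf0, fun r hr => ?_⟩
  have hr0 : (0 : ℝ) < r := by exact_mod_cast (by omega : 0 < r)
  have hr100 : (100 : ℝ) ≤ r := by exact_mod_cast hr
  have hr1 : 1 / (r : ℝ) ≤ 1 / 100 := one_div_le_one_div_of_le (by norm_num) hr100
  obtain ⟨η, hη, H1⟩ := H (1 / (r : ℝ)) (by positivity) (by linarith) (by linarith)
  obtain ⟨X₀, hX₀⟩ := eventually_atTop.1 ((merg r (by omega) (288 / 625) η (by norm_num) hη).and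
    (merg r (by omega) (288 / 625) 1 (by norm_num) one_pos))
  refine ⟨X₀, fun X hX hX2 => ?_⟩
  obtain ⟨m1, m2⟩ := hX₀ X hX
  obtain ⟨cU, cL, h1, h2, h3, h4⟩ := H1 X hX2
  obtain ⟨g1, g2⟩ := h4 (gg X ⌊(X : ℝ) ^ (1 / (r : ℝ))⌋₊) (fun p _ => gg_nonneg _ _ _) m1
  obtain ⟨s1, s2⟩ := Pool.Agent.R490.P3h.sumP X ⌊(X : ℝ) ^ (1 / (r : ℝ))⌋₊ r (by omega) (288 / 625) (by norm_num)
    (by linarith) m2
  refine ⟨cL, fun U => (h1 U).2.trans (by norm_num), ?_, ?_, s1, s2, ?_⟩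
  · intro U hU hne
    apply Nat.le_floor
    apply h2 U _ (Or.inr hne)
    intro p hp
    have := hU hp
    exact (mem_filter.1 this).1
  · unfold S0
    rw [← VV_gg]
    calc f0 / r = 1 / (r : ℝ) * f0 := by ring
      _ ≤ _ := g1
  · intro m hm0 hmX hmc hmy
    have h5 := (h3 m).1
    have h6 := VV_ind X ⌊(X : ℝ) ^ (1 / (r : ℝ))⌋₊ (1 / (r : ℝ)) (288 / 625) cL m hmy hmc
    constructor
    · rw [← h6]
      refine h5.trans (Pool.Agent.R490.P3g.WB_le_one X _ _ _ _ _ (by norm_num) (by norm_num) m)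
    · intro hpos hsq
      exact detect X hX2 r 3 (3 / 25) (288 / 625) (8 / 9) (11 / 10) (by norm_num) (by norm_num) (by norm_num)
        (by norm_num) (by norm_num) cL m hm0 hmX h5 hmy hmc hpos hsq

end Pool.Agent.L0h43.TD
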